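import Pool.Agent.Lib.MP_092512_nt.DZ.Defs

/-!
# DZ-Bd: `FB g x ≤ log (2X)`, and `FB g x ≠ 0` implies that `x` is good

PROOF. `X < x ≤ 2X`, `g m ≠ 0 → m ≤ X^ε`, `ε ≤ 1/4`. A term of `FB g (fun _ => 2X) x` with `l ∈ x.primeFactors`, `m = x/l`,
`g m ≠ 0` has `l = x/m > X^(3/4)`. Two different such primes `l, l'` would give `l l' ∣ x`, `l l' > X^(3/2) > 2X`. So
at most one term is not `0`, it is `≤ g m log l ≤ log (2X)`. If there is one: `x = m l`, `m` satisfies the conditions of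
`gg`, the prime factors of `x` are `l > yy δ X` (`X^(3/4) > X^δ`, `δ ≤ 1/4`) and those of `m`. Conversely nothing is needed.
-/

set_option autoImplicit false

open Finset

namespace Pool.Agent.Lib.DZ

open Pool.Agent.Lib.MT Pool.Agent.Lib.MTR

private theorem bd_gg {ε δ : ℝ} {q b X m : ℕ} (h : gg ε δ q b X m ≠ 0) :
    1 < m ∧ (m : ℝ) ≤ (X : ℝ) ^ ε ∧ (∀ l : ℕ, l.Prime → l ∣ m → yy δ X < l) ∧
    m.primeFactorsList.length ≡ b [MOD q] := by
  by_contra h1
  apply h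
  unfold gg
  rw [if_neg h1]

private theorem bd_gg_le {ε δ : ℝ} {q b X m : ℕ} : gg ε δ q b X m ≤ 1 := by
  unfold gg
  split_ifs
  · exact le_rfl
  · exact zero_le_one

private theorem bd_big {ε δ : ℝ} (hε4 : ε ≤ 1 / 4) {q b X x p : ℕ} (hX : 1 ≤ X)
    (hx : X < x) (hpx : p ∣ x) (h : gg ε δ q b X (x / p) ≠ 0) :
    (X : ℝ) ^ (3 / 4 : ℝ) < p := by
  obtain ⟨h1, h2, -, -⟩ := bd_gg h
  have hX' : (1 : ℝ) ≤ X := by exact_mod_cast hX
  have hX0 : (0 : ℝ) < X := by linarith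
  have h3 : ((x / p : ℕ) : ℝ) ≤ (X : ℝ) ^ (1 / 4 : ℝ) :=
    h2.trans (Real.rpow_le_rpow_of_exponent_le hX' hε4)
  have h4 : p * (x / p) = x := Nat.mul_div_cancel' hpx
  have h5 : (X : ℝ) < p * ((x / p : ℕ) : ℝ) := by
    have : (X : ℝ) < x := by exact_mod_cast hx
    rw [← h4] at this
    exact_mod_cast this
  by_contra h6
  push Not at h6
  have h7 : (p : ℝ) * ((x / p : ℕ) : ℝ) ≤ (X : ℝ) ^ (3 / 4 : ℝ) * (X : ℝ) ^ (1 / 4 : ℝ) :=
    mul_le_mul h6 h3 (Nat.cast_nonneg _) (by positivity)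
  rw [← Real.rpow_add hX0] at h7
  norm_num at h7
  linarith

theorem bd (ε δ : ℝ) (hε : 0 < ε) (hε4 : ε ≤ 1 / 4) (hδ : 0 < δ) (hδ4 : δ ≤ 1 / 4) (q b : ℕ) :
    ∃ X₀ : ℕ, ∀ X : ℕ, X₀ ≤ X → ∀ x ∈ Ioc X (2 * X),
      BV.FB (gg ε δ q b X) (fun _ => 2 * X) x ≤ Real.log (2 * X) ∧
      (BV.FB (gg ε δ q b X) (fun _ => 2 * X) x ≠ 0 → Good ε δ q b X x) := by
  refine ⟨4, fun X hX x hx => ?_⟩
  rw [Finset.mem_Ioc] at hx
  have hX1 : 1 ≤ X := by omega
  have hX' : (4 : ℝ) ≤ X := by exact_mod_cast hX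
  have hX0 : (0 : ℝ) < X := by linarith
  have hx0 : x ≠ 0 := by omega
  have hlog : 0 ≤ Real.log (2 * X) := Real.log_nonneg (by linarith)
  constructor
  · by_cases hall : ∀ p ∈ x.primeFactors.filter (fun p => p ≤ 2 * X), gg ε δ q b X (x / p) = 0
    · unfold BV.FB
      rw [Finset.sum_eq_zero]
      · exact hlog
      · intro p hp
        rw [hall p hp, zero_mul]
    · push Not at hall
      obtain ⟨p, hp, hgp⟩ := hall
      have hpm := hp
      rw [Finset.mem_filter, Nat.mem_primeFactors] at hpm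
      obtain ⟨⟨hpp, hpx, -⟩, hp2⟩ := hpm
      have h1 := bd_big hε4 hX1 hx.1 hpx hgp
      unfold BV.FB
      rw [Finset.sum_eq_single_of_mem p hp]
      · have hp1 : (1 : ℝ) ≤ p := by exact_mod_cast hpp.one_le
        have hl0 : 0 ≤ Real.log p := Real.log_nonneg hp1
        calc gg ε δ q b X (x / p) * Real.log p ≤ 1 * Real.log p :=
              mul_le_mul_of_nonneg_right bd_gg_le hl0
          _ = Real.log p := one_mul _
          _ ≤ Real.log (2 * X) := by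
              apply Real.log_le_log (by linarith)
              exact_mod_cast hp2
      · intro r hr hrp
        rw [Finset.mem_filter, Nat.mem_primeFactors] at hr
        obtain ⟨⟨hrr, hrx, -⟩, hr2⟩ := hr
        by_contra h2
        have h3 : gg ε δ q b X (x / r) ≠ 0 := left_ne_zero_of_mul h2
        have h4 := bd_big hε4 hX1 hx.1 hrx h3
        have h5 : p * r ∣ x := by
          apply Nat.Coprime.mul_dvd_of_dvd_of_dvd _ hpx hrx
          exact (Nat.coprime_primes hpp hrr).2 (Ne.symm hrp)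
        have h6 : p * r ≤ 2 * X := (Nat.le_of_dvd (Nat.pos_of_ne_zero hx0) h5).trans hx.2
        have h6' : (p : ℝ) * r ≤ 2 * X := by exact_mod_cast h6
        have h7 : (X : ℝ) ^ (3 / 4 : ℝ) * (X : ℝ) ^ (3 / 4 : ℝ) < (p : ℝ) * r :=
          mul_lt_mul'' h1 h4 (by positivity) (by positivity)
        have h8 : (X : ℝ) ^ (3 / 4 : ℝ) * (X : ℝ) ^ (3 / 4 : ℝ) = X * (X : ℝ) ^ (1 / 2 : ℝ) := by
          rw [← Real.rpow_add hX0]
          nth_rewrite 2 [← Real.rpow_one (X : ℝ)]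
          rw [← Real.rpow_add hX0]
          norm_num
        have h9 : (2 : ℝ) ≤ (X : ℝ) ^ (1 / 2 : ℝ) := by
          rw [← Real.sqrt_eq_rpow]
          apply Real.le_sqrt_of_sq_le
          linarith
        nlinarith
  · intro hne
    unfold BV.FB at hne
    obtain ⟨p, hp, hgp⟩ := Finset.exists_ne_zero_of_sum_ne_zero hne
    rw [Finset.mem_filter, Nat.mem_primeFactors] at hp
    obtain ⟨⟨hpp, hpx, -⟩, hp2⟩ := hp
    have hg : gg ε δ q b X (x / p) ≠ 0 := left_ne_zero_of_mul hgp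
    obtain ⟨h1, h2, h3, h4⟩ := bd_gg hg
    refine ⟨x / p, p, hpp, (Nat.div_mul_cancel hpx).symm, h1, h2, ?_, h4⟩
    intro l hl hlx
    rw [← Nat.div_mul_cancel hpx, hl.dvd_mul] at hlx
    rcases hlx with hlx | hlx
    · exact h3 l hl hlx
    · rw [Nat.prime_dvd_prime_iff_eq hl hpp] at hlx
      rw [hlx]
      have h5 := bd_big hε4 hX1 hx.1 hpx hg
      have h6 : (X : ℝ) ^ δ ≤ (X : ℝ) ^ (3 / 4 : ℝ) :=
        Real.rpow_le_rpow_of_exponent_le (by linarith) (by linarith)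
      have h7 : ((yy δ X : ℕ) : ℝ) ≤ (X : ℝ) ^ δ := Nat.floor_le (by positivity)
      have h8 : ((yy δ X : ℕ) : ℝ) < p := by linarith
      exact_mod_cast h8

end Pool.Agent.Lib.DZ
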