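import Mathlib

/-!
# DZ-Blk: disjoint blocks with sums divisible by `L`

PROOF. Index set `Fin (r * L)`; the block `t` is `{t L, ..., t L + L - 1}`. Among the `L + 1` partial sums
`s_i = ∑_{u < i} x (t L + u)`, `0 ≤ i ≤ L`, two are congruent mod `L` (pigeonhole), `i < i'`; `B t := {t L + u : i ≤ u < i'}` is
nonempty and has sum `s_{i'} - s_i ≡ 0`.
-/

set_option autoImplicit false

open Finset

namespace Pool.Agent.Lib.DZ

private theorem blk_one (L : ℕ) (hL : 1 ≤ L) (X : ℕ → ℕ) (m : ℕ) :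
    ∃ i i' : ℕ, i < i' ∧ i' ≤ L ∧ L ∣ ∑ u ∈ Ico (m + i) (m + i'), X u := by
  have hpig : ∃ a b : Fin (L + 1), a ≠ b ∧
      (⟨(∑ u ∈ range (m + a), X u) % L, Nat.mod_lt _ hL⟩ : Fin L) =
        ⟨(∑ u ∈ range (m + b), X u) % L, Nat.mod_lt _ hL⟩ :=
    Fintype.exists_ne_map_eq_of_card_lt
      (fun a : Fin (L + 1) => (⟨(∑ u ∈ range (m + a), X u) % L, Nat.mod_lt _ hL⟩ : Fin L))
      (by simp)
  obtain ⟨a, b, hab, he⟩ := hpig
  have he' : (∑ u ∈ range (m + a), X u) % L = (∑ u ∈ range (m + b), X u) % L := by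
    have := congrArg Fin.val he
    exact this
  have key : ∀ a b : ℕ, a < b → (∑ u ∈ range (m + a), X u) % L = (∑ u ∈ range (m + b), X u) % L →
      L ∣ ∑ u ∈ Ico (m + a) (m + b), X u := by
    intro a b h h1
    have h2 : ∑ u ∈ range (m + a), X u + ∑ u ∈ Ico (m + a) (m + b), X u =
        ∑ u ∈ range (m + b), X u := by
      rw [range_eq_Ico, range_eq_Ico]
      exact sum_Ico_consecutive X (Nat.zero_le _) (by omega)
    have h3 : L ∣ (∑ u ∈ range (m + b), X u) - ∑ u ∈ range (m + a), X u :=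
      (Nat.modEq_iff_dvd' (by omega)).1 h1
    have h4 : (∑ u ∈ range (m + b), X u) - ∑ u ∈ range (m + a), X u =
        ∑ u ∈ Ico (m + a) (m + b), X u := by omega
    rwa [h4] at h3
  have hne : (a : ℕ) ≠ b := fun h => hab (Fin.ext h)
  rcases lt_or_gt_of_ne hne with h | h
  · exact ⟨a, b, h, Nat.lt_succ_iff.1 b.2, key a b h he'⟩
  · exact ⟨b, a, h, Nat.lt_succ_iff.1 a.2, key b a h he'.symm⟩

theorem blocks (L r : ℕ) (hL : 1 ≤ L) (x : Fin (r * L) → ℕ) :
    ∃ B : Fin r → Finset (Fin (r * L)), (∀ t, (B t).Nonempty) ∧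
      (∀ t t', t ≠ t' → Disjoint (B t) (B t')) ∧ ∀ t, L ∣ ∑ i ∈ B t, x i := by
  classical
  set X : ℕ → ℕ := fun n => if h : n < r * L then x ⟨n, h⟩ else 0 with hX
  choose i i' h1 h2 h3 using fun t : Fin r => blk_one L hL X (t * L)
  have hb : ∀ t : Fin r, (t : ℕ) * L + L ≤ r * L := by
    intro t
    have := t.2
    calc (t : ℕ) * L + L = (t + 1) * L := by ring
      _ ≤ r * L := Nat.mul_le_mul_right _ this
  refine ⟨fun t => univ.filter fun j => t * L + i t ≤ (j : ℕ) ∧ (j : ℕ) < t * L + i' t, ?_, ?_, ?_⟩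
  · intro t
    have h4 := h1 t
    have h5 := h2 t
    have h6 := hb t
    refine ⟨⟨t * L + i t, by omega⟩, ?_⟩
    rw [mem_filter]
    exact ⟨mem_univ _, le_refl _, by simpa using h4⟩
  · intro t t' hne
    rw [Finset.disjoint_left]
    intro j hj hj'
    rw [mem_filter] at hj hj'
    have h5 := h2 t
    have h6 := h2 t'
    have hne' : (t : ℕ) ≠ t' := fun h => hne (Fin.ext h)
    obtain ⟨-, ha, hb1⟩ := hj
    obtain ⟨-, ha', hb'⟩ := hj'
    rcases lt_or_gt_of_ne hne' with h | h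
    · have h7 : ((t : ℕ) + 1) * L ≤ t' * L := Nat.mul_le_mul_right _ h
      have h8 : ((t : ℕ) + 1) * L = t * L + L := by ring
      omega
    · have h7 : ((t' : ℕ) + 1) * L ≤ t * L := Nat.mul_le_mul_right _ h
      have h8 : ((t' : ℕ) + 1) * L = t' * L + L := by ring
      omega
  · intro t
    have h4 := h3 t
    have h5 : ∑ j ∈ univ.filter (fun j : Fin (r * L) => t * L + i t ≤ (j : ℕ) ∧ (j : ℕ) < t * L + i' t), x j =
        ∑ u ∈ Ico (t * L + i t) (t * L + i' t), X u := by
      rw [sum_filter]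
      have h6 : ∀ j : Fin (r * L), (if t * L + i t ≤ (j : ℕ) ∧ (j : ℕ) < t * L + i' t then x j else 0) =
          (fun n : ℕ => if t * L + i t ≤ n ∧ n < t * L + i' t then X n else 0) j := by
        intro j
        have : X j = x j := by
          simp only [hX]
          rw [dif_pos j.2]
        simp only [this]
      rw [sum_congr rfl fun j _ => h6 j, Fin.sum_univ_eq_sum_range
        (fun n : ℕ => if t * L + i t ≤ n ∧ n < t * L + i' t then X n else 0), ← sum_filter]
      congr 1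
      ext n
      rw [mem_filter, mem_range, mem_Ico]
      have h7 := h2 t
      have h8 := hb t
      constructor
      · rintro ⟨-, h⟩
        exact h
      · intro h
        exact ⟨by omega, h⟩
    rw [h5]
    exact h4

end Pool.Agent.Lib.DZ
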