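import Pool.Agent.Lib.MP_092512_nt.DZ.Defs
import Pool.Agent.Lib.Sieve.Mertens
import Pool.Agent.Lib.Sieve.Mertens3
import Mathlib.Analysis.PSeries

/-!
# DZ-Cls: the sum of `1/m` over the rough `m ≤ X^ε` with `Ω(m) ≡ b` mod `q` is at least `c/δ`

PROOF. `Y := X^(ε/(8q))`, `𝒫` := the primes in `(y, Y]`, `y := yy δ X`. For `S ⊆ 𝒫` put `w(S) := ∏_{p∈S} 1/p`; the numbers
`m = ∏ S` are squarefree, different `S` give different `m`, `Ω(m) = |S|`.
`T := ∑_S w(S) = ∏_{p ∈ 𝒫} (1 + 1/p)`.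
(1) `∑_S w(S) log ∏S = ∑_{p∈𝒫} (log p/p) ∑_{S ∌ p} w(S) ≤ T ∑_{p ≤ Y} log p/p ≤ T (log Y + C)` (Mertens, library
`Sieve/Mertens.lean`). So the `S` with `∏ S > X^ε` have total weight `≤ T (log Y + C)/(ε log X) ≤ T/(4q)` for large `X`.
(2) For `ζ = exp(2πi t/q)`, `1 ≤ t < q`: `|∑_S ζ^{|S|} w(S)| = ∏ |1 + ζ/p|`, and `|1 + ζ/p|² = 1 + 2 cos θ/p + 1/p² =
(1+1/p)² - 2(1 - cos θ)/p ≤ (1+1/p)² (1 - (8/9)(1 - cos θ)/p)` (`(1+1/p)² ≤ 9/4`), so `|1+ζ/p| ≤ (1+1/p) exp(-(4/9)(1 - cos θ)/p)` and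
`|∑_S ζ^{|S|} w(S)| ≤ T exp(-c_q ∑_{p∈𝒫} 1/p)`, `c_q = (4/9)(1 - cos(2π/q)) > 0`. By Mertens `∑_{p∈𝒫} 1/p ≥ log(log Y/log y) - 1 =
log(ε/(8qδ)) - O(1)`, which is as large as we like if `δ` is small: `≤ T/(4q)`. Hence for every `b`:
`∑_{|S| ≡ b (q)} w(S) ≥ T/q - T/(4q)`  (orthogonality: `1[|S| ≡ b] = (1/q) ∑_t ζ_t^{|S| - b}`; for `q = 1` there is nothing to do).
(3) The `S = ∅` (`m = 1`) has weight `1 ≤ T/(8q)` for small `δ`. So the `S ≠ ∅` with `∏ S ≤ X^ε`, `|S| ≡ b` have weight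
`≥ T (3/(4q) - 1/(4q) - 1/(8q)) ≥ T/(4q)`.
(4) `T = ∏_{y<p≤Y}(1+1/p) ≥ c log Y/log y ≥ c (ε/(8q)) / δ` (Mertens; `log y ≤ δ log X`).
-/

set_option autoImplicit false

open Finset

namespace Pool.Agent.Lib.DZ

open Pool.Agent.Lib.MT Pool.Agent.Lib.MTR

lemma cls_prod_ge (P : Finset ℕ) (a : ℕ → ℝ) (h0 : ∀ p ∈ P, 0 ≤ a p) (h1 : ∀ p ∈ P, a p ≤ 1) :
    1 - ∑ p ∈ P, a p ≤ ∏ p ∈ P, (1 - a p) := by
  classical
  induction P using Finset.induction_on with
  | empty => simp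
  | insert x s hx ih =>
    rw [Finset.sum_insert hx, Finset.prod_insert hx]
    have ih' := ih (fun p hp => h0 p (mem_insert_of_mem hp)) (fun p hp => h1 p (mem_insert_of_mem hp))
    have hx0 := h0 x (mem_insert_self _ _)
    have hx1 := h1 x (mem_insert_self _ _)
    have hs0 : 0 ≤ ∑ p ∈ s, a p := Finset.sum_nonneg fun p hp => h0 p (mem_insert_of_mem hp)
    have h2 : (1 - a x) * (1 - ∑ p ∈ s, a p) ≤ (1 - a x) * ∏ p ∈ s, (1 - a p) :=
      mul_le_mul_of_nonneg_left ih' (by linarith)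
    nlinarith [mul_nonneg hx0 hs0]

lemma cls_mem_PP {w R p : ℕ} : p ∈ PP w R ↔ p ≤ R ∧ p.Prime ∧ w < p := by
  unfold PP
  rw [Finset.mem_filter, Finset.mem_range, Nat.lt_succ_iff]

lemma cls_T : ∃ z₀ : ℕ, 2 ≤ z₀ ∧ ∀ y Y : ℕ, z₀ ≤ y → y ≤ Y →
    1 / 4 * (Real.log Y / Real.log y) ≤ ∏ p ∈ PP y Y, (1 + 1 / (p : ℝ)) := by
  set G : ℝ := Real.exp (-Real.eulerMascheroniConstant) with hG
  have hG0 : 0 < G := Real.exp_pos _
  have hlim := Sieve.Mertens3.mertens_three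
  rw [← hG] at hlim
  have h1 := (hlim.eventually (lt_mem_nhds (show 4 / 5 * G < G by linarith))).and
    (hlim.eventually (gt_mem_nhds (show G < 6 / 5 * G by linarith)))
  obtain ⟨z₁, hz₁⟩ := Filter.eventually_atTop.mp h1
  refine ⟨max z₁ 2, le_max_right _ _, ?_⟩
  intro y Y hy hyY
  set V : ℕ → ℝ := fun z => ∏ p ∈ (range (z + 1)).filter Nat.Prime, (1 - 1 / (p : ℝ)) with hV
  have hy1 : z₁ ≤ y := le_trans (le_max_left _ _) hy
  have hy2 : 2 ≤ y := le_trans (le_max_right _ _) hy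
  have hyR : (2 : ℝ) ≤ y := by exact_mod_cast hy2
  have hYR : (y : ℝ) ≤ Y := by exact_mod_cast hyY
  have hly : 0 < Real.log y := Real.log_pos (by linarith)
  have hlY : 0 < Real.log Y := Real.log_pos (by linarith)
  have ha := hz₁ y hy1
  have hb := hz₁ Y (le_trans hy1 hyY)
  have hfac : ∀ p : ℕ, p.Prime → 0 < 1 - 1 / (p : ℝ) := by
    intro p hp
    have h2 : (1 : ℝ) / p ≤ 1 / 2 := by
      apply one_div_le_one_div_of_le (by norm_num)
      exact_mod_cast hp.two_le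
    linarith
  have hVy : V Y = V y * ∏ p ∈ PP y Y, (1 - 1 / (p : ℝ)) := by
    have hd : Disjoint ((range (y + 1)).filter Nat.Prime) (PP y Y) := by
      rw [Finset.disjoint_left]
      intro p hp hp'
      rw [Finset.mem_filter, Finset.mem_range] at hp
      rw [cls_mem_PP] at hp'
      omega
    have hu : (range (Y + 1)).filter Nat.Prime = ((range (y + 1)).filter Nat.Prime) ∪ (PP y Y) := by
      ext p
      rw [Finset.mem_union, Finset.mem_filter, Finset.mem_filter, cls_mem_PP, Finset.mem_range,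
        Finset.mem_range]
      constructor
      · rintro ⟨h1, h2⟩
        by_cases h3 : p < y + 1
        · exact Or.inl ⟨h3, h2⟩
        · exact Or.inr ⟨by omega, h2, by omega⟩
      · rintro (⟨h1, h2⟩ | ⟨h1, h2, h3⟩)
        · exact ⟨by omega, h2⟩
        · exact ⟨by omega, h2⟩
    rw [hV]
    simp only
    rw [hu, Finset.prod_union hd]
  set Q : ℝ := ∏ p ∈ PP y Y, (1 - 1 / (p : ℝ)) with hQ
  set T : ℝ := ∏ p ∈ PP y Y, (1 + 1 / (p : ℝ)) with hT
  have hQ0 : 0 < Q := Finset.prod_pos fun p hp => hfac p (cls_mem_PP.mp hp).2.1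
  have hT0 : 0 < T := Finset.prod_pos fun p hp => by positivity
  have hVy0 : 0 < V y := Finset.prod_pos fun p hp => hfac p (Finset.mem_filter.mp hp).2
  -- Q ≤ (3/2) log y / log Y
  have hQle : Q * Real.log Y ≤ 3 / 2 * Real.log y := by
    have h3 : 4 / 5 * G < Real.log y * V y := ha.1
    have h4 : Real.log Y * V Y < 6 / 5 * G := hb.2
    rw [hVy] at h4
    have h5 : (Real.log Y * Q) * V y ≤ (3 / 2 * Real.log y) * V y := by nlinarith
    have h6 := le_of_mul_le_mul_right h5 hVy0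
    linarith
  -- Q * T ≥ 1/2
  have hQT : 1 / 2 ≤ Q * T := by
    have h3 : Q * T = ∏ p ∈ PP y Y, (1 - ((p : ℝ) ^ 2)⁻¹) := by
      rw [hQ, hT, ← Finset.prod_mul_distrib]
      refine Finset.prod_congr rfl fun p hp => ?_
      have hp0 : (p : ℝ) ≠ 0 := by
        have := (cls_mem_PP.mp hp).2.1.pos
        positivity
      field_simp
      ring
    rw [h3]
    have h4 := cls_prod_ge (PP y Y) (fun p => ((p : ℝ) ^ 2)⁻¹) (fun p _ => by positivity)
      (fun p hp => by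
        have h5 : 1 ≤ p := (cls_mem_PP.mp hp).2.1.pos
        have h6 : (1 : ℝ) ≤ p := by exact_mod_cast h5
        exact inv_le_one_of_one_le₀ (by nlinarith))
    have h5 : ∑ p ∈ PP y Y, ((p : ℝ) ^ 2)⁻¹ ≤ ∑ i ∈ Ioc y Y, ((i : ℝ) ^ 2)⁻¹ := by
      refine Finset.sum_le_sum_of_subset_of_nonneg ?_ (fun i _ _ => by positivity)
      intro p hp
      rw [cls_mem_PP] at hp
      exact Finset.mem_Ioc.mpr ⟨hp.2.2, hp.1⟩
    have h6 : (∑ i ∈ Ioc y Y, ((i : ℝ) ^ 2)⁻¹) ≤ (y : ℝ)⁻¹ - (Y : ℝ)⁻¹ :=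
      sum_Ioc_inv_sq_le_sub (by omega) hyY
    have h7 : (0 : ℝ) ≤ (Y : ℝ)⁻¹ := by positivity
    have h8 : (y : ℝ)⁻¹ ≤ 1 / 2 := by
      rw [inv_le_comm₀ (by linarith) (by norm_num)]
      norm_num
      exact hy2
    linarith
  -- conclude
  have h9 : Real.log Y / Real.log y * Q ≤ 3 / 2 := by
    rw [div_mul_eq_mul_div, div_le_iff₀ hly]
    linarith
  have h10 : (Real.log Y / Real.log y) * (Q * T) ≤ 3 / 2 * T := by
    calc (Real.log Y / Real.log y) * (Q * T) = (Real.log Y / Real.log y * Q) * T := by ring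
      _ ≤ 3 / 2 * T := mul_le_mul_of_nonneg_right h9 hT0.le
  have h11 : 0 < Real.log Y / Real.log y := div_pos hlY hly
  nlinarith

lemma cls_fac (z : ℂ) (hz : ‖z‖ = 1) (p : ℕ) (hp : 2 ≤ p) :
    ‖1 + z * ((1 / (p : ℝ) : ℝ) : ℂ)‖ ≤ (1 + 1 / (p : ℝ)) * Real.exp (-(4 / 9 * (1 - z.re)) * (1 / (p : ℝ))) := by
  have hpR : (2 : ℝ) ≤ p := by exact_mod_cast hp
  set r : ℝ := 1 / (p : ℝ) with hr
  have hr0 : 0 < r := by positivity
  have hr2 : r ≤ 1 / 2 := one_div_le_one_div_of_le (by norm_num) hpR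
  have hre : z.re ≤ 1 := by
    have := Complex.re_le_norm z
    linarith
  have hns : z.re * z.re + z.im * z.im = 1 := by
    have h1 := Complex.normSq_eq_norm_sq z
    rw [hz, Complex.normSq_apply] at h1
    simpa using h1
  have hsq : ‖1 + z * (r : ℂ)‖ ^ 2 = (1 + r) ^ 2 - 2 * (1 - z.re) * r := by
    rw [← Complex.normSq_eq_norm_sq, Complex.normSq_apply]
    simp only [Complex.add_re, Complex.one_re, Complex.mul_re, Complex.ofReal_re, Complex.ofReal_im,
      Complex.add_im, Complex.one_im, Complex.mul_im]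
    nlinarith [hns]
  have h1 : (1 + r) ^ 2 - 2 * (1 - z.re) * r ≤ (1 + r) ^ 2 * (1 - 8 / 9 * (1 - z.re) * r) := by
    have h2 : (1 + r) ^ 2 ≤ 9 / 4 := by nlinarith
    have h3 : 0 ≤ (1 - z.re) * r := mul_nonneg (by linarith) hr0.le
    nlinarith [mul_le_mul_of_nonneg_right h2 h3]
  have h2 : 1 - 8 / 9 * (1 - z.re) * r ≤ Real.exp (-(8 / 9 * (1 - z.re) * r)) := by
    have := Real.add_one_le_exp (-(8 / 9 * (1 - z.re) * r))
    linarith
  have h3 : ‖1 + z * (r : ℂ)‖ ^ 2 ≤ ((1 + r) * Real.exp (-(4 / 9 * (1 - z.re)) * r)) ^ 2 := by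
    rw [hsq, mul_pow, ← Real.exp_nat_mul]
    refine h1.trans ?_
    refine mul_le_mul_of_nonneg_left ?_ (by positivity)
    refine h2.trans (le_of_eq ?_)
    congr 1
    push_cast
    ring
  exact le_of_sq_le_sq h3 (by positivity)

lemma cls_char (z : ℂ) (hz : ‖z‖ = 1) (P : Finset ℕ) (hP : ∀ p ∈ P, p.Prime) :
    ‖∏ p ∈ P, (1 + z * ((1 / (p : ℝ) : ℝ) : ℂ))‖ ≤ (∏ p ∈ P, (1 + 1 / (p : ℝ))) *
      Real.exp (-(4 / 9 * (1 - z.re)) * Real.log (∏ p ∈ P, (1 + 1 / (p : ℝ)))) := by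
  have hre : z.re ≤ 1 := by
    have := Complex.re_le_norm z
    linarith
  have hT0 : 0 < ∏ p ∈ P, (1 + 1 / (p : ℝ)) := Finset.prod_pos fun p _ => by positivity
  rw [norm_prod]
  calc ∏ p ∈ P, ‖1 + z * ((1 / (p : ℝ) : ℝ) : ℂ)‖
      ≤ ∏ p ∈ P, ((1 + 1 / (p : ℝ)) * Real.exp (-(4 / 9 * (1 - z.re)) * (1 / (p : ℝ)))) :=
        Finset.prod_le_prod (fun p _ => norm_nonneg _) (fun p hp => cls_fac z hz p (hP p hp).two_le)
    _ = (∏ p ∈ P, (1 + 1 / (p : ℝ))) * Real.exp (-(4 / 9 * (1 - z.re)) * ∑ p ∈ P, (1 / (p : ℝ))) := by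
        rw [Finset.prod_mul_distrib, ← Real.exp_sum, ← Finset.mul_sum]
    _ ≤ _ := by
        refine mul_le_mul_of_nonneg_left ?_ hT0.le
        apply Real.exp_le_exp.mpr
        have h1 : Real.log (∏ p ∈ P, (1 + 1 / (p : ℝ))) ≤ ∑ p ∈ P, (1 / (p : ℝ)) := by
          rw [Real.log_le_iff_le_exp hT0, Real.exp_sum]
          refine Finset.prod_le_prod (fun p _ => by positivity) (fun p _ => ?_)
          have := Real.add_one_le_exp (1 / (p : ℝ))
          linarith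
        have h2 : 0 ≤ 4 / 9 * (1 - z.re) := by linarith
        nlinarith [mul_le_mul_of_nonneg_left h1 h2]


/-- `∏_{p ∈ S} 1/p` -/
noncomputable def clsW (S : Finset ℕ) : ℝ := ∏ p ∈ S, (1 / (p : ℝ))

lemma clsW_nonneg (S : Finset ℕ) : 0 ≤ clsW S := Finset.prod_nonneg fun p _ => by positivity

lemma cls_kappa (q : ℕ) (ζ : ℂ) (hζ : IsPrimitiveRoot ζ q) (hn : ‖ζ‖ = 1) :
    ∃ κ : ℝ, 0 < κ ∧ ∀ t ∈ Ico 1 q, κ ≤ 1 - (ζ ^ t).re := by
  have hpos : ∀ t ∈ Ico 1 q, 0 < 1 - (ζ ^ t).re := by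
    intro t ht
    rw [Finset.mem_Ico] at ht
    have hne : ζ ^ t ≠ 1 := hζ.pow_ne_one_of_pos_of_lt (by omega) ht.2
    have hnt : ‖ζ ^ t‖ = 1 := by rw [norm_pow, hn, one_pow]
    by_contra hcon
    apply hne
    have h1 : (ζ ^ t).re ≤ 1 := by
      have := Complex.re_le_norm (ζ ^ t)
      linarith
    have h2 : (ζ ^ t).re = 1 := by linarith
    have h3 := Complex.normSq_eq_norm_sq (ζ ^ t)
    rw [hnt, Complex.normSq_apply, h2] at h3
    have h4 : (ζ ^ t).im = 0 := by nlinarith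
    exact Complex.ext (by rw [h2, Complex.one_re]) (by rw [h4, Complex.one_im])
  by_cases hne : (Ico 1 q).Nonempty
  · obtain ⟨t₀, ht₀, hmin⟩ := Finset.exists_min_image (Ico 1 q) (fun t => 1 - (ζ ^ t).re) hne
    exact ⟨_, hpos t₀ ht₀, hmin⟩
  · refine ⟨1, one_pos, fun t ht => absurd ⟨t, ht⟩ hne⟩

lemma cls_orth (q : ℕ) (ζ : ℂ) (hζ : IsPrimitiveRoot ζ q) (n : ℕ) :
    ∑ t ∈ range q, (ζ ^ t) ^ n = if q ∣ n then (q : ℂ) else 0 := by
  have h1 : ∑ t ∈ range q, (ζ ^ t) ^ n = ∑ t ∈ range q, (ζ ^ n) ^ t := by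
    refine Finset.sum_congr rfl fun t _ => ?_
    rw [← pow_mul, ← pow_mul, mul_comm]
  rw [h1]
  split_ifs with h
  · have h2 : ζ ^ n = 1 := (hζ.pow_eq_one_iff_dvd n).mpr h
    simp [h2]
  · have h2 : ζ ^ n ≠ 1 := fun h3 => h ((hζ.pow_eq_one_iff_dvd n).mp h3)
    have h3 := geom_sum_mul (ζ ^ n) q
    have h4 : (ζ ^ n) ^ q = 1 := by
      rw [← pow_mul, mul_comm, pow_mul, hζ.pow_eq_one, one_pow]
    rw [h4, sub_self] at h3
    rcases mul_eq_zero.mp h3 with h5 | h5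
    · exact h5
    · exact absurd (sub_eq_zero.mp h5) h2

open Classical in
/-- the class sums of the weights are nearly equal -/
lemma cls_class (q : ℕ) (hq : 1 ≤ q) : ∃ M : ℝ, 0 < M ∧ ∀ P : Finset ℕ, (∀ p ∈ P, p.Prime) →
    M ≤ ∏ p ∈ P, (1 + 1 / (p : ℝ)) → ∀ b : ℕ,
      3 / 4 * (∏ p ∈ P, (1 + 1 / (p : ℝ))) / q ≤
        ∑ S ∈ P.powerset.filter (fun S => S.card ≡ b [MOD q]), clsW S := by
  set ζ : ℂ := Complex.exp (2 * Real.pi * Complex.I / q) with hζd
  have hζ : IsPrimitiveRoot ζ q := Complex.isPrimitiveRoot_exp q (by omega)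
  have hn : ‖ζ‖ = 1 := hζ.norm'_eq_one (by omega)
  obtain ⟨κ, hκ, hκt⟩ := cls_kappa q ζ hζ hn
  have hqR : (0 : ℝ) < q := by exact_mod_cast hq
  refine ⟨Real.exp (Real.log (4 * q) / (4 / 9 * κ)), Real.exp_pos _, ?_⟩
  intro P hP hM b
  set T : ℝ := ∏ p ∈ P, (1 + 1 / (p : ℝ)) with hT
  have hT0 : 0 < T := Finset.prod_pos fun p _ => by positivity
  have hlogT : Real.log (4 * q) ≤ 4 / 9 * κ * Real.log T := by
    have h1 : Real.log (4 * q) / (4 / 9 * κ) ≤ Real.log T := by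
      rw [Real.le_log_iff_exp_le hT0]
      exact hM
    rw [div_le_iff₀ (by positivity)] at h1
    linarith
  set A : ℝ := ∑ S ∈ P.powerset.filter (fun S => S.card ≡ b [MOD q]), clsW S with hA
  -- the generating products
  have hgen : ∀ z : ℂ, ∑ S ∈ P.powerset, z ^ S.card * ((clsW S : ℝ) : ℂ) =
      ∏ p ∈ P, (1 + z * ((1 / (p : ℝ) : ℝ) : ℂ)) := by
    intro z
    rw [Finset.prod_one_add]
    refine Finset.sum_congr rfl fun S _ => ?_
    unfold clsW
    rw [Finset.prod_mul_distrib, Finset.prod_const, Complex.ofReal_prod]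
  have hid : ((q : ℂ)) * ((A : ℝ) : ℂ) = ∑ t ∈ range q, (ζ ^ t) ^ ((q - 1) * b) *
      ∏ p ∈ P, (1 + ζ ^ t * ((1 / (p : ℝ) : ℝ) : ℂ)) := by
    have h1 : ∀ t ∈ range q, (ζ ^ t) ^ ((q - 1) * b) *
        ∏ p ∈ P, (1 + ζ ^ t * ((1 / (p : ℝ) : ℝ) : ℂ)) =
        ∑ S ∈ P.powerset, (ζ ^ t) ^ (S.card + (q - 1) * b) * ((clsW S : ℝ) : ℂ) := by
      intro t _
      rw [← hgen, Finset.mul_sum]
      refine Finset.sum_congr rfl fun S _ => ?_
      rw [pow_add]
      ring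
    rw [Finset.sum_congr rfl h1, Finset.sum_comm]
    have h2 : ∀ S ∈ P.powerset, ∑ t ∈ range q, (ζ ^ t) ^ (S.card + (q - 1) * b) *
        ((clsW S : ℝ) : ℂ) = if S.card ≡ b [MOD q] then (q : ℂ) * ((clsW S : ℝ) : ℂ) else 0 := by
      intro S _
      rw [← Finset.sum_mul, cls_orth q ζ hζ]
      have hiff : q ∣ S.card + (q - 1) * b ↔ S.card ≡ b [MOD q] := by
        have h3 : b + (q - 1) * b = q * b := by
          obtain ⟨k, rfl⟩ := Nat.exists_eq_add_of_le hq
          rw [Nat.add_sub_cancel_left]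
          ring
        constructor
        · intro h
          have h4 : S.card + (q - 1) * b ≡ b + (q - 1) * b [MOD q] := by
            rw [h3]
            exact ((Nat.modEq_zero_iff_dvd.mpr h).trans
              (Nat.modEq_zero_iff_dvd.mpr (dvd_mul_right q b)).symm)
          exact Nat.ModEq.add_right_cancel' _ h4
        · intro h
          have h4 : S.card + (q - 1) * b ≡ b + (q - 1) * b [MOD q] := h.add_right _
          rw [h3] at h4
          exact Nat.modEq_zero_iff_dvd.mp (h4.trans (Nat.modEq_zero_iff_dvd.mpr (dvd_mul_right q b)))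
      by_cases h : S.card ≡ b [MOD q]
      · rw [if_pos (hiff.mpr h), if_pos h]
      · rw [if_neg (fun h' => h (hiff.mp h')), if_neg h, zero_mul]
    rw [Finset.sum_congr rfl h2, ← Finset.sum_filter, ← Finset.mul_sum, hA, Complex.ofReal_sum]
  -- separate the main term
  have hr : range q = insert 0 (Ico 1 q) := by
    ext t
    simp only [Finset.mem_range, Finset.mem_insert, Finset.mem_Ico]
    omega
  have h0 : (0 : ℕ) ∉ Ico 1 q := by simp
  rw [hr, Finset.sum_insert h0] at hid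
  have hmain : (ζ ^ 0) ^ ((q - 1) * b) * ∏ p ∈ P, (1 + ζ ^ 0 * ((1 / (p : ℝ) : ℝ) : ℂ)) = ((T : ℝ) : ℂ) := by
    rw [pow_zero, one_pow, one_mul, hT, Complex.ofReal_prod]
    refine Finset.prod_congr rfl fun p _ => ?_
    rw [one_mul, Complex.ofReal_add, Complex.ofReal_one]
  rw [hmain] at hid
  have herr : ‖((q : ℝ) * A - T : ℝ)‖ ≤ T / 4 := by
    have h1 : (((q : ℝ) * A - T : ℝ) : ℂ) = ∑ t ∈ Ico 1 q, (ζ ^ t) ^ ((q - 1) * b) *
      ∏ p ∈ P, (1 + ζ ^ t * ((1 / (p : ℝ) : ℝ) : ℂ)) := by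
      rw [Complex.ofReal_sub, Complex.ofReal_mul, Complex.ofReal_natCast, hid]
      ring
    rw [← Complex.norm_real, h1]
    refine (norm_sum_le _ _).trans ?_
    have h2 : ∀ t ∈ Ico 1 q, ‖(ζ ^ t) ^ ((q - 1) * b) *
        ∏ p ∈ P, (1 + ζ ^ t * ((1 / (p : ℝ) : ℝ) : ℂ))‖ ≤ T / (4 * q) := by
      intro t ht
      have hnt : ‖ζ ^ t‖ = 1 := by rw [norm_pow, hn, one_pow]
      rw [norm_mul, norm_pow, hnt, one_pow, one_mul]
      refine (cls_char (ζ ^ t) hnt P hP).trans ?_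
      rw [← hT, div_eq_mul_inv]
      refine mul_le_mul_of_nonneg_left ?_ hT0.le
      have h4q : (0 : ℝ) < 4 * q := by positivity
      have h3 : (4 * (q : ℝ))⁻¹ = Real.exp (-Real.log (4 * q)) := by
        rw [Real.exp_neg, Real.exp_log h4q]
      rw [h3]
      apply Real.exp_le_exp.mpr
      have h5 : 0 ≤ Real.log T := by
        by_contra hneg
        have h6 : 4 / 9 * κ * Real.log T < 0 := mul_neg_of_pos_of_neg (by positivity) (by linarith)
        have h7 : 0 ≤ Real.log (4 * q) := Real.log_nonneg (by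
          have : (1 : ℝ) ≤ q := by exact_mod_cast hq
          linarith)
        linarith
      have h6 := mul_le_mul_of_nonneg_right (hκt t ht) h5
      nlinarith
    refine (Finset.sum_le_sum h2).trans ?_
    rw [Finset.sum_const, Nat.card_Ico, nsmul_eq_mul]
    have h3 : (((q - 1 : ℕ) : ℝ)) ≤ q := by exact_mod_cast Nat.sub_le q 1
    calc (((q - 1 : ℕ) : ℝ)) * (T / (4 * q)) ≤ q * (T / (4 * q)) :=
          mul_le_mul_of_nonneg_right h3 (by positivity)
      _ = T / 4 := by field_simp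
  rw [Real.norm_eq_abs] at herr
  have h2 := (abs_le.mp herr).1
  rw [div_le_iff₀ hqR]
  linarith

open Classical in
/-- the large products have small weight -/
lemma cls_large (P : Finset ℕ) (hP : ∀ p ∈ P, p.Prime) (L : ℝ) (hL : 0 < L) :
    ∑ S ∈ P.powerset.filter (fun S => L < Real.log ((∏ p ∈ S, p : ℕ) : ℝ)), clsW S ≤
      (∏ p ∈ P, (1 + 1 / (p : ℝ))) * (∑ p ∈ P, Real.log p / p) / L := by
  set T : ℝ := ∏ p ∈ P, (1 + 1 / (p : ℝ)) with hT
  have hT0 : 0 < T := Finset.prod_pos fun p _ => by positivity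
  rw [le_div_iff₀ hL, Finset.sum_mul]
  have hlogprod : ∀ S ∈ P.powerset, Real.log ((∏ p ∈ S, p : ℕ) : ℝ) = ∑ p ∈ S, Real.log p := by
    intro S hS
    rw [Nat.cast_prod, Real.log_prod]
    intro p hp
    have := (hP p (Finset.mem_powerset.mp hS hp)).pos
    positivity
  have hlog0 : ∀ p ∈ P, 0 ≤ Real.log p := fun p hp =>
    Real.log_nonneg (by exact_mod_cast (hP p hp).one_lt.le)
  calc ∑ S ∈ P.powerset.filter (fun S => L < Real.log ((∏ p ∈ S, p : ℕ) : ℝ)), clsW S * L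
      ≤ ∑ S ∈ P.powerset.filter (fun S => L < Real.log ((∏ p ∈ S, p : ℕ) : ℝ)),
        clsW S * ∑ p ∈ S, Real.log p := by
        refine Finset.sum_le_sum fun S hS => ?_
        rw [Finset.mem_filter] at hS
        refine mul_le_mul_of_nonneg_left ?_ (clsW_nonneg S)
        rw [← hlogprod S hS.1]
        exact hS.2.le
    _ ≤ ∑ S ∈ P.powerset, clsW S * ∑ p ∈ S, Real.log p := by
        refine Finset.sum_le_sum_of_subset_of_nonneg (Finset.filter_subset _ _) ?_
        intro S hS _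
        exact mul_nonneg (clsW_nonneg S) (Finset.sum_nonneg fun p hp =>
          hlog0 p (Finset.mem_powerset.mp hS hp))
    _ = ∑ S ∈ P.powerset, ∑ p ∈ P, (if p ∈ S then clsW S * Real.log p else 0) := by
        refine Finset.sum_congr rfl fun S hS => ?_
        rw [Finset.mul_sum, ← Finset.sum_filter]
        congr 1
        ext p
        rw [Finset.mem_filter]
        exact ⟨fun h => ⟨Finset.mem_powerset.mp hS h, h⟩, fun h => h.2⟩
    _ = ∑ p ∈ P, ∑ S ∈ P.powerset, (if p ∈ S then clsW S * Real.log p else 0) := Finset.sum_comm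
    _ ≤ ∑ p ∈ P, T * (Real.log p / p) := by
        refine Finset.sum_le_sum fun p hp => ?_
        have hPe : insert p (P.erase p) = P := Finset.insert_erase hp
        have hpn : p ∉ P.erase p := Finset.notMem_erase p P
        have h1 : ∑ S ∈ P.powerset, (if p ∈ S then clsW S * Real.log p else 0) =
            (1 / (p : ℝ)) * (∏ x ∈ P.erase p, (1 + 1 / (x : ℝ))) * Real.log p := by
          conv_lhs => rw [← hPe]
          rw [Finset.sum_powerset_insert hpn]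
          have h2 : ∑ t ∈ (P.erase p).powerset, (if p ∈ t then clsW t * Real.log p else 0) = 0 := by
            refine Finset.sum_eq_zero fun t ht => ?_
            rw [if_neg (fun h => hpn (Finset.mem_powerset.mp ht h))]
          rw [h2, zero_add, Finset.prod_one_add, Finset.mul_sum, Finset.sum_mul]
          refine Finset.sum_congr rfl fun t ht => ?_
          rw [if_pos (Finset.mem_insert_self p t)]
          unfold clsW
          rw [Finset.prod_insert (fun h => hpn (Finset.mem_powerset.mp ht h))]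
        rw [h1]
        have h3 : ∏ x ∈ P.erase p, (1 + 1 / (x : ℝ)) ≤ T := by
          rw [hT, ← Finset.mul_prod_erase P (fun x => 1 + 1 / (x : ℝ)) hp]
          have h4 : 0 ≤ ∏ x ∈ P.erase p, (1 + 1 / (x : ℝ)) :=
            Finset.prod_nonneg fun x _ => by positivity
          have h5 : (0 : ℝ) ≤ 1 / p := by positivity
          nlinarith [mul_nonneg h5 h4]
        have h6 : (0 : ℝ) ≤ Real.log p / p := div_nonneg (hlog0 p hp) (by positivity)
        calc (1 / (p : ℝ)) * (∏ x ∈ P.erase p, (1 + 1 / (x : ℝ))) * Real.log p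
            = (∏ x ∈ P.erase p, (1 + 1 / (x : ℝ))) * (Real.log p / p) := by ring
          _ ≤ T * (Real.log p / p) := mul_le_mul_of_nonneg_right h3 h6
    _ = T * ∑ p ∈ P, Real.log p / p := by rw [Finset.mul_sum]

lemma cls_length (S : Finset ℕ) (hS : ∀ p ∈ S, p.Prime) :
    (∏ p ∈ S, p).primeFactorsList.length = S.card := by
  classical
  induction S using Finset.induction_on with
  | empty => simp
  | insert x s hx ih =>
    have ih' := ih (fun p hp => hS p (mem_insert_of_mem hp))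
    have hxp := hS x (mem_insert_self _ _)
    have hs0 : ∏ p ∈ s, p ≠ 0 := Finset.prod_ne_zero_iff.mpr fun p hp =>
      (hS p (mem_insert_of_mem hp)).ne_zero
    rw [Finset.prod_insert hx, Finset.card_insert_of_notMem hx,
      (Nat.perm_primeFactorsList_mul hxp.ne_zero hs0).length_eq, List.length_append, ih',
      Nat.primeFactorsList_prime hxp, List.length_singleton]
    omega


open Classical in
/-- the sum over the admissible `m` dominates the sum over the admissible sets -/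
lemma cls_sets (ε δ : ℝ) (hε4 : ε ≤ 1 / 4) (q b X Y : ℕ) (hX : 1 ≤ X) :
    ∑ S ∈ (PP (yy δ X) Y).powerset.filter (fun S => S.card ≡ b [MOD q] ∧ S.Nonempty ∧
      ((∏ p ∈ S, p : ℕ) : ℝ) ≤ (X : ℝ) ^ ε), clsW S ≤ ∑ m ∈ Icc 1 X, gg ε δ q b X m / m := by
  set 𝒢 := (PP (yy δ X) Y).powerset.filter (fun S => S.card ≡ b [MOD q] ∧ S.Nonempty ∧
      ((∏ p ∈ S, p : ℕ) : ℝ) ≤ (X : ℝ) ^ ε) with h𝒢
  have hXR : (1 : ℝ) ≤ X := by exact_mod_cast hX
  have hpr : ∀ S ∈ 𝒢, ∀ p ∈ S, p.Prime := by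
    intro S hS p hp
    rw [h𝒢, Finset.mem_filter, Finset.mem_powerset] at hS
    exact (cls_mem_PP.mp (hS.1 hp)).2.1
  have hgg0 : ∀ m, 0 ≤ gg ε δ q b X m := by
    intro m
    unfold gg
    split_ifs <;> norm_num
  have hgg : ∀ S ∈ 𝒢, gg ε δ q b X (∏ p ∈ S, p) = 1 := by
    intro S hS
    have hS' := hS
    rw [h𝒢, Finset.mem_filter, Finset.mem_powerset] at hS'
    obtain ⟨hSP, hcard, hne, hle⟩ := hS'
    unfold gg
    rw [if_pos]
    refine ⟨?_, hle, ?_, ?_⟩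
    · obtain ⟨p, hp⟩ := hne
      have h1 : p ∣ ∏ p ∈ S, p := Finset.dvd_prod_of_mem (fun p => p) hp
      have h2 : 0 < ∏ p ∈ S, p := Finset.prod_pos fun p hp => (hpr S hS p hp).pos
      exact lt_of_lt_of_le (hpr S hS p hp).one_lt (Nat.le_of_dvd h2 h1)
    · intro l hl hd
      obtain ⟨p, hp, hlp⟩ := (Prime.dvd_finsetProd_iff hl.prime _).mp hd
      have : l = p := (Nat.prime_dvd_prime_iff_eq hl (hpr S hS p hp)).mp hlp
      rw [this]
      exact (cls_mem_PP.mp (hSP hp)).2.2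
    · rw [cls_length S (hpr S hS)]
      exact hcard
  have hinj : Set.InjOn (fun S : Finset ℕ => ∏ p ∈ S, p) (𝒢 : Set (Finset ℕ)) := by
    intro S hS S' hS' he
    have h1 := Nat.primeFactors_prod (hpr S hS)
    have h2 := Nat.primeFactors_prod (hpr S' hS')
    simp only at he
    rw [← h1, ← h2, he]
  calc ∑ S ∈ 𝒢, clsW S = ∑ S ∈ 𝒢, gg ε δ q b X (∏ p ∈ S, p) / ((∏ p ∈ S, p : ℕ) : ℝ) := by
        refine Finset.sum_congr rfl fun S hS => ?_
        rw [hgg S hS]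
        unfold clsW
        rw [Nat.cast_prod, Finset.prod_div_distrib, Finset.prod_const_one]
    _ = ∑ m ∈ 𝒢.image (fun S => ∏ p ∈ S, p), gg ε δ q b X m / m := by
        rw [Finset.sum_image hinj]
    _ ≤ ∑ m ∈ Icc 1 X, gg ε δ q b X m / m := by
        refine Finset.sum_le_sum_of_subset_of_nonneg ?_ (fun m _ _ => div_nonneg (hgg0 m) (by positivity))
        intro m hm
        rw [Finset.mem_image] at hm
        obtain ⟨S, hS, rfl⟩ := hm
        have h2 : 0 < ∏ p ∈ S, p := Finset.prod_pos fun p hp => (hpr S hS p hp).pos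
        rw [Finset.mem_Icc]
        refine ⟨h2, ?_⟩
        rw [h𝒢, Finset.mem_filter] at hS
        have h3 : ((∏ p ∈ S, p : ℕ) : ℝ) ≤ (X : ℝ) := hS.2.2.2.trans (by
          calc (X : ℝ) ^ ε ≤ (X : ℝ) ^ (1 : ℝ) := Real.rpow_le_rpow_of_exponent_le hXR (by linarith)
            _ = X := Real.rpow_one _)
        exact_mod_cast h3

theorem cls (ε : ℝ) (hε : 0 < ε) (hε4 : ε ≤ 1 / 4) (q : ℕ) (hq : 1 ≤ q) : ∃ c : ℝ, 0 < c ∧ ∃ δ1 : ℝ, 0 < δ1 ∧
    ∀ δ : ℝ, 0 < δ → δ ≤ δ1 → ∃ X₀ : ℕ, ∀ X : ℕ, X₀ ≤ X → ∀ b : ℕ,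
      c / δ ≤ ∑ m ∈ Icc 1 X, gg ε δ q b X m / m := by
  classical
  obtain ⟨z₀, hz₀, hT⟩ := cls_T
  obtain ⟨M₁, hM₁, hclass⟩ := cls_class q hq
  have hqR : (1 : ℝ) ≤ q := by exact_mod_cast hq
  set e : ℝ := ε / (8 * q) with he
  have he0 : 0 < e := by positivity
  set M : ℝ := max (8 * q) M₁ with hM
  have hM0 : 0 < M := lt_of_lt_of_le hM₁ (le_max_right _ _)
  refine ⟨ε / (256 * q ^ 2), by positivity, min e (e / (8 * M)), by positivity, ?_⟩
  intro δ hδ hδ1
  have hδe : δ ≤ e := hδ1.trans (min_le_left _ _)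
  have hδM : δ ≤ e / (8 * M) := hδ1.trans (min_le_right _ _)
  have hev1 : ∀ᶠ X : ℕ in Filter.atTop, (z₀ : ℝ) ≤ (X : ℝ) ^ δ :=
    ((tendsto_rpow_atTop hδ).comp tendsto_natCast_atTop_atTop).eventually_ge_atTop _
  have hev2 : ∀ᶠ X : ℕ in Filter.atTop, max (8 * q * Real.log 4 / ε) (2 * Real.log 2 / e) ≤ Real.log X :=
    (Real.tendsto_log_atTop.comp tendsto_natCast_atTop_atTop).eventually_ge_atTop _
  obtain ⟨X₀, hX₀⟩ := Filter.eventually_atTop.mp
    ((hev1.and hev2).and (Filter.eventually_ge_atTop (1 : ℕ)))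
  refine ⟨X₀, ?_⟩
  intro X hX b
  obtain ⟨⟨hX1, hX2⟩, hX3⟩ := hX₀ X hX
  have hX2a : 8 * q * Real.log 4 / ε ≤ Real.log X := (le_max_left _ _).trans hX2
  have hX2b : 2 * Real.log 2 / e ≤ Real.log X := (le_max_right _ _).trans hX2
  have hXR : (1 : ℝ) ≤ X := by exact_mod_cast hX3
  have hX0 : (0 : ℝ) < X := by linarith
  have hlog4 : 0 < Real.log 4 := Real.log_pos (by norm_num)
  have hlogX : 0 < Real.log X := lt_of_lt_of_le (by positivity) hX2a
  refine le_trans ?_ (cls_sets ε δ hε4 q b X ⌊(X : ℝ) ^ e⌋₊ hX3)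
  set y : ℕ := yy δ X with hy
  set Y : ℕ := ⌊(X : ℝ) ^ e⌋₊ with hY
  have hyz : z₀ ≤ y := by
    rw [hy, yy]
    exact Nat.le_floor hX1
  have hyY : y ≤ Y := by
    rw [hy, yy, hY]
    exact Nat.floor_le_floor (Real.rpow_le_rpow_of_exponent_le hXR hδe)
  have hy2 : (2 : ℝ) ≤ y := by exact_mod_cast hz₀.trans hyz
  have hY2 : (2 : ℝ) ≤ Y := hy2.trans (by exact_mod_cast hyY)
  have hly : Real.log y ≤ δ * Real.log X := by
    have h1 : (y : ℝ) ≤ (X : ℝ) ^ δ := Nat.floor_le (by positivity)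
    have h2 := Real.log_le_log (by linarith) h1
    rwa [Real.log_rpow hX0] at h2
  have hly0 : 0 < Real.log y := Real.log_pos (by linarith)
  have hlYu : Real.log Y ≤ e * Real.log X := by
    have h1 : (Y : ℝ) ≤ (X : ℝ) ^ e := Nat.floor_le (by positivity)
    have h2 := Real.log_le_log (by linarith) h1
    rwa [Real.log_rpow hX0] at h2
  have hlYl : e / 2 * Real.log X ≤ Real.log Y := by
    have h1 : (X : ℝ) ^ e < Y + 1 := Nat.lt_floor_add_one _
    have h2 : (X : ℝ) ^ e ≤ 2 * Y := by linarith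
    have h3 := Real.log_le_log (by positivity) h2
    rw [Real.log_rpow hX0, Real.log_mul (by norm_num) (by linarith)] at h3
    rw [div_le_iff₀ he0] at hX2b
    linarith
  set P := PP y Y with hP
  have hPp : ∀ p ∈ P, p.Prime := fun p hp => (cls_mem_PP.mp hp).2.1
  set T : ℝ := ∏ p ∈ P, (1 + 1 / (p : ℝ)) with hTd
  have hTl : e / (8 * δ) ≤ T := by
    refine le_trans ?_ (hT y Y hyz hyY)
    have h1 : e / (2 * δ) ≤ Real.log Y / Real.log y := by
      rw [div_le_div_iff₀ (by positivity) hly0]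
      have h2 : e * Real.log y ≤ e * (δ * Real.log X) := mul_le_mul_of_nonneg_left hly he0.le
      have h3 : e / 2 * Real.log X * (2 * δ) ≤ Real.log Y * (2 * δ) :=
        mul_le_mul_of_nonneg_right hlYl (by positivity)
      linarith
    calc e / (8 * δ) = 1 / 4 * (e / (2 * δ)) := by
          field_simp
          ring
      _ ≤ _ := by linarith
  have hTM : M ≤ T := by
    refine le_trans ?_ hTl
    rw [le_div_iff₀ (by positivity)]
    rw [le_div_iff₀ (by positivity)] at hδM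
    linarith
  have hT0 : 0 < T := lt_of_lt_of_le hM0 hTM
  have hT8 : 8 * q ≤ T := (le_max_left _ _).trans hTM
  have hA := hclass P hPp ((le_max_right _ _).trans hTM) b
  rw [← hTd] at hA
  have hL : 0 < ε * Real.log X := by positivity
  have hB := cls_large P hPp (ε * Real.log X) hL
  rw [← hTd] at hB
  have hsum : ∑ p ∈ P, Real.log p / p ≤ Real.log Y + Real.log 4 := by
    refine le_trans (Finset.sum_le_sum_of_subset_of_nonneg ?_ ?_)
      (Sieve.sum_log_div_le Y (by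
        have : (1 : ℝ) ≤ Y := by linarith
        exact_mod_cast this))
    · intro p hp
      rw [hP, cls_mem_PP] at hp
      rw [Finset.mem_filter, Finset.mem_Icc]
      exact ⟨⟨hp.2.1.pos, hp.1⟩, hp.2.1⟩
    · intro p hp _
      rw [Finset.mem_filter, Finset.mem_Icc] at hp
      exact div_nonneg (Real.log_nonneg (by exact_mod_cast hp.1.1)) (by positivity)
  have hB2 : ∑ S ∈ P.powerset.filter (fun S => ε * Real.log X < Real.log ((∏ p ∈ S, p : ℕ) : ℝ)), clsW S ≤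
      T / (4 * q) := by
    refine hB.trans ?_
    rw [div_le_div_iff₀ hL (by positivity)]
    have h1 : ∑ p ∈ P, Real.log p / p ≤ e * Real.log X + Real.log 4 := by linarith
    have h2 : (∑ p ∈ P, Real.log p / p) * (4 * q) ≤ ε * Real.log X := by
      have h3 : (∑ p ∈ P, Real.log p / p) * (4 * q) ≤ (e * Real.log X + Real.log 4) * (4 * q) :=
        mul_le_mul_of_nonneg_right h1 (by positivity)
      have h4 : e * (8 * q) = ε := by
        rw [he]
        field_simp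
      have h5 : 8 * q * Real.log 4 ≤ Real.log X * ε := by
        rwa [div_le_iff₀ hε] at hX2a
      have h6 : (e * Real.log X + Real.log 4) * (4 * q) =
          1 / 2 * (e * (8 * q)) * Real.log X + 1 / 2 * (8 * q * Real.log 4) := by ring
      rw [h6, h4] at h3
      linarith
    calc T * (∑ p ∈ P, Real.log p / p) * (4 * q) = T * ((∑ p ∈ P, Real.log p / p) * (4 * q)) := by ring
      _ ≤ T * (ε * Real.log X) := mul_le_mul_of_nonneg_left h2 hT0.le
  -- the class sum splits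
  have hsplit : ∑ S ∈ P.powerset.filter (fun S => S.card ≡ b [MOD q]), clsW S ≤
      ∑ S ∈ P.powerset.filter (fun S => S.card ≡ b [MOD q] ∧ S.Nonempty ∧
        ((∏ p ∈ S, p : ℕ) : ℝ) ≤ (X : ℝ) ^ ε), clsW S +
      (1 + ∑ S ∈ P.powerset.filter (fun S => ε * Real.log X < Real.log ((∏ p ∈ S, p : ℕ) : ℝ)), clsW S) := by
    have hempty : (1 : ℝ) = ∑ S ∈ ({∅} : Finset (Finset ℕ)), clsW S := by
      rw [Finset.sum_singleton]
      unfold clsW
      rw [Finset.prod_empty]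
    rw [hempty]
    set G1 := P.powerset.filter (fun S => S.card ≡ b [MOD q] ∧ S.Nonempty ∧
        ((∏ p ∈ S, p : ℕ) : ℝ) ≤ (X : ℝ) ^ ε) with hG1
    set G2 := P.powerset.filter (fun S => ε * Real.log X < Real.log ((∏ p ∈ S, p : ℕ) : ℝ)) with hG2
    have hsub : P.powerset.filter (fun S => S.card ≡ b [MOD q]) ⊆ G1 ∪ ({∅} ∪ G2) := by
      intro S hS
      rw [Finset.mem_filter] at hS
      rw [Finset.mem_union, Finset.mem_union, Finset.mem_singleton, hG1, hG2, Finset.mem_filter,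
        Finset.mem_filter]
      by_cases hne : S.Nonempty
      · by_cases hle : ((∏ p ∈ S, p : ℕ) : ℝ) ≤ (X : ℝ) ^ ε
        · exact Or.inl ⟨hS.1, hS.2, hne, hle⟩
        · right; right
          refine ⟨hS.1, ?_⟩
          rw [not_le] at hle
          have h1 := Real.log_lt_log (by positivity) hle
          rwa [Real.log_rpow hX0] at h1
      · exact Or.inr (Or.inl (Finset.not_nonempty_iff_eq_empty.mp hne))
    calc ∑ S ∈ P.powerset.filter (fun S => S.card ≡ b [MOD q]), clsW S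
        ≤ ∑ S ∈ G1 ∪ ({∅} ∪ G2), clsW S :=
          Finset.sum_le_sum_of_subset_of_nonneg hsub fun S _ _ => clsW_nonneg S
      _ ≤ ∑ S ∈ G1, clsW S + ∑ S ∈ ({∅} ∪ G2), clsW S := by
          have h1 := Finset.sum_union_inter (s₁ := G1) (s₂ := {∅} ∪ G2) (f := clsW)
          have h2 : 0 ≤ ∑ S ∈ G1 ∩ ({∅} ∪ G2), clsW S := Finset.sum_nonneg fun S _ => clsW_nonneg S
          linarith
      _ ≤ ∑ S ∈ G1, clsW S + (∑ S ∈ ({∅} : Finset (Finset ℕ)), clsW S + ∑ S ∈ G2, clsW S) := by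
          have h1 := Finset.sum_union_inter (s₁ := ({∅} : Finset (Finset ℕ))) (s₂ := G2) (f := clsW)
          have h2 : 0 ≤ ∑ S ∈ ({∅} : Finset (Finset ℕ)) ∩ G2, clsW S :=
            Finset.sum_nonneg fun S _ => clsW_nonneg S
          linarith
  have hfin : T / (4 * q) ≤ ∑ S ∈ P.powerset.filter (fun S => S.card ≡ b [MOD q] ∧ S.Nonempty ∧
        ((∏ p ∈ S, p : ℕ) : ℝ) ≤ (X : ℝ) ^ ε), clsW S := by
    have h1 : (1 : ℝ) ≤ T / (8 * q) := by
      rw [le_div_iff₀ (by positivity)]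
      linarith
    have h2 : 3 / 4 * T / q = 6 * (T / (8 * q)) := by
      field_simp
      ring
    have h3 : T / (4 * q) = 2 * (T / (8 * q)) := by
      field_simp
      ring
    rw [h2] at hA
    rw [h3] at hB2 ⊢
    have h4 : 0 < T / (8 * q) := by positivity
    linarith
  refine le_trans ?_ hfin
  have h1 : ε / (256 * q ^ 2) / δ = e / (8 * δ) / (4 * q) := by
    rw [he]
    field_simp
    ring
  rw [h1]
  exact div_le_div_of_nonneg_right hTl (by positivity)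

end Pool.Agent.Lib.DZ
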