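import Pool.Agent.Lib.MP_092512_nt.DZ.Defs
import Pool.Agent.Lib.MP_092512_nt.P3.B4

/-!
# DZ-Low: lower bound for the number of `n` in `RR`, weighted by `FB g` at `n + j₀`

`F := BV.FB g (fun _ => 2 * X)`: `F x = ∑_{x = m p} g(m) log p`. `L := LL k`, `Ω' p := {c < p : c ≠ 0, ∃ j ∈ J, p ∣ c + (shift)}`
are the NONZERO classes `c` mod `p` with `c ≡ j₀ - j` for some `j ∈ J`: `|Ω' p| = |OJ J p| - 1` (translation of `OJ J p` by
`j₀` maps the class `-j₀` to `0`).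

PROOF. Let `s` be the number of `MTR.fl k`, `δ1 := 1/(16 s + 16)`, `0 < δ ≤ δ1`, `y := yy δ X`. Let `D, cn` be from
`fl k` for `Q := QQ k y`.
(1) If `X < x ≤ 2X`, `x ≡ 1` mod `L`, `F x ≠ 0` and `x % p ∉ Ω' p` for all `p ∈ Q`, then `n := x - j₀` (`≥ 1` as `j₀ ≤ X`)
is in `RR k y X J`: `n ≡ 1` mod `L` as `L ∣ j₀`; if `p ∣ n + j`, `p ∈ Q`, then `x ≡ j₀ - j` mod `p`; this class is either `0`,
impossible since `F x ≠ 0` implies that all prime factors of `x` are `> y` (`x = m l`, `g m ≠ 0`, `l` prime,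
`l = x/m ≥ X^(1-ε) > y`), or in `Ω' p`.
So the sum on the right is `≥ ∑_{X<x≤2X, x≡1 (L)} F x · 1[x % p ∉ Ω' p ∀ p∈Q] ≥ ∑_{X < x ≤ 2X, x ≡ 1 (L)} F x · Lm D cn Ω' x`
(`F ≥ 0`).
(2) Expand: `= ∑_{d ∈ D} cn d ∑_{r} ∑_{X<x≤2X, x ≡ r (L Π d)} F x`, `r` over the `∏_{p ∈ d} |Ω' p|` classes given by the
Chinese remainder theorem from `1` mod `L` and `c_p ∈ Ω' p` mod `p`; they are coprime to `M := L ∏ d`. By definition of
`BV.EE`: `∑_{1≤x≤Y, x≡r (M)} F x = (1/φ(M)) ∑_{x ≤ Y, (x,M)=1} F x + EE F Y M r` for `Y = 2X` and `Y = X`; every `x` with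
`F x ≠ 0`, `x > X`... for `x ≤ X` small primes could occur, so use the SAME `g` and note: `F x ≠ 0` implies that the prime factors
of `m` are `> y`; the prime `l` may be small only if `x = m l` is small. To avoid this take `F' := FB g b'` on both ranges
as it is; the difference of the coprime sums over `(X, 2X]` only involves `x > X`, where `l ≥ X/m ≥ X^(1-ε) > y`, so all
these `x` are coprime to `M` and the main term is `(1/φ(M)) ∑_{X<x≤2X} F x`; `φ(M) = φ(L) ∏_{p∈d} (p-1)`.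
Main term: `(SF/φ(L)) Gm D cn (d2 Ω') ≥ (SF/φ(L)) (1/2) ∏_{p∈Q} (1 - d2 Ω' p)`, `SF ≥ 0`, (`d2 Ω' p ≤ (k-1)/(p-1) ≤ 2k/p`).
(3) Error: `∑_d |cn d| ∑_r (|EE F (2X) M r| + |EE F X M r|) ≤ (2 + 2 log y) ∑_{M ≤ L y^s} k^{ω(M)} max_r (...)`
(for each modulus `M` choose `a M` coprime to `M` that maximizes `|EE F Y M (a M)|` over the coprime residues, compare
`MT/LayF.lean`, `layF_worst`; the number of `r` is `≤ k^{|d|} ≤ k^{ω(M)}`; different `d` give different `M`), and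
`BV.bvb (A + 3) k (ε := 1/4) (δ := δ/2)` for `Y = 2X` and `Y = X` (`L y^s ≤ X^(1/4)`; `g m ≠ 0` implies
`Y^(δ/2) ≤ X^δ ≤ y + 1 ≤ m ≤ X^ε ≤ Y^(1 - δ/2)`) bounds it by `(2+2 log y) · 2 · 2X/(log X)^(A+3) ≤ X/(log X)^A`.
-/

set_option autoImplicit false

open Finset

namespace Pool.Agent.Lib.DZ

open Pool.Agent.Lib.MT Pool.Agent.Lib.MTR

/-! ### the worst reduced class -/

private theorem low_mod (F : ℕ → ℝ) (Y q c : ℕ) : BV.EE F Y q c = BV.EE F Y q (c % q) := by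
  unfold BV.EE
  have h1 : (Icc 1 Y).filter (fun n => n ≡ c [MOD q]) =
      (Icc 1 Y).filter (fun n => n ≡ c % q [MOD q]) := by
    refine filter_congr (fun n _ => ?_)
    have h2 : c % q ≡ c [MOD q] := Nat.mod_modEq c q
    exact ⟨fun h => h.trans h2.symm, fun h => h.trans h2⟩
  rw [h1]

private theorem low_worst (F : ℕ → ℝ) (Y q : ℕ) : ∃ l : ℕ, 1 ≤ q →
    (l.Coprime q ∧ ∀ c : ℕ, c.Coprime q → |BV.EE F Y q c| ≤ |BV.EE F Y q l|) := by
  by_cases hq : 1 ≤ q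
  · have hne : ((range q).filter (fun c => c.Coprime q)).Nonempty := by
      refine ⟨1 % q, ?_⟩
      rw [mem_filter, mem_range]
      refine ⟨Nat.mod_lt _ hq, ?_⟩
      have : Nat.Coprime 1 q := Nat.coprime_one_left q
      rw [Nat.Coprime, ← Nat.gcd_rec, Nat.gcd_comm]
      exact this
    obtain ⟨l, hl, hmax⟩ := exists_max_image _ (fun c => |BV.EE F Y q c|) hne
    refine ⟨l, fun _ => ⟨(mem_filter.mp hl).2, fun c hc => ?_⟩⟩
    rw [low_mod F Y q c]
    refine hmax (c % q) ?_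
    rw [mem_filter, mem_range]
    refine ⟨Nat.mod_lt _ hq, ?_⟩
    rw [Nat.Coprime, ← Nat.gcd_rec, Nat.gcd_comm]
    exact hc
  · exact ⟨0, fun h => absurd h hq⟩

private theorem low_diff (f : ℕ → ℝ) (A B : ℕ) (hAB : A ≤ B) :
    ∑ n ∈ Ioc A B, f n = ∑ n ∈ Icc 1 B, f n - ∑ n ∈ Icc 1 A, f n := by
  have h1 : Icc 1 B = Icc 1 A ∪ Ioc A B := by
    ext n
    simp only [mem_union, mem_Icc, mem_Ioc]
    omega
  have h2 : Disjoint (Icc 1 A) (Ioc A B) := by
    rw [disjoint_left]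
    intro n hn hn'
    rw [mem_Icc] at hn
    rw [mem_Ioc] at hn'
    omega
  rw [h1, sum_union h2]
  ring

/-- one residue class -/
private theorem low_class (F : ℕ → ℝ) (X q c : ℕ) (hc : c < q)
    (hF : ∀ x ∈ Ioc X (2 * X), F x ≠ 0 → x.Coprime q) :
    ∑ n ∈ (Ioc X (2 * X)).filter (fun n => n % q = c), F n =
      (1 / (q.totient : ℝ)) * ∑ n ∈ Ioc X (2 * X), F n +
        (BV.EE F (2 * X) q c - BV.EE F X q c) := by
  have h0 : (Ioc X (2 * X)).filter (fun n => n % q = c) =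
      (Ioc X (2 * X)).filter (fun n => n ≡ c [MOD q]) := by
    refine filter_congr fun n _ => ?_
    unfold Nat.ModEq
    rw [Nat.mod_eq_of_lt hc]
  have h1 : ∑ n ∈ (Ioc X (2 * X)).filter (fun n => n ≡ c [MOD q]), F n =
      ∑ n ∈ (Icc 1 (2 * X)).filter (fun n => n ≡ c [MOD q]), F n -
        ∑ n ∈ (Icc 1 X).filter (fun n => n ≡ c [MOD q]), F n := by
    rw [sum_filter, sum_filter, sum_filter]
    exact low_diff _ X (2 * X) (by omega)
  have h2 : ∑ n ∈ Ioc X (2 * X), F n =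
      ∑ n ∈ (Icc 1 (2 * X)).filter (fun n => n.Coprime q), F n -
        ∑ n ∈ (Icc 1 X).filter (fun n => n.Coprime q), F n := by
    rw [sum_filter, sum_filter, ← low_diff _ X (2 * X) (by omega)]
    refine sum_congr rfl fun n hn => ?_
    by_cases hp : F n = 0
    · rw [hp, ite_self]
    · rw [if_pos (hF n hn hp)]
  rw [h0, h1, h2]
  unfold BV.EE
  ring

/-! ### the nonzero classes -/

/-- the nonzero classes `c` mod `p` with `c + j ≡ j₀` for some `j ∈ J` -/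
private def lowOm (J : Finset ℕ) (j₀ p : ℕ) : Finset ℕ :=
  (range p).filter (fun c => c ≠ 0 ∧ ∃ j ∈ J, c + j ≡ j₀ [MOD p])

private theorem low_lt {J : Finset ℕ} {j₀ p c : ℕ} (h : c ∈ lowOm J j₀ p) : c < p := by
  unfold lowOm at h
  rw [mem_filter, mem_range] at h
  exact h.1

private theorem low_card {J : Finset ℕ} {j₀ p : ℕ} (hp : 0 < p) (hj : j₀ ∈ J) :
    (lowOm J j₀ p).card + 1 = (OJ J p).card := by
  classical
  have h0 : 0 ∉ lowOm J j₀ p := by
    unfold lowOm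
    rw [mem_filter]
    exact fun h => h.2.1 rfl
  rw [← card_insert_of_notMem h0]
  symm
  refine card_bij (fun c _ => (c + j₀) % p) ?_ ?_ ?_
  · intro c hc
    unfold OJ at hc
    rw [mem_filter, mem_range] at hc
    obtain ⟨hcp, j, hjJ, hd⟩ := hc
    rw [mem_insert]
    by_cases h : (c + j₀) % p = 0
    · exact Or.inl h
    · refine Or.inr ?_
      unfold lowOm
      rw [mem_filter, mem_range]
      refine ⟨Nat.mod_lt _ hp, h, j, hjJ, ?_⟩
      have h1 : (c + j₀) % p + j ≡ (c + j₀) + j [MOD p] := (Nat.mod_modEq _ _).add_right j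
      have h2 : (c + j₀) + j = (c + j) + j₀ := by ring
      have h3 : (c + j) + j₀ ≡ 0 + j₀ [MOD p] :=
        ((Nat.modEq_zero_iff_dvd).2 hd).add_right j₀
      rw [h2] at h1
      rw [zero_add] at h3
      exact h1.trans h3
  · intro a ha b hb hab
    unfold OJ at ha hb
    rw [mem_filter, mem_range] at ha hb
    have h1 : a + j₀ ≡ b + j₀ [MOD p] := hab
    exact Nat.ModEq.eq_of_lt_of_lt (Nat.ModEq.add_right_cancel' j₀ h1) ha.1 hb.1
  · intro b hb
    have hb' : b < p ∧ ∃ j ∈ J, b + j ≡ j₀ [MOD p] := by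
      rw [mem_insert] at hb
      rcases hb with rfl | hb
      · exact ⟨hp, j₀, hj, by rw [zero_add]⟩
      · unfold lowOm at hb
        rw [mem_filter, mem_range] at hb
        exact ⟨hb.1, hb.2.2⟩
    obtain ⟨hbp, j, hjJ, hbj⟩ := hb'
    have hkey : (b + (p - 1) * j₀) % p + j₀ ≡ b [MOD p] := by
      have h1 : (b + (p - 1) * j₀) % p + j₀ ≡ (b + (p - 1) * j₀) + j₀ [MOD p] :=
        (Nat.mod_modEq _ _).add_right j₀
      have h2 : (b + (p - 1) * j₀) + j₀ = b + p * j₀ := by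
        obtain ⟨q, rfl⟩ := Nat.exists_eq_add_of_le (show 1 ≤ p from hp)
        rw [Nat.add_sub_cancel_left]
        ring
      rw [h2] at h1
      refine h1.trans ?_
      have h3 : b + p * j₀ ≡ b + 0 [MOD p] :=
        Nat.ModEq.add_left b ((Nat.modEq_zero_iff_dvd).2 (dvd_mul_right p j₀))
      rwa [add_zero] at h3
    refine ⟨(b + (p - 1) * j₀) % p, ?_, ?_⟩
    · unfold OJ
      rw [mem_filter, mem_range]
      refine ⟨Nat.mod_lt _ hp, j, hjJ, ?_⟩
      rw [← Nat.modEq_zero_iff_dvd]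
      have h4 : (b + (p - 1) * j₀) % p + j + j₀ ≡ 0 + j₀ [MOD p] := by
        have h5 : (b + (p - 1) * j₀) % p + j + j₀ = ((b + (p - 1) * j₀) % p + j₀) + j := by ring
        rw [h5, zero_add]
        exact (hkey.add_right j).trans hbj
      exact Nat.ModEq.add_right_cancel' j₀ h4
    · have h6 : ((b + (p - 1) * j₀) % p + j₀) % p = b % p := hkey
      rw [h6, Nat.mod_eq_of_lt hbp]

private theorem low_OJ_le (J : Finset ℕ) (p : ℕ) : (OJ J p).card ≤ J.card := by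
  classical
  refine card_le_card_of_injOn (fun c => if h : ∃ j ∈ J, p ∣ c + j then h.choose else 0) ?_ ?_
  · intro c hc
    rw [mem_coe] at hc ⊢
    unfold OJ at hc
    rw [mem_filter, mem_range] at hc
    simp only [dif_pos hc.2]
    exact hc.2.choose_spec.1
  · intro a ha b hb hab
    rw [mem_coe] at ha hb
    unfold OJ at ha hb
    rw [mem_filter, mem_range] at ha hb
    simp only [dif_pos ha.2, dif_pos hb.2] at hab
    have h1 := ha.2.choose_spec.2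
    have h2 := hb.2.choose_spec.2
    rw [← hab] at h2
    have h3 : a + ha.2.choose ≡ b + ha.2.choose [MOD p] :=
      ((Nat.modEq_zero_iff_dvd).2 h1).trans ((Nat.modEq_zero_iff_dvd).2 h2).symm
    exact Nat.ModEq.eq_of_lt_of_lt (Nat.ModEq.add_right_cancel' _ h3) ha.1 hb.1

/-! ### properties of `FB g` -/

private theorem low_FB_nonneg {g : ℕ → ℝ} (hg : ∀ m, 0 ≤ g m) (b : ℕ → ℕ) (x : ℕ) :
    0 ≤ BV.FB g b x := by
  unfold BV.FB
  exact sum_nonneg fun p _ => mul_nonneg (hg _) (Real.log_natCast_nonneg p)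

private theorem low_FB_prime {g : ℕ → ℝ} {b : ℕ → ℕ} {X x y : ℕ} (hx : X < x)
    (hgs : ∀ m, g m ≠ 0 → 1 < m ∧ y * m ≤ X ∧ ∀ l : ℕ, l.Prime → l ∣ m → y < l)
    (h : BV.FB g b x ≠ 0) {p : ℕ} (hp : p.Prime) (hpx : p ∣ x) : y < p := by
  unfold BV.FB at h
  obtain ⟨l, hl, hl0⟩ := exists_ne_zero_of_sum_ne_zero h
  rw [mem_filter, Nat.mem_primeFactors] at hl
  have hgl : g (x / l) ≠ 0 := fun h0 => hl0 (by rw [h0, zero_mul])
  obtain ⟨h1, h2, h3⟩ := hgs _ hgl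
  have hx2 : l * (x / l) = x := Nat.mul_div_cancel' hl.1.2.1
  have hyl : y < l := by
    by_contra hcon
    push Not at hcon
    have : l * (x / l) ≤ y * (x / l) := Nat.mul_le_mul_right _ hcon
    omega
  rw [← hx2] at hpx
  rcases (Nat.Prime.dvd_mul hp).1 hpx with h4 | h4
  · rw [(Nat.prime_dvd_prime_iff_eq hp hl.1.1).1 h4]
    exact hyl
  · exact h3 p hp h4

/-! ### the sieve identity -/

private theorem low_LL_pos (k : ℕ) : 0 < LL k := primorial_pos _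

private theorem low_LL_prime {k p : ℕ} (hp : p.Prime) (h : p ∣ LL k) : p ≤ 4 * k + 4 := by
  unfold LL primorial at h
  rw [hp.prime.dvd_finsetProd_iff] at h
  obtain ⟨q, hq, hpq⟩ := h
  rw [mem_filter, mem_range] at hq
  rw [(Nat.prime_dvd_prime_iff_eq hp hq.2).1 hpq]
  omega

private theorem low_mem_QQ {k y p : ℕ} (hp : p ∈ QQ k y) : p.Prime ∧ 4 * k + 4 < p ∧ p ≤ y := by
  unfold QQ PP at hp
  rw [mem_filter, mem_range] at hp
  exact ⟨hp.2.1, hp.2.2, by omega⟩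

private theorem low_tot (d : Finset ℕ) (hd : ∀ p ∈ d, p.Prime) :
    ((∏ p ∈ d, p).totient : ℝ) = ∏ p ∈ d, ((p : ℝ) - 1) := by
  classical
  induction d using Finset.induction_on with
  | empty => simp
  | insert p U hp ih =>
    have hpp := hd p (mem_insert_self p U)
    have hU : ∀ q ∈ U, q.Prime := fun q hq => hd q (mem_insert_of_mem hq)
    have hcop : Nat.Coprime p (∏ q ∈ U, q) := by
      refine Nat.Coprime.prod_right fun q hq => ?_
      rw [Nat.coprime_primes hpp (hU q hq)]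
      rintro rfl
      exact hp hq
    rw [prod_insert hp, prod_insert hp, Nat.totient_mul hcop, Nat.totient_prime hpp, Nat.cast_mul,
      ih hU, Nat.cast_sub hpp.one_le, Nat.cast_one]

/-- the sum over the classes of one `d` -/
private theorem low_one (F : ℕ → ℝ) (X k : ℕ) (Ω : ℕ → Finset ℕ)
    (d : Finset ℕ) (hd : ∀ p ∈ d, p.Prime ∧ 4 * k + 4 < p) (hΩ : ∀ p, ∀ c ∈ Ω p, c < p)
    (hΩ0 : ∀ p, 0 ∉ Ω p)
    (hF : ∀ x ∈ Ioc X (2 * X), F x ≠ 0 → x.Coprime ((∏ p ∈ d, p) * LL k))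
    (W1 W2 : ℝ)
    (hW1 : ∀ c : ℕ, c.Coprime ((∏ p ∈ d, p) * LL k) →
      |BV.EE F (2 * X) ((∏ p ∈ d, p) * LL k) c| ≤ W1)
    (hW2 : ∀ c : ℕ, c.Coprime ((∏ p ∈ d, p) * LL k) →
      |BV.EE F X ((∏ p ∈ d, p) * LL k) c| ≤ W2) :
    |∑ x ∈ (Ioc X (2 * X)).filter (fun x => x % LL k = 1 % LL k ∧ ∀ p ∈ d, x % p ∈ Ω p), F x -
      (∑ x ∈ Ioc X (2 * X), F x) / (LL k).totient * ∏ p ∈ d, d2 Ω p| ≤
      (∏ p ∈ d, ((Ω p).card : ℝ)) * (W1 + W2) := by
  classical
  have hL := low_LL_pos k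
  have hcopL : ∀ p ∈ d, Nat.Coprime p (LL k) := by
    intro p hp
    rw [(hd p hp).1.coprime_iff_not_dvd]
    intro h
    have := low_LL_prime (hd p hp).1 h
    have := (hd p hp).2
    omega
  obtain ⟨C, hC1, hC2, hC3⟩ := Pool.Agent.Lib.MP_092512_nt.P3.B.crt_classes d (fun p hp => (hd p hp).1) Ω
    (fun p _ => hΩ p) (LL k) (1 % LL k) hL (Nat.mod_lt _ hL) hcopL
  set M := (∏ p ∈ d, p) * LL k with hM
  have hD0 : 0 < ∏ p ∈ d, p := prod_pos fun p hp => (hd p hp).1.pos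
  have hM0 : 0 < M := Nat.mul_pos hD0 hL
  have hfil : (Ioc X (2 * X)).filter (fun x => x % LL k = 1 % LL k ∧ ∀ p ∈ d, x % p ∈ Ω p) =
      (Ioc X (2 * X)).filter (fun x => x % M ∈ C) := by
    refine filter_congr fun x _ => ?_
    rw [← hC3 x]
    exact and_comm
  have hdec : ∑ x ∈ (Ioc X (2 * X)).filter (fun x => x % M ∈ C), F x =
      ∑ r ∈ C, ∑ x ∈ (Ioc X (2 * X)).filter (fun x => x % M = r), F x := by
    rw [← sum_fiberwise_of_maps_to (s := (Ioc X (2 * X)).filter (fun x => x % M ∈ C)) (t := C)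
      (g := fun x => x % M) (fun x hx => (mem_filter.1 hx).2)]
    refine sum_congr rfl fun r hr => ?_
    rw [filter_filter]
    refine sum_congr (filter_congr fun x _ => ?_) fun _ _ => rfl
    constructor
    · exact fun h => h.2
    · exact fun h => ⟨by rw [h]; exact hr, h⟩
  have hrcop : ∀ r ∈ C, r.Coprime M := by
    intro r hr
    have hrM : r < M := mem_range.1 (hC1 hr)
    have h1 := (hC3 r).2 (by rw [Nat.mod_eq_of_lt hrM]; exact hr)
    refine Nat.Coprime.mul_right ?_ ?_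
    · refine Nat.Coprime.prod_right fun p hp => ?_
      rw [Nat.coprime_comm, (hd p hp).1.coprime_iff_not_dvd]
      intro h2
      have h3 := h1.1 p hp
      rw [Nat.mod_eq_zero_of_dvd h2] at h3
      exact hΩ0 p h3
    · have h4 : r ≡ 1 [MOD LL k] := h1.2
      rw [Nat.Coprime, h4.gcd_eq, Nat.gcd_one_left]
  have hcls : ∀ r ∈ C, ∑ x ∈ (Ioc X (2 * X)).filter (fun x => x % M = r), F x =
      (1 / (M.totient : ℝ)) * ∑ n ∈ Ioc X (2 * X), F n +
        (BV.EE F (2 * X) M r - BV.EE F X M r) := fun r hr =>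
    low_class F X M r (mem_range.1 (hC1 hr)) hF
  have htot : (M.totient : ℝ) = (LL k).totient * ∏ p ∈ d, ((p : ℝ) - 1) := by
    rw [hM, Nat.totient_mul (Nat.Coprime.prod_left hcopL), Nat.cast_mul,
      low_tot d (fun p hp => (hd p hp).1), mul_comm]
  rw [hfil, hdec, sum_congr rfl hcls, sum_add_distrib, sum_const, nsmul_eq_mul, hC2]
  have hmain : ((∏ p ∈ d, (Ω p).card : ℕ) : ℝ) *
      ((1 / (M.totient : ℝ)) * ∑ n ∈ Ioc X (2 * X), F n) =
      (∑ x ∈ Ioc X (2 * X), F x) / (LL k).totient * ∏ p ∈ d, d2 Ω p := by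
    unfold d2
    rw [prod_div_distrib, htot, Nat.cast_prod]
    generalize ∏ p ∈ d, ((Ω p).card : ℝ) = a
    generalize ∏ p ∈ d, ((p : ℝ) - 1) = b
    generalize ((LL k).totient : ℝ) = c
    generalize ∑ n ∈ Ioc X (2 * X), F n = e
    rw [one_div, mul_inv]
    ring
  rw [hmain, add_sub_cancel_left]
  have hsum : |∑ r ∈ C, (BV.EE F (2 * X) M r - BV.EE F X M r)| ≤ ∑ r ∈ C, (W1 + W2) := by
    refine (abs_sum_le_sum_abs _ _).trans (sum_le_sum fun r hr => ?_)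
    exact (abs_sub _ _).trans (add_le_add (hW1 r (hrcop r hr)) (hW2 r (hrcop r hr)))
  refine hsum.trans (le_of_eq ?_)
  rw [sum_const, nsmul_eq_mul, hC2, Nat.cast_prod]

/-- the moduli of different `d` are different -/
private theorem low_inj {k : ℕ} {D : Finset (Finset ℕ)} (hD : ∀ d ∈ D, ∀ p ∈ d, p.Prime) :
    Set.InjOn (fun d : Finset ℕ => (∏ p ∈ d, p) * LL k) (D : Set (Finset ℕ)) := by
  intro a ha b hb hab
  dsimp only at hab
  have h1 := Nat.eq_of_mul_eq_mul_right (low_LL_pos k) hab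
  have h2 := Nat.primeFactors_prod (hD a ha)
  have h3 := Nat.primeFactors_prod (hD b hb)
  rw [← h2, ← h3, h1]

/-- the sum of the errors over the family `D` -/
private theorem low_err {k Y : ℕ} (hk : 1 ≤ k) {D : Finset (Finset ℕ)}
    (hD : ∀ d ∈ D, ∀ p ∈ d, p.Prime) (hY : ∀ d ∈ D, ∏ p ∈ d, p ≤ Y) (W : ℕ → ℝ)
    (hW : ∀ q, 0 ≤ W q) :
    ∑ d ∈ D, (k : ℝ) ^ d.card * W ((∏ p ∈ d, p) * LL k) ≤
      ∑ q ∈ Icc 1 (Y * LL k), (k : ℝ) ^ q.primeFactors.card * W q := by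
  classical
  have hk1 : (1 : ℝ) ≤ k := by exact_mod_cast hk
  have hpos : ∀ d ∈ D, 0 < ∏ p ∈ d, p := fun d hd => prod_pos fun p hp => (hD d hd p hp).pos
  calc ∑ d ∈ D, (k : ℝ) ^ d.card * W ((∏ p ∈ d, p) * LL k)
      ≤ ∑ d ∈ D, (k : ℝ) ^ ((∏ p ∈ d, p) * LL k).primeFactors.card *
          W ((∏ p ∈ d, p) * LL k) := by
        refine sum_le_sum fun d hd => mul_le_mul_of_nonneg_right ?_ (hW _)
        refine pow_le_pow_right₀ hk1 (card_le_card fun p hp => ?_)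
        rw [Nat.mem_primeFactors]
        exact ⟨hD d hd p hp, (dvd_prod_of_mem _ hp).mul_right _,
          (Nat.mul_pos (hpos d hd) (low_LL_pos k)).ne'⟩
    _ = ∑ q ∈ D.image (fun d : Finset ℕ => (∏ p ∈ d, p) * LL k),
          (k : ℝ) ^ q.primeFactors.card * W q := by
        rw [sum_image (low_inj hD)]
    _ ≤ _ := by
        refine sum_le_sum_of_subset_of_nonneg ?_ ?_
        · intro q hq
          rw [mem_image] at hq
          obtain ⟨d, hd, rfl⟩ := hq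
          rw [mem_Icc]
          exact ⟨Nat.mul_pos (hpos d hd) (low_LL_pos k), Nat.mul_le_mul_right _ (hY d hd)⟩
        · intro q _ _
          exact mul_nonneg (by positivity) (hW q)

open Classical in
/-- the `x = n + j₀` -/
private theorem low_shift (k y X : ℕ) (J : Finset ℕ) (j₀ : ℕ) (hj₀X : j₀ ≤ X)
    (hLj : LL k ∣ j₀) (F : ℕ → ℝ) (hF0 : ∀ x, 0 ≤ F x)
    (hF : ∀ x ∈ Ioc X (2 * X), F x ≠ 0 → ∀ p : ℕ, p.Prime → p ∣ x → y < p)
    (G : ℕ → ℝ) (hG : ∀ x, G x ≤ if ∀ p ∈ QQ k y, x % p ∉ lowOm J j₀ p then (1 : ℝ) else 0) :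
    ∑ x ∈ (Ioc X (2 * X)).filter (fun x => x % LL k = 1 % LL k), F x * G x ≤
      ∑ n ∈ (RR k y X J).filter (fun n => X < n + j₀ ∧ n + j₀ ≤ 2 * X), F (n + j₀) := by
  set T := (Ioc X (2 * X)).filter (fun x => x % LL k = 1 % LL k ∧
    (∀ p ∈ QQ k y, x % p ∉ lowOm J j₀ p) ∧ F x ≠ 0) with hT
  have h1 : ∑ x ∈ (Ioc X (2 * X)).filter (fun x => x % LL k = 1 % LL k), F x * G x ≤
      ∑ x ∈ T, F x := by
    rw [hT, sum_filter, sum_filter]
    refine sum_le_sum fun x _ => ?_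
    by_cases ha : x % LL k = 1 % LL k
    · rw [if_pos ha]
      by_cases hb : ∀ p ∈ QQ k y, x % p ∉ lowOm J j₀ p
      · by_cases hc : F x = 0
        · rw [hc, zero_mul, ite_self]
        · rw [if_pos ⟨ha, hb, hc⟩]
          have := hG x
          rw [if_pos hb] at this
          calc F x * G x ≤ F x * 1 := mul_le_mul_of_nonneg_left this (hF0 x)
            _ = F x := mul_one _
      · rw [if_neg (fun h => hb h.2.1)]
        have := hG x
        rw [if_neg hb] at this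
        exact mul_nonpos_of_nonneg_of_nonpos (hF0 x) this
    · rw [if_neg ha, if_neg (fun h => ha h.1)]
  refine h1.trans ?_
  have h2 : ∑ x ∈ T, F x = ∑ n ∈ T.image (fun x => x - j₀), F (n + j₀) := by
    rw [sum_image]
    · refine sum_congr rfl fun x hx => ?_
      rw [hT, mem_filter, mem_Ioc] at hx
      rw [Nat.sub_add_cancel (by omega)]
    · intro a ha b hb hab
      rw [mem_coe, hT, mem_filter, mem_Ioc] at ha hb
      dsimp only at hab
      omega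
  rw [h2]
  refine sum_le_sum_of_subset_of_nonneg ?_ fun n _ _ => hF0 _
  intro n hn
  rw [mem_image] at hn
  obtain ⟨x, hx, rfl⟩ := hn
  have hxT := hx
  rw [hT, mem_filter, mem_Ioc] at hx
  obtain ⟨⟨hx1, hx2⟩, hx3, hx4, hx5⟩ := hx
  have hcan : x - j₀ + j₀ = x := Nat.sub_add_cancel (by omega)
  rw [mem_filter, hcan]
  refine ⟨?_, hx1, hx2⟩
  unfold RR
  rw [mem_filter, mem_Icc]
  refine ⟨⟨by omega, by omega⟩, ?_, ?_⟩
  · have h3 : x - j₀ + j₀ ≡ 1 + j₀ [MOD LL k] := by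
      rw [hcan]
      have h4 : x ≡ 1 [MOD LL k] := hx3
      refine h4.trans ?_
      have h5 : 1 + 0 ≡ 1 + j₀ [MOD LL k] :=
        Nat.ModEq.add_left 1 ((Nat.modEq_zero_iff_dvd).2 hLj).symm
      rwa [add_zero] at h5
    exact Nat.ModEq.add_right_cancel' j₀ h3
  · intro p hp hmem
    obtain ⟨hpp, hpk, hpy⟩ := low_mem_QQ hp
    unfold OJ at hmem
    rw [mem_filter, mem_range] at hmem
    obtain ⟨-, j, hjJ, hd⟩ := hmem
    have h6 : (x - j₀) + j ≡ 0 [MOD p] := by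
      have h7 : (x - j₀) % p + j ≡ (x - j₀) + j [MOD p] := (Nat.mod_modEq _ _).add_right j
      exact h7.symm.trans ((Nat.modEq_zero_iff_dvd).2 hd)
    have h8 : x + j ≡ j₀ [MOD p] := by
      have h9 := h6.add_right j₀
      rw [zero_add] at h9
      have h10 : x - j₀ + j + j₀ = x + j := by omega
      rwa [h10] at h9
    by_cases hx0 : x % p = 0
    · have h11 := hF x (mem_Ioc.2 ⟨hx1, hx2⟩) hx5 p hpp (Nat.dvd_of_mod_eq_zero hx0)
      omega
    · apply hx4 p hp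
      unfold lowOm
      rw [mem_filter, mem_range]
      exact ⟨Nat.mod_lt _ hpp.pos, hx0, j, hjJ, ((Nat.mod_modEq x p).add_right j).trans h8⟩

open Classical in
theorem low (k : ℕ) (ε : ℝ) (hε : 0 < ε) (hε4 : ε ≤ 1 / 4) : ∃ δ1 : ℝ, 0 < δ1 ∧ ∀ δ : ℝ, 0 < δ → δ ≤ δ1 →
    ∀ A : ℕ, ∃ X₀ : ℕ, ∀ X : ℕ, X₀ ≤ X → ∀ J : Finset ℕ, J.card ≤ k →
    (∀ j ∈ J, j ≤ X ∧ LL k ∣ j) → ∀ j₀ ∈ J, ∀ g : ℕ → ℝ, (∀ m, 0 ≤ g m ∧ g m ≤ 1) →
    (∀ m, g m ≠ 0 → 1 < m ∧ (m : ℝ) ≤ (X : ℝ) ^ ε ∧ ∀ l : ℕ, l.Prime → l ∣ m → yy δ X < l) →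
      1 / 2 * ((∑ x ∈ Ioc X (2 * X), BV.FB g (fun _ => 2 * X) x) / (LL k).totient) *
          ∏ p ∈ QQ k (yy δ X), (1 - (((OJ J p).card : ℝ) - 1) / ((p : ℝ) - 1)) -
        (X : ℝ) / (Real.log X) ^ A ≤
      ∑ n ∈ (RR k (yy δ X) X J).filter (fun n => X < n + j₀ ∧ n + j₀ ≤ 2 * X),
        BV.FB g (fun _ => 2 * X) (n + j₀) := by
  obtain ⟨s, hs, hfl⟩ := fl k
  have hs0 : (0 : ℝ) < 16 * s + 16 := by positivity
  refine ⟨1 / (16 * s + 16), by positivity, fun δ hδ hδ1 A => ?_⟩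
  obtain ⟨X1, hbv⟩ := BV.bvb (A + 3) k (1 / 4) (δ / 2) (by norm_num) (by positivity)
  have hδs : δ * s ≤ 1 / 16 := by
    have h1 : δ * s ≤ 1 / (16 * s + 16) * s := mul_le_mul_of_nonneg_right hδ1 (Nat.cast_nonneg s)
    refine h1.trans ?_
    rw [one_div, inv_mul_le_iff₀ hs0]
    linarith
  have hδ16 : δ ≤ 1 / 16 := by
    refine hδ1.trans ?_
    rw [div_le_div_iff₀ hs0 (by norm_num)]
    have : (0 : ℝ) ≤ s := Nat.cast_nonneg s
    linarith
  have hlim1 : Filter.Tendsto (fun X : ℕ => (X : ℝ) ^ δ) Filter.atTop Filter.atTop :=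
    (tendsto_rpow_atTop hδ).comp tendsto_natCast_atTop_atTop
  have hlim2 : Filter.Tendsto (fun X : ℕ => (X : ℝ) ^ (3 / 16 : ℝ)) Filter.atTop Filter.atTop :=
    (tendsto_rpow_atTop (by norm_num)).comp tendsto_natCast_atTop_atTop
  have hlim3 : Filter.Tendsto (fun X : ℕ => Real.log (X : ℝ)) Filter.atTop Filter.atTop :=
    Real.tendsto_log_atTop.comp tendsto_natCast_atTop_atTop
  obtain ⟨X₀, hX₀⟩ := Filter.eventually_atTop.1
    (((hlim1.eventually_ge_atTop ((4 * k + 5 : ℕ) : ℝ)).and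
      (hlim2.eventually_ge_atTop ((LL k : ℕ) : ℝ))).and (hlim3.eventually_ge_atTop 4))
  refine ⟨max X₀ (max X1 2), fun X hX J hJk hJ j₀ hj₀ g hg hgs => ?_⟩
  have hXX₀ : X₀ ≤ X := (le_max_left _ _).trans hX
  have hXX1 : X1 ≤ X := (le_max_left _ _).trans ((le_max_right _ _).trans hX)
  have hX2 : 2 ≤ X := (le_max_right _ _).trans ((le_max_right _ _).trans hX)
  obtain ⟨⟨hA, hB⟩, hC⟩ := hX₀ X hXX₀
  have hX2r : (2 : ℝ) ≤ X := by exact_mod_cast hX2
  have hX1r : (1 : ℝ) ≤ X := by linarith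
  have hX0r : (0 : ℝ) < X := by linarith
  set y := yy δ X with hy
  have hyle : (y : ℝ) ≤ (X : ℝ) ^ δ := by
    rw [hy]
    unfold yy
    exact Nat.floor_le (by positivity)
  have hylt : (X : ℝ) ^ δ < (y : ℝ) + 1 := by
    rw [hy]
    unfold yy
    exact Nat.lt_floor_add_one _
  have hyk : 4 * k + 4 < y + 1 := by
    have : ((4 * k + 5 : ℕ) : ℝ) < ((y + 1 : ℕ) : ℝ) := by push_cast at hA hylt ⊢; linarith
    have := Nat.cast_lt.1 this
    omega
  have hk1 : 1 ≤ k := by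
    have : 0 < J.card := card_pos.2 ⟨j₀, hj₀⟩
    omega
  have hy2 : 2 ≤ y := by omega
  have hyX : (y : ℝ) ≤ X := by
    refine hyle.trans ?_
    calc (X : ℝ) ^ δ ≤ (X : ℝ) ^ (1 : ℝ) := Real.rpow_le_rpow_of_exponent_le hX1r (by linarith)
      _ = X := Real.rpow_one _
  set F := BV.FB g (fun _ => 2 * X) with hF
  have hF0 : ∀ x, 0 ≤ F x := fun x => low_FB_nonneg (fun m => (hg m).1) _ x
  have hgs' : ∀ m, g m ≠ 0 → 1 < m ∧ y * m ≤ X ∧ ∀ l : ℕ, l.Prime → l ∣ m → y < l := by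
    intro m hm
    obtain ⟨h1, h2, h3⟩ := hgs m hm
    refine ⟨h1, ?_, h3⟩
    have h4 : (y : ℝ) * m ≤ X := by
      calc (y : ℝ) * m ≤ (X : ℝ) ^ δ * (X : ℝ) ^ ε :=
            mul_le_mul hyle h2 (Nat.cast_nonneg m) (by positivity)
        _ = (X : ℝ) ^ (δ + ε) := by rw [Real.rpow_add hX0r]
        _ ≤ (X : ℝ) ^ (1 : ℝ) := Real.rpow_le_rpow_of_exponent_le hX1r (by linarith)
        _ = X := Real.rpow_one _
    exact_mod_cast h4
  have hFp : ∀ x ∈ Ioc X (2 * X), F x ≠ 0 → ∀ p : ℕ, p.Prime → p ∣ x → y < p := by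
    intro x hx hx0 p hp hpx
    exact low_FB_prime (mem_Ioc.1 hx).1 hgs' hx0 hp hpx
  set Ω : ℕ → Finset ℕ := fun p => lowOm J j₀ p with hΩ
  obtain ⟨D, cp, cn, hD, hc, hpt, hGm⟩ := hfl y hy2 (QQ k y) (by
    intro q hq
    obtain ⟨h1, h2, h3⟩ := low_mem_QQ hq
    exact ⟨h1, by omega, h3⟩)
  have hDp : ∀ d ∈ D, ∀ p ∈ d, p.Prime ∧ 4 * k + 4 < p ∧ p ≤ y := fun d hd p hp =>
    low_mem_QQ ((hD d hd).1 hp)
  -- the upper bound by the sum over `RR`
  have hstep1 := low_shift k y X J j₀ (hJ j₀ hj₀).1 (hJ j₀ hj₀).2 F hF0 hFp (fun x => Lm D cn Ω x)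
    (fun x => (hpt Ω x).2)
  refine le_trans ?_ hstep1
  -- expansion
  have hexp : ∑ x ∈ (Ioc X (2 * X)).filter (fun x => x % LL k = 1 % LL k), F x * Lm D cn Ω x =
      ∑ d ∈ D, cn d * ∑ x ∈ (Ioc X (2 * X)).filter
        (fun x => x % LL k = 1 % LL k ∧ ∀ p ∈ d, x % p ∈ Ω p), F x := by
    unfold Lm
    simp only [mul_sum]
    rw [sum_comm]
    refine sum_congr rfl fun d _ => ?_
    rw [sum_filter, sum_filter]
    refine sum_congr rfl fun x _ => ?_
    by_cases h1 : x % LL k = 1 % LL k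
    · by_cases h2 : ∀ p ∈ d, x % p ∈ Ω p
      · rw [if_pos h1, if_pos h2, if_pos ⟨h1, h2⟩]
        ring
      · rw [if_pos h1, if_neg h2, if_neg (fun h => h2 h.2)]
        ring
    · rw [if_neg h1, if_neg (fun h => h1 h.1)]
  rw [hexp]
  -- the worst classes
  choose l hl using low_worst F
  set W1 : ℕ → ℝ := fun q => |BV.EE F (2 * X) q (l (2 * X) q)| with hW1
  set W2 : ℕ → ℝ := fun q => |BV.EE F X q (l X q)| with hW2
  have hMpos : ∀ d ∈ D, 1 ≤ (∏ p ∈ d, p) * LL k := fun d hd =>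
    Nat.mul_pos (prod_pos fun p hp => (hDp d hd p hp).1.pos) (low_LL_pos k)
  have hone : ∀ d ∈ D, |∑ x ∈ (Ioc X (2 * X)).filter
      (fun x => x % LL k = 1 % LL k ∧ ∀ p ∈ d, x % p ∈ Ω p), F x -
      (∑ x ∈ Ioc X (2 * X), F x) / (LL k).totient * ∏ p ∈ d, d2 Ω p| ≤
      (∏ p ∈ d, ((Ω p).card : ℝ)) * (W1 ((∏ p ∈ d, p) * LL k) + W2 ((∏ p ∈ d, p) * LL k)) := by
    intro d hd
    refine low_one F X k Ω d (fun p hp => ⟨(hDp d hd p hp).1, (hDp d hd p hp).2.1⟩)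
      (fun p c hc => low_lt hc) ?_ ?_ _ _ ?_ ?_
    · intro p h0
      simp only [hΩ] at h0
      unfold lowOm at h0
      rw [mem_filter] at h0
      exact h0.2.1 rfl
    · intro x hx hx0
      refine Nat.Coprime.mul_right ?_ ?_
      · refine Nat.Coprime.prod_right fun p hp => ?_
        rw [Nat.coprime_comm, (hDp d hd p hp).1.coprime_iff_not_dvd]
        intro h
        have h1 := hFp x hx hx0 p (hDp d hd p hp).1 h
        have h2 := (hDp d hd p hp).2.2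
        omega
      · refine Nat.Coprime.symm (Nat.coprime_of_dvd fun p hp h1 h2 => ?_)
        have h3 := low_LL_prime hp h1
        have h4 := hFp x hx hx0 p hp h2
        omega
    · exact fun c hc => (hl (2 * X) _ (hMpos d hd)).2 c hc
    · exact fun c hc => (hl X _ (hMpos d hd)).2 c hc
  -- the main term
  have hOc : ∀ p ∈ QQ k y, ((Ω p).card : ℝ) = ((OJ J p).card : ℝ) - 1 := by
    intro p hp
    have h1 := low_card (J := J) (j₀ := j₀) (low_mem_QQ hp).1.pos hj₀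
    have h2 : (((lowOm J j₀ p).card + 1 : ℕ) : ℝ) = ((OJ J p).card : ℝ) := by rw [h1]
    push_cast at h2
    simp only [hΩ]
    linarith
  have hOk : ∀ p ∈ QQ k y, ((Ω p).card : ℝ) ≤ k := by
    intro p hp
    have h1 := low_card (J := J) (j₀ := j₀) (low_mem_QQ hp).1.pos hj₀
    have h2 := low_OJ_le J p
    have h3 : (Ω p).card ≤ k := by
      simp only [hΩ]
      omega
    exact_mod_cast h3
  have hG := (hGm (d2 Ω) (by
    intro q hq
    obtain ⟨h1, h2, h3⟩ := low_mem_QQ hq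
    have hq1 : (1 : ℝ) < q := by exact_mod_cast h1.one_lt
    have hq2 : (2 : ℝ) ≤ q := by exact_mod_cast h1.two_le
    unfold d2
    refine ⟨div_nonneg (Nat.cast_nonneg _) (by linarith), ?_⟩
    rw [div_le_div_iff₀ (by linarith) (by linarith)]
    have h4 := hOk q hq
    have hk0 : (0 : ℝ) ≤ k := Nat.cast_nonneg k
    nlinarith)).2.2
  have hprod : ∏ q ∈ QQ k y, (1 - d2 Ω q) =
      ∏ p ∈ QQ k y, (1 - (((OJ J p).card : ℝ) - 1) / ((p : ℝ) - 1)) := by
    refine prod_congr rfl fun p hp => ?_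
    unfold d2
    rw [hOc p hp]
  rw [hprod] at hG
  have hSF : 0 ≤ (∑ x ∈ Ioc X (2 * X), F x) / ((LL k).totient : ℝ) :=
    div_nonneg (sum_nonneg fun x _ => hF0 x) (Nat.cast_nonneg _)
  have hmain : 1 / 2 * ((∑ x ∈ Ioc X (2 * X), F x) / (LL k).totient) *
      ∏ p ∈ QQ k y, (1 - (((OJ J p).card : ℝ) - 1) / ((p : ℝ) - 1)) ≤
      ∑ d ∈ D, cn d * ((∑ x ∈ Ioc X (2 * X), F x) / (LL k).totient * ∏ p ∈ d, d2 Ω p) := by
    have h1 : ∑ d ∈ D, cn d * ((∑ x ∈ Ioc X (2 * X), F x) / (LL k).totient * ∏ p ∈ d, d2 Ω p) =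
        (∑ x ∈ Ioc X (2 * X), F x) / (LL k).totient * Gm D cn (d2 Ω) := by
      unfold Gm
      rw [mul_sum]
      exact sum_congr rfl fun d _ => by ring
    rw [h1]
    have h2 := mul_le_mul_of_nonneg_left hG hSF
    refine le_trans (le_of_eq ?_) h2
    ring
  -- the error
  have hlogy : Real.log y ≤ Real.log X := Real.log_le_log (by positivity) hyX
  have hlogy0 : 0 ≤ Real.log y := Real.log_natCast_nonneg y
  have hWsum : ∀ Y : ℕ, X ≤ Y → Y ≤ 2 * X →
      ∑ q ∈ Icc 1 (y ^ s * LL k), (k : ℝ) ^ q.primeFactors.card *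
        |BV.EE F Y q (l Y q)| ≤ 2 * X / (Real.log X) ^ (A + 3) := by
    intro Y hY hY2
    have hYr : (X : ℝ) ≤ Y := by exact_mod_cast hY
    have hY2r : (Y : ℝ) ≤ 2 * X := by exact_mod_cast hY2
    have hY0 : (0 : ℝ) < Y := by linarith
    have hY1 : (1 : ℝ) ≤ Y := by linarith
    have e1 : ((y ^ s * LL k : ℕ) : ℝ) ≤ (Y : ℝ) ^ (1 / 2 - 1 / 4 : ℝ) := by
      push_cast
      calc (y : ℝ) ^ s * (LL k : ℝ) ≤ (X : ℝ) ^ (1 / 16 : ℝ) * (X : ℝ) ^ (3 / 16 : ℝ) := by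
            refine mul_le_mul ?_ hB (Nat.cast_nonneg _) (by positivity)
            calc (y : ℝ) ^ s ≤ ((X : ℝ) ^ δ) ^ s := pow_le_pow_left₀ (Nat.cast_nonneg y) hyle s
              _ = (X : ℝ) ^ (δ * s) := by rw [Real.rpow_mul hX0r.le, Real.rpow_natCast]
              _ ≤ (X : ℝ) ^ (1 / 16 : ℝ) := Real.rpow_le_rpow_of_exponent_le hX1r hδs
        _ = (X : ℝ) ^ (1 / 4 : ℝ) := by rw [← Real.rpow_add hX0r]; norm_num
        _ ≤ (Y : ℝ) ^ (1 / 4 : ℝ) := Real.rpow_le_rpow hX0r.le hYr (by norm_num)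
        _ = (Y : ℝ) ^ (1 / 2 - 1 / 4 : ℝ) := by norm_num
    have e2 := hbv Y (by omega) (y ^ s * LL k) e1 g (fun _ => 2 * X)
      (fun m => by rw [abs_of_nonneg (hg m).1]; exact (hg m).2) (by
        intro m hm
        obtain ⟨h1, h2, h3⟩ := hgs m hm
        constructor
        · obtain ⟨r, hr, hrm⟩ := Nat.exists_prime_and_dvd (show m ≠ 1 by omega)
          have h4 := h3 r hr hrm
          have h5 := Nat.le_of_dvd (by omega) hrm
          have h6 : ((y + 1 : ℕ) : ℝ) ≤ m := by exact_mod_cast (by omega : y + 1 ≤ m)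
          push_cast at h6
          calc (Y : ℝ) ^ (δ / 2) ≤ ((X : ℝ) * X) ^ (δ / 2) :=
                Real.rpow_le_rpow hY0.le (by nlinarith) (by positivity)
            _ = (X : ℝ) ^ δ := by
                rw [Real.mul_rpow hX0r.le hX0r.le, ← Real.rpow_add hX0r]
                congr 1
                ring
            _ ≤ m := by linarith
        · calc (m : ℝ) ≤ (X : ℝ) ^ ε := h2
            _ ≤ (Y : ℝ) ^ ε := Real.rpow_le_rpow hX0r.le hYr hε.le
            _ ≤ (Y : ℝ) ^ (1 - δ / 2) := Real.rpow_le_rpow_of_exponent_le hY1 (by linarith))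
      (l Y) (fun q hq => (hl Y q (mem_Icc.1 hq).1).1)
    refine e2.trans ?_
    have e3 : Real.log X ≤ Real.log Y := Real.log_le_log hX0r hYr
    have e4 : 0 < Real.log X := by linarith
    refine div_le_div₀ (by positivity) hY2r (by positivity) ?_
    exact pow_le_pow_left₀ e4.le e3 _
  have herr : ∑ d ∈ D, |cn d| * ((∏ p ∈ d, ((Ω p).card : ℝ)) *
      (W1 ((∏ p ∈ d, p) * LL k) + W2 ((∏ p ∈ d, p) * LL k))) ≤ X / (Real.log X) ^ A := by
    have h1 : ∑ d ∈ D, |cn d| * ((∏ p ∈ d, ((Ω p).card : ℝ)) *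
        (W1 ((∏ p ∈ d, p) * LL k) + W2 ((∏ p ∈ d, p) * LL k))) ≤
        ∑ d ∈ D, (2 + 2 * Real.log y) * ((k : ℝ) ^ d.card *
        (W1 ((∏ p ∈ d, p) * LL k) + W2 ((∏ p ∈ d, p) * LL k))) := by
      refine sum_le_sum fun d hd => ?_
      have hW0 : 0 ≤ W1 ((∏ p ∈ d, p) * LL k) + W2 ((∏ p ∈ d, p) * LL k) :=
        add_nonneg (abs_nonneg _) (abs_nonneg _)
      refine mul_le_mul (hc d hd).2 ?_ ?_ (by positivity)
      · refine mul_le_mul_of_nonneg_right ?_ hW0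
        calc ∏ p ∈ d, ((Ω p).card : ℝ) ≤ ∏ _p ∈ d, (k : ℝ) :=
              prod_le_prod (fun _ _ => Nat.cast_nonneg _) fun p hp => hOk p ((hD d hd).1 hp)
          _ = (k : ℝ) ^ d.card := by rw [prod_const]
      · exact mul_nonneg (prod_nonneg fun _ _ => Nat.cast_nonneg _) hW0
    rw [← mul_sum] at h1
    have h2 := low_err (Y := y ^ s) hk1 (fun d hd p hp => (hDp d hd p hp).1)
      (fun d hd => (hD d hd).2) (fun q => W1 q + W2 q)
      (fun q => add_nonneg (abs_nonneg _) (abs_nonneg _))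
    have h3 := hWsum (2 * X) (by omega) le_rfl
    have h4 := hWsum X le_rfl (by omega)
    have h5 : ∑ q ∈ Icc 1 (y ^ s * LL k), (k : ℝ) ^ q.primeFactors.card * (W1 q + W2 q) ≤
        4 * X / (Real.log X) ^ (A + 3) := by
      have h6 : ∑ q ∈ Icc 1 (y ^ s * LL k), (k : ℝ) ^ q.primeFactors.card * (W1 q + W2 q) =
          ∑ q ∈ Icc 1 (y ^ s * LL k), (k : ℝ) ^ q.primeFactors.card * W1 q +
          ∑ q ∈ Icc 1 (y ^ s * LL k), (k : ℝ) ^ q.primeFactors.card * W2 q := by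
        rw [← sum_add_distrib]
        exact sum_congr rfl fun q _ => mul_add _ _ _
      rw [h6]
      refine (add_le_add h3 h4).trans (le_of_eq ?_)
      ring
    have e4 : 0 < Real.log X := by linarith
    calc _ ≤ _ := h1
      _ ≤ (2 + 2 * Real.log y) * (4 * X / (Real.log X) ^ (A + 3)) :=
          mul_le_mul_of_nonneg_left (h2.trans h5) (by linarith)
      _ ≤ (4 * Real.log X) * (4 * X / (Real.log X) ^ (A + 3)) :=
          mul_le_mul_of_nonneg_right (by linarith) (by positivity)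
      _ ≤ X / (Real.log X) ^ A := by
          have h7 : (4 * Real.log X) * (4 * X / (Real.log X) ^ (A + 3)) =
              (16 / (Real.log X) ^ 2) * (X / (Real.log X) ^ A) := by
            rw [pow_add]
            field_simp
            ring
          rw [h7]
          have h8 : 16 / (Real.log X) ^ 2 ≤ 1 := by
            rw [div_le_one (by positivity)]
            nlinarith
          calc (16 / (Real.log X) ^ 2) * (X / (Real.log X) ^ A) ≤ 1 * (X / (Real.log X) ^ A) :=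
                mul_le_mul_of_nonneg_right h8 (by positivity)
            _ = _ := one_mul _
  -- conclusion
  have hfin : ∑ d ∈ D, cn d * ((∑ x ∈ Ioc X (2 * X), F x) / (LL k).totient * ∏ p ∈ d, d2 Ω p) -
      ∑ d ∈ D, |cn d| * ((∏ p ∈ d, ((Ω p).card : ℝ)) *
      (W1 ((∏ p ∈ d, p) * LL k) + W2 ((∏ p ∈ d, p) * LL k))) ≤
      ∑ d ∈ D, cn d * ∑ x ∈ (Ioc X (2 * X)).filter
        (fun x => x % LL k = 1 % LL k ∧ ∀ p ∈ d, x % p ∈ Ω p), F x := by
    rw [← sum_sub_distrib]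
    refine sum_le_sum fun d hd => ?_
    have h1 := hone d hd
    set S := ∑ x ∈ (Ioc X (2 * X)).filter
        (fun x => x % LL k = 1 % LL k ∧ ∀ p ∈ d, x % p ∈ Ω p), F x
    set T := (∑ x ∈ Ioc X (2 * X), F x) / (LL k).totient * ∏ p ∈ d, d2 Ω p
    set U := (∏ p ∈ d, ((Ω p).card : ℝ)) *
      (W1 ((∏ p ∈ d, p) * LL k) + W2 ((∏ p ∈ d, p) * LL k))
    have h2 : |cn d * (S - T)| ≤ |cn d| * U := by
      rw [abs_mul]
      exact mul_le_mul_of_nonneg_left h1 (abs_nonneg _)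
    have h3 := (abs_le.1 h2).1
    have h4 : cn d * S = cn d * T + cn d * (S - T) := by ring
    rw [h4]
    linarith
  linarith

end Pool.Agent.Lib.DZ
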