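import Pool.Agent.Lib.MP_092512_nt.DZ.Defs
import Pool.Agent.Lib.Sieve.Smooth

/-!
# DZ-Pr: comparison of the two sieve products

PROOF. Let `ν := |OJ J p|`, `1 ≤ ν ≤ k` (`J` is not empty: the class of `-j` belongs to `OJ J p`; `|OJ J p| ≤ |J|`: each `j`
gives one class). For a prime `p > 4k + 4`: `1 - (ν - 1)/(p - 1) = (p - ν)/(p - 1) = (1 - ν/p)/(1 - 1/p)`. So the
product on the right is `PJ / ∏_{p∈Q}(1 - 1/p)`, and `φ(L) = L ∏_{p ≤ 4k+4} (1 - 1/p)`, so the right side is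
`(PJ/L) / ∏_{p ≤ y} (1 - 1/p)` (`PP 0 y = PP 0 (4k+4) ∪ PP (4k+4) y`, `y ≥ 4k+4`). `∏_{p≤y} (1 - 1/p)^{-1} ≥ ∑_{n≤y} 1/n ≥ log y`:
look in the library (Sieve/Mertens, Sieve/Mertens3, MT.kap, GT: an inequality `∏ (1 - 1/p) ≤ 1/log z`).
-/

set_option autoImplicit false

open Finset

namespace Pool.Agent.Lib.DZ

open Pool.Agent.Lib.MT Pool.Agent.Lib.MTR

private theorem pr_card (J : Finset ℕ) (p : ℕ) : (OJ J p).card ≤ J.card := by
  classical
  have h : ∀ c ∈ OJ J p, ∃ j ∈ J, p ∣ c + j := by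
    intro c hc
    exact (Finset.mem_filter.1 hc).2
  choose! f hf using h
  apply Finset.card_le_card_of_injOn f
  · intro c hc
    exact (hf c hc).1
  · intro c hc c' hc' hcc
    have h1 := (hf c hc).2
    have h2 := (hf c' hc').2
    rw [hcc] at h1
    have h3 : c < p := Finset.mem_range.1 (Finset.mem_filter.1 hc).1
    have h4 : c' < p := Finset.mem_range.1 (Finset.mem_filter.1 hc').1
    have h5 : c + f c' ≡ c' + f c' [MOD p] :=
      ((Nat.modEq_zero_iff_dvd).2 h1).trans ((Nat.modEq_zero_iff_dvd).2 h2).symm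
    have h6 : c ≡ c' [MOD p] := Nat.ModEq.add_right_cancel' _ h5
    have h7 : c % p = c' % p := h6
    rwa [Nat.mod_eq_of_lt h3, Nat.mod_eq_of_lt h4] at h7

private theorem pr_mem {k y p : ℕ} (h : p ∈ QQ k y) : p.Prime ∧ 4 * k + 4 < p ∧ p ≤ y := by
  unfold QQ PP at h
  rw [Finset.mem_filter, Finset.mem_range] at h
  exact ⟨h.2.1, h.2.2, by omega⟩

theorem pr (k y : ℕ) (J : Finset ℕ) (hJ : J.Nonempty) (hk : J.card ≤ k) (hy : 4 * k + 4 ≤ y) :
    Real.log y / LL k * PJ k y J ≤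
      1 / ((LL k).totient : ℝ) * ∏ p ∈ QQ k y, (1 - (((OJ J p).card : ℝ) - 1) / ((p : ℝ) - 1)) := by
  classical
  have hν : ∀ p ∈ QQ k y, ((OJ J p).card : ℝ) ≤ k := by
    intro p _
    exact_mod_cast (pr_card J p).trans hk
  have hL0 : LL k ≠ 0 := primorial_ne_zero _
  have hL : (0 : ℝ) < LL k := by exact_mod_cast Nat.pos_of_ne_zero hL0
  have hterm : ∀ p ∈ QQ k y, 1 - (((OJ J p).card : ℝ) - 1) / ((p : ℝ) - 1) =
      (1 - d1 (OJ J) p) * (1 - (1 : ℝ) / p)⁻¹ := by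
    intro p hp
    obtain ⟨h1, h2, h3⟩ := pr_mem hp
    have h4 : (1 : ℝ) < p := by exact_mod_cast h1.one_lt
    have h5 : (p : ℝ) - 1 ≠ 0 := by linarith
    have h6 : (p : ℝ) ≠ 0 := by linarith
    have h7 : (1 - (1 : ℝ) / p) ≠ 0 := by
      rw [one_sub_div h6]
      exact div_ne_zero h5 h6
    unfold d1
    rw [eq_comm, ← div_eq_mul_inv, div_eq_iff h7]
    field_simp
    ring
  have hPJ : 0 ≤ PJ k y J := by
    unfold PJ
    apply Finset.prod_nonneg
    intro p hp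
    obtain ⟨h1, h2, h3⟩ := pr_mem hp
    have h4 : ((4 * k + 4 : ℕ) : ℝ) < p := by exact_mod_cast h2
    push_cast at h4
    have h5 := hν p hp
    have h6 : (0 : ℝ) ≤ k := Nat.cast_nonneg k
    unfold d1
    rw [sub_nonneg, div_le_one (by linarith)]
    linarith
  have hprod : ∏ p ∈ QQ k y, (1 - (((OJ J p).card : ℝ) - 1) / ((p : ℝ) - 1)) =
      PJ k y J * ∏ p ∈ QQ k y, (1 - (1 : ℝ) / p)⁻¹ := by
    unfold PJ
    rw [← Finset.prod_mul_distrib]
    exact Finset.prod_congr rfl hterm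
  have htot : (LL k : ℝ) / ((LL k).totient : ℝ) =
      ∏ p ∈ (LL k).primeFactors, (1 - (1 : ℝ) / p)⁻¹ := Sieve.div_totient_eq_prod_inv _ hL0
  have hφ : (0 : ℝ) < ((LL k).totient : ℝ) := by
    exact_mod_cast Nat.totient_pos.2 (Nat.pos_of_ne_zero hL0)
  have hset : (Finset.Icc 1 y).filter Nat.Prime = (LL k).primeFactors ∪ QQ k y := by
    ext p
    unfold LL QQ PP
    rw [Finset.mem_union, primeFactors_primorial, Nat.mem_primesLE, Finset.mem_filter,
      Finset.mem_filter, Finset.mem_Icc, Finset.mem_range]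
    constructor
    · rintro ⟨⟨h1, h2⟩, h3⟩
      by_cases h4 : p ≤ 4 * k + 4
      · exact Or.inl ⟨h4, h3⟩
      · exact Or.inr ⟨by omega, h3, by omega⟩
    · rintro (⟨h1, h2⟩ | ⟨h1, h2, h3⟩)
      · exact ⟨⟨h2.one_le, by omega⟩, h2⟩
      · exact ⟨⟨h2.one_le, by omega⟩, h2⟩
  have hdisj : Disjoint (LL k).primeFactors (QQ k y) := by
    rw [Finset.disjoint_left]
    intro p h1 h2
    obtain ⟨h3, h4, h5⟩ := pr_mem h2
    unfold LL at h1
    rw [primeFactors_primorial, Nat.mem_primesLE] at h1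
    omega
  have hlog : Real.log y ≤ (LL k : ℝ) / ((LL k).totient : ℝ) *
      ∏ p ∈ QQ k y, (1 - (1 : ℝ) / p)⁻¹ := by
    rw [htot, ← Finset.prod_union hdisj, ← hset]
    refine le_trans ?_ (Sieve.log_le_prod y)
    have hy0 : (0 : ℝ) < y := by
      have : 0 < y := by omega
      exact_mod_cast this
    apply Real.log_le_log hy0
    linarith
  rw [hprod]
  have h1 : Real.log y / LL k * PJ k y J ≤
      ((LL k : ℝ) / ((LL k).totient : ℝ) * ∏ p ∈ QQ k y, (1 - (1 : ℝ) / p)⁻¹) / LL k *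
        PJ k y J :=
    mul_le_mul_of_nonneg_right (div_le_div_of_nonneg_right hlog hL.le) hPJ
  refine h1.trans (le_of_eq ?_)
  field_simp

end Pool.Agent.Lib.DZ
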