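import Pool.Agent.Lib.MP_092512_nt.DZ.Defs

/-!
# DZ-SF: lower bound for `∑ FB g` over `(X, 2X]`

PROOF. `∑_{X < x ≤ 2X} FB g (fun _ => 2X) x = ∑_{m ≥ 1} g m ∑_{l prime, X < m l ≤ 2X} log l` (definition of `BV.FB`: the pairs
`(x, l)`, `l ∈ x.primeFactors`, `m = x/l`; the condition `l ≤ 2X` is automatic). For `m ≤ X^ε`, `ε ≤ 1/4`: the inner sum is
`θ(⌊2X/m⌋) - θ(⌊X/m⌋)`, and `t := ⌊X/m⌋ ≥ X^(3/4) - 1` is large, `⌊2X/m⌋ ≥ 2t`. `MT.theta_low` (with `h = 0`) gives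
`≥ t/2 ≥ X/(4m)`. All terms are `≥ 0`.
-/

set_option autoImplicit false

open Finset

namespace Pool.Agent.Lib.DZ

open Pool.Agent.Lib.MT Pool.Agent.Lib.MTR

/-- the terms of `FB` at `x`, indexed by the cofactor -/
private theorem sf_point (X x : ℕ) (hx : X < x) (hx2 : x ≤ 2 * X) (g : ℕ → ℝ) (hg : ∀ m, 0 ≤ g m) :
    ∑ m ∈ (Icc 1 X).filter (fun m => m ∣ x), g m * BV.th (x / m) ≤
      BV.FB g (fun _ => 2 * X) x := by
  classical
  have hx0 : x ≠ 0 := by omega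
  have h1 : ∑ m ∈ (Icc 1 X).filter (fun m => m ∣ x), g m * BV.th (x / m) =
      ∑ m ∈ ((Icc 1 X).filter (fun m => m ∣ x)).filter (fun m => (x / m).Prime),
        g (x / (x / m)) * Real.log ((x / m : ℕ) : ℝ) := by
    conv_rhs => rw [sum_filter]
    refine sum_congr rfl fun m hm => ?_
    rw [mem_filter] at hm
    unfold BV.th
    split_ifs with h
    · rw [Nat.div_div_self hm.2 hx0]
    · rw [mul_zero]
  rw [h1]
  have hinj : Set.InjOn (fun m => x / m)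
      (((Icc 1 X).filter (fun m => m ∣ x)).filter (fun m => (x / m).Prime) : Finset ℕ) := by
    intro a ha b hb hab
    rw [Finset.mem_coe, mem_filter, mem_filter] at ha hb
    dsimp only at hab
    rw [← Nat.div_div_self ha.1.2 hx0, hab, Nat.div_div_self hb.1.2 hx0]
  have h2 := sum_image (f := fun p : ℕ => g (x / p) * Real.log (p : ℝ)) hinj
  rw [← h2]
  unfold BV.FB
  refine sum_le_sum_of_subset_of_nonneg ?_ ?_
  · intro p hp
    rw [mem_image] at hp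
    obtain ⟨m, hm, rfl⟩ := hp
    rw [mem_filter, mem_filter] at hm
    rw [mem_filter, Nat.mem_primeFactors]
    have hd : x / m ∣ x := Nat.div_dvd_of_dvd hm.1.2
    exact ⟨⟨hm.2, hd, hx0⟩, (Nat.le_of_dvd (by omega) hd).trans hx2⟩
  · intro p _ _
    exact mul_nonneg (hg _) (Real.log_natCast_nonneg p)

/-- multiples of `m` in `(X, 2X]` -/
private theorem sf_mult (X m : ℕ) (hm : 1 ≤ m) :
    ∑ x ∈ (Ioc X (2 * X)).filter (fun x => m ∣ x), BV.th (x / m) =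
      ∑ n ∈ Ioc (X / m) (2 * X / m), BV.th n := by
  refine sum_nbij' (fun x => x / m) (fun n => m * n) ?_ ?_ ?_ ?_ ?_
  · intro x hx
    rw [mem_filter, mem_Ioc] at hx
    obtain ⟨⟨h1, h2⟩, k, rfl⟩ := hx
    rw [mem_Ioc, Nat.mul_div_cancel_left _ (by omega)]
    exact ⟨Nat.div_lt_of_lt_mul h1, (Nat.le_div_iff_mul_le (by omega)).2 (by rwa [mul_comm])⟩
  · intro n hn
    rw [mem_Ioc] at hn
    rw [mem_filter, mem_Ioc]
    refine ⟨⟨?_, ?_⟩, dvd_mul_right m n⟩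
    · have := (Nat.div_lt_iff_lt_mul (show 0 < m by omega)).1 hn.1
      rwa [mul_comm] at this
    · have := (Nat.le_div_iff_mul_le (show 0 < m by omega)).1 hn.2
      rwa [mul_comm] at this
  · intro x hx
    rw [mem_filter] at hx
    exact Nat.mul_div_cancel' hx.2
  · intro n _
    exact Nat.mul_div_cancel_left _ (by omega)
  · intro x _
    rfl

theorem sf (ε : ℝ) (hε : 0 < ε) (hε4 : ε ≤ 1 / 4) : ∃ X₀ : ℕ, ∀ X : ℕ, X₀ ≤ X → ∀ g : ℕ → ℝ,
    (∀ m, 0 ≤ g m) → (∀ m, g m ≠ 0 → 1 ≤ m ∧ (m : ℝ) ≤ (X : ℝ) ^ ε) →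
      (X : ℝ) / 4 * ∑ m ∈ Icc 1 X, g m / m ≤ ∑ x ∈ Ioc X (2 * X), BV.FB g (fun _ => 2 * X) x := by
  classical
  obtain ⟨T, hT⟩ := theta_low
  have hlim : Filter.Tendsto (fun X : ℕ => (X : ℝ) ^ (3 / 4 : ℝ)) Filter.atTop Filter.atTop :=
    (tendsto_rpow_atTop (by norm_num)).comp tendsto_natCast_atTop_atTop
  obtain ⟨X₀, h0⟩ := Filter.eventually_atTop.1 (hlim.eventually_ge_atTop ((T : ℝ) + 2))
  refine ⟨max X₀ 1, fun X hX g hg hgs => ?_⟩
  have hX0 : X₀ ≤ X := (le_max_left _ _).trans hX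
  have hX1 : 1 ≤ X := (le_max_right _ _).trans hX
  have hX1r : (1 : ℝ) ≤ X := by exact_mod_cast hX1
  have hX34 := h0 X hX0
  have step1 : ∑ m ∈ Icc 1 X, g m * ∑ n ∈ Ioc (X / m) (2 * X / m), BV.th n ≤
      ∑ x ∈ Ioc X (2 * X), BV.FB g (fun _ => 2 * X) x := by
    calc ∑ m ∈ Icc 1 X, g m * ∑ n ∈ Ioc (X / m) (2 * X / m), BV.th n
        = ∑ m ∈ Icc 1 X, ∑ x ∈ Ioc X (2 * X), (if m ∣ x then g m * BV.th (x / m) else 0) := by
          refine sum_congr rfl fun m hm => ?_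
          rw [mem_Icc] at hm
          rw [← sf_mult X m hm.1, mul_sum, sum_filter]
      _ = ∑ x ∈ Ioc X (2 * X), ∑ m ∈ Icc 1 X, (if m ∣ x then g m * BV.th (x / m) else 0) :=
          sum_comm
      _ ≤ _ := by
          refine sum_le_sum fun x hx => ?_
          rw [mem_Ioc] at hx
          rw [← sum_filter]
          exact sf_point X x hx.1 hx.2 g hg
  refine le_trans ?_ step1
  rw [mul_sum]
  refine sum_le_sum fun m hm => ?_
  rw [mem_Icc] at hm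
  have hm0 : (0 : ℝ) < m := by exact_mod_cast hm.1
  by_cases hgm : g m = 0
  · rw [hgm]
    simp
  obtain ⟨-, hmX⟩ := hgs m hgm
  have hmX4 : (m : ℝ) ≤ (X : ℝ) ^ (1 / 4 : ℝ) :=
    hmX.trans (Real.rpow_le_rpow_of_exponent_le hX1r hε4)
  have hsplit : (X : ℝ) ^ (3 / 4 : ℝ) * (X : ℝ) ^ (1 / 4 : ℝ) = X := by
    rw [← Real.rpow_add (by linarith)]
    norm_num
  have hXm : (T : ℝ) + 2 ≤ (X : ℝ) / m := by
    rw [le_div_iff₀ hm0]
    calc ((T : ℝ) + 2) * m ≤ (X : ℝ) ^ (3 / 4 : ℝ) * (X : ℝ) ^ (1 / 4 : ℝ) :=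
          mul_le_mul hX34 hmX4 hm0.le (by positivity)
      _ = X := hsplit
  have hfl : (X : ℝ) / m - 1 < ((X / m : ℕ) : ℝ) := by
    have := Nat.lt_floor_add_one ((X : ℝ) / m)
    rw [Nat.floor_div_eq_div] at this
    linarith
  have hTt : T ≤ X / m := by
    have : (T : ℝ) < ((X / m : ℕ) : ℝ) := by linarith
    exact_mod_cast this.le
  have hth := hT (X / m) 0 hTt (by simp; positivity)
  rw [add_zero, add_zero] at hth
  have hsub : Ioc (X / m) (2 * (X / m)) ⊆ Ioc (X / m) (2 * X / m) := by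
    refine Ioc_subset_Ioc_right ?_
    rw [Nat.le_div_iff_mul_le (by omega)]
    have := Nat.div_mul_le_self X m
    nlinarith
  have hle : ((X / m : ℕ) : ℝ) / 2 ≤ ∑ n ∈ Ioc (X / m) (2 * X / m), BV.th n :=
    hth.trans (sum_le_sum_of_subset_of_nonneg hsub fun n _ _ => BV.th_nonneg n)
  have hfin : (X : ℝ) / 4 * (1 / m) ≤ ∑ n ∈ Ioc (X / m) (2 * X / m), BV.th n := by
    refine le_trans ?_ hle
    have h5 : (X : ℝ) / 4 * (1 / m) = (X : ℝ) / m / 4 := by ring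
    rw [h5]
    have hT0 : (0 : ℝ) ≤ T := Nat.cast_nonneg T
    linarith
  calc (X : ℝ) / 4 * (g m / m) = g m * ((X : ℝ) / 4 * (1 / m)) := by ring
    _ ≤ _ := mul_le_mul_of_nonneg_left hfin (hg m)

end Pool.Agent.Lib.DZ
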