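import Pool.Agent.Lib.MP_092512_nt.DZ.Up
import Pool.Agent.Lib.MP_092512_nt.DZ.Low
import Pool.Agent.Lib.MP_092512_nt.DZ.SF
import Pool.Agent.Lib.MP_092512_nt.DZ.Bd
import Pool.Agent.Lib.MP_092512_nt.DZ.Cls
import Pool.Agent.Lib.MP_092512_nt.DZ.Pr

/-!
# DZ-Core: for each `j₀` a positive proportion, independent of `k`, of the `n` in `RR` have `n + j₀` good

PROOF. `c` from `cls`; `c0 := c/200`. Given `k ≥ 1`: `δ` := the minimum of the `δ1` of `cls`, `low k ε`, `up k`, and `1/4`.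
`y := yy δ X`, `L := LL k`, `P := PJ k y J`, `U := X/L · P`. `up`: `|RR| ≤ 5 U`. `wlow` (first part, `z = 4k+4`, `Q = QQ k y`, `OJ`):
`P ≥ 1/(log X)^C1`, so `U ≥ X/(log X)^(C1+1)`. Let `g := gg ε δ q b X`, `F := FB g`. By `low` with `A := C1 + 2`, `pr`, `sf`, `cls`:
`∑_{n ∈ RR, X < n + j₀ ≤ 2X} F(n + j₀) ≥ (1/2)(SF/φ(L)) ∏(...) - X/(log X)^A ≥ (1/2) · (X/4)(c/δ) · (log y/L) P - X/(log X)^A`,
`log y ≥ (δ/2) log X`, so it is `≥ (c/16) U log X - X/(log X)^A ≥ (c/20) U log X` for large `X`. `F ≤ log (2X) ≤ 2 log X` and `F ≠ 0`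
only for good `n + j₀` (`bd`): the number of good `n` is `≥ (c/40) U ≥ c0 U`.
-/

set_option autoImplicit false

open Finset

namespace Pool.Agent.Lib.DZ

open Pool.Agent.Lib.MT Pool.Agent.Lib.MTR

private theorem core_OJ (J : Finset ℕ) (p : ℕ) : (OJ J p).card ≤ J.card := by
  classical
  have h1 : OJ J p ⊆ J.biUnion fun j => (range p).filter (fun c => p ∣ c + j) := by
    intro c hc
    unfold OJ at hc
    rw [mem_filter] at hc
    obtain ⟨hc1, j, hj, hd⟩ := hc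
    rw [mem_biUnion]
    exact ⟨j, hj, mem_filter.2 ⟨hc1, hd⟩⟩
  refine (card_le_card h1).trans ?_
  have h2 : ∀ j ∈ J, ((range p).filter (fun c => p ∣ c + j)).card ≤ 1 := by
    intro j _
    rw [card_le_one]
    intro a ha b hb
    rw [mem_filter, mem_range] at ha hb
    have h3 : a + j ≡ b + j [MOD p] :=
      (Nat.modEq_zero_iff_dvd.2 ha.2).trans (Nat.modEq_zero_iff_dvd.2 hb.2).symm
    have h4 := Nat.ModEq.add_right_cancel' j h3
    exact Nat.ModEq.eq_of_lt_of_lt h4 ha.1 hb.1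
  have h3 := card_biUnion_le_card_mul J (fun j => (range p).filter (fun c => p ∣ c + j)) 1 h2
  rwa [mul_one] at h3

private theorem core_yy {δ : ℝ} (hδ : 0 < δ) (hδ4 : δ ≤ 1 / 4) {k X : ℕ} (hX : 1 ≤ X)
    (h : (4 * k + 8 : ℝ) ≤ (X : ℝ) ^ (δ / 2)) :
    4 * k + 4 ≤ yy δ X ∧ 2 ≤ yy δ X ∧ yy δ X ≤ X ∧ δ / 2 * Real.log X ≤ Real.log (yy δ X) ∧
      (yy δ X : ℝ) ≤ (X : ℝ) ^ δ := by
  have hX0 : (0 : ℝ) < X := by exact_mod_cast hX
  have hX1 : (1 : ℝ) ≤ X := by exact_mod_cast hX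
  have e1 : (X : ℝ) ^ δ = (X : ℝ) ^ (δ / 2) * (X : ℝ) ^ (δ / 2) := by
    rw [← Real.rpow_add hX0]
    congr 1
    ring
  set t := (X : ℝ) ^ (δ / 2) with ht
  have hk : (0 : ℝ) ≤ k := Nat.cast_nonneg k
  have ht8 : 8 ≤ t := by linarith
  have hle : (yy δ X : ℝ) ≤ (X : ℝ) ^ δ := by
    unfold yy
    exact Nat.floor_le (by positivity)
  have hge : t ≤ (yy δ X : ℝ) := by
    have h2 : (X : ℝ) ^ δ < (yy δ X : ℝ) + 1 := by
      unfold yy
      exact Nat.lt_floor_add_one _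
    have h3 : t + 1 ≤ t * t := by nlinarith
    rw [e1] at h2
    linarith
  refine ⟨?_, ?_, ?_, ?_, hle⟩
  · have : ((4 * k + 4 : ℕ) : ℝ) ≤ (yy δ X : ℝ) := by
      push_cast
      linarith
    exact_mod_cast this
  · have : ((2 : ℕ) : ℝ) ≤ (yy δ X : ℝ) := by
      push_cast
      linarith
    exact_mod_cast this
  · have h2 : (X : ℝ) ^ δ ≤ (X : ℝ) ^ (1 : ℝ) :=
      Real.rpow_le_rpow_of_exponent_le hX1 (by linarith)
    rw [Real.rpow_one] at h2
    have : (yy δ X : ℝ) ≤ (X : ℝ) := hle.trans h2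
    exact_mod_cast this
  · have h2 : Real.log t = δ / 2 * Real.log X := by
      rw [ht, Real.log_rpow hX0]
    rw [← h2]
    exact Real.log_le_log (by linarith) hge

open Classical in
private theorem core_gg (ε δ : ℝ) (q b X : ℕ) :
    (∀ m, 0 ≤ gg ε δ q b X m ∧ gg ε δ q b X m ≤ 1) ∧
    ∀ m, gg ε δ q b X m ≠ 0 → 1 < m ∧ (m : ℝ) ≤ (X : ℝ) ^ ε ∧
      ∀ l : ℕ, l.Prime → l ∣ m → yy δ X < l := by
  constructor
  · intro m
    unfold gg
    split_ifs <;> norm_num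
  · intro m hm
    unfold gg at hm
    by_contra hcon
    apply hm
    rw [if_neg]
    rintro ⟨h1, h2, h3, -⟩
    exact hcon ⟨h1, h2, h3⟩

open Classical in
theorem core (ε : ℝ) (hε : 0 < ε) (hε4 : ε ≤ 1 / 4) (q : ℕ) (hq : 1 ≤ q) : ∃ c0 : ℝ, 0 < c0 ∧ ∀ k : ℕ, 1 ≤ k →
    ∃ δ : ℝ, 0 < δ ∧ ∃ C X₀ : ℕ, ∀ X : ℕ, X₀ ≤ X → ∀ J : Finset ℕ, J.Nonempty → J.card ≤ k →
    (∀ j ∈ J, j ≤ X ∧ LL k ∣ j) → ∀ b : ℕ, ∃ (U : ℝ) (R : Finset ℕ),
      (X : ℝ) / (Real.log X) ^ C ≤ U ∧ R ⊆ Icc 1 (2 * X) ∧ (R.card : ℝ) ≤ 5 * U ∧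
      ∀ j₀ ∈ J, c0 * U ≤ ((R.filter fun n => Good ε δ q b X (n + j₀)).card : ℝ) := by
  obtain ⟨c, hc, δc, hδc, hcls⟩ := cls ε hε hε4 q hq
  refine ⟨c / 200, by positivity, ?_⟩
  intro k hk
  obtain ⟨δl, hδl, hlow⟩ := low k ε hε hε4
  obtain ⟨δu, hδu, Xu, hup⟩ := up k
  obtain ⟨δ, hδ, hδ1, hδ2, hδ3, hδ4⟩ : ∃ δ : ℝ, 0 < δ ∧ δ ≤ δc ∧ δ ≤ δl ∧ δ ≤ δu ∧ δ ≤ 1 / 4 :=
    ⟨min (min δc δl) (min δu (1 / 4)), lt_min (lt_min hδc hδl) (lt_min hδu (by norm_num)),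
      (min_le_left _ _).trans (min_le_left _ _), (min_le_left _ _).trans (min_le_right _ _),
      (min_le_right _ _).trans (min_le_left _ _), (min_le_right _ _).trans (min_le_right _ _)⟩
  obtain ⟨Xc, hcls⟩ := hcls δ hδ hδ1
  obtain ⟨C1, Xw, hw⟩ := wlow k
  obtain ⟨Xl, hlow⟩ := hlow δ hδ hδ2 (C1 + 1)
  obtain ⟨Xs, hsf⟩ := sf ε hε hε4
  choose Xb hbd using fun b => bd ε δ hε hε4 hδ hδ4 q b
  have t1 := ((tendsto_rpow_atTop (show (0 : ℝ) < δ / 2 by positivity)).comp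
    tendsto_natCast_atTop_atTop).eventually_ge_atTop ((4 * k + 8 : ℝ))
  have t2 := (Real.tendsto_log_atTop.comp
    tendsto_natCast_atTop_atTop).eventually_ge_atTop (max ((LL k : ℕ) : ℝ) (max (80 / c) 1))
  obtain ⟨X1, hX1⟩ := Filter.eventually_atTop.1 (t1.and t2)
  refine ⟨δ, hδ, C1 + 1, Xu + Xc + Xw + Xl + Xs + X1 + (range q).sup Xb + 2, ?_⟩
  intro X hX J hJ hJk hJX b
  -- reduction to `b < q`
  suffices hmain : ∀ b : ℕ, b < q → ∃ (U : ℝ) (R : Finset ℕ),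
      (X : ℝ) / (Real.log X) ^ (C1 + 1) ≤ U ∧ R ⊆ Icc 1 (2 * X) ∧ (R.card : ℝ) ≤ 5 * U ∧
      ∀ j₀ ∈ J, c / 200 * U ≤ ((R.filter fun n => Good ε δ q b X (n + j₀)).card : ℝ) by
    obtain ⟨U, R, h1, h2, h3, h4⟩ := hmain (b % q) (Nat.mod_lt _ hq)
    refine ⟨U, R, h1, h2, h3, ?_⟩
    intro j₀ hj₀
    have h5 := h4 j₀ hj₀
    have h6 : ∀ x, Good ε δ q (b % q) X x ↔ Good ε δ q b X x := by
      intro x
      unfold Good
      have h7 : ∀ a : ℕ, a ≡ b % q [MOD q] ↔ a ≡ b [MOD q] := by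
        intro a
        unfold Nat.ModEq
        rw [Nat.mod_mod]
      simp only [h7]
    simp only [h6] at h5
    exact h5
  intro b hb
  have hXb : Xb b ≤ (range q).sup Xb := Finset.le_sup (f := Xb) (mem_range.2 hb)
  obtain ⟨hX1a, hX1b⟩ := hX1 X (by omega)
  simp only [Function.comp_apply, max_le_iff] at hX1a hX1b
  obtain ⟨hlogL, hlogc, hlog1⟩ := hX1b
  have hX2 : (2 : ℝ) ≤ X := by exact_mod_cast (by omega : 2 ≤ X)
  have hX0 : (0 : ℝ) < X := by linarith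
  obtain ⟨hy1, hy2, hy3, hy4, hy5⟩ := core_yy hδ hδ4 (by omega : 1 ≤ X) hX1a
  set y := yy δ X with hy
  set Lx := Real.log (X : ℝ) with hLx
  have hL1 : 1 ≤ LL k := primorial_pos _
  have hL0 : (0 : ℝ) < (LL k : ℝ) := by exact_mod_cast hL1
  have hLx0 : 0 < Lx := by linarith
  -- the product
  obtain ⟨hP, -⟩ := hw X (4 * k + 4) y (by omega) le_rfl hy3 (QQ k y) (Finset.Subset.refl _) (OJ J)
    (fun q _ => (core_OJ J q).trans hJk)
  have hP' : 1 / Lx ^ C1 ≤ PJ k y J := hP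
  set P := PJ k y J with hPdef
  have hP0 : 0 < P := lt_of_lt_of_le (by positivity) hP'
  set U : ℝ := (X : ℝ) / LL k * P with hU
  have hU0 : 0 < U := by positivity
  have hU1 : (X : ℝ) / Lx ^ (C1 + 1) ≤ U := by
    have e1 : (X : ℝ) / Lx ^ (C1 + 1) = (X : ℝ) / Lx * (1 / Lx ^ C1) := by
      rw [pow_succ]
      field_simp
    rw [e1, hU]
    refine mul_le_mul ?_ hP' (by positivity) (by positivity)
    exact div_le_div_of_nonneg_left hX0.le hL0 hlogL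
  have hU2 : (X : ℝ) / Lx ^ (C1 + 1) ≤ c / 80 * (U * Lx) := by
    have e1 : 1 ≤ c / 80 * Lx := by
      have := mul_le_mul_of_nonneg_left hlogc (show 0 ≤ c / 80 by positivity)
      have e2 : c / 80 * (80 / c) = 1 := by
        field_simp
      linarith
    calc (X : ℝ) / Lx ^ (C1 + 1) ≤ U := hU1
      _ = 1 * U := (one_mul U).symm
      _ ≤ c / 80 * Lx * U := mul_le_mul_of_nonneg_right e1 hU0.le
      _ = c / 80 * (U * Lx) := by ring
  refine ⟨U, RR k y X J, hU1, ?_, ?_, ?_⟩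
  · unfold RR
    exact filter_subset _ _
  · exact hup X y (by omega) hy2 (hy5.trans (Real.rpow_le_rpow_of_exponent_le (by linarith) hδ3)) J hJk
  intro j₀ hj₀
  set g := gg ε δ q b X with hg
  obtain ⟨hg1, hg2⟩ := core_gg ε δ q b X
  have hlo := hlow X (by omega) J hJk hJX j₀ hj₀ g hg1 hg2
  have hs := hsf X (by omega) g (fun m => (hg1 m).1) (fun m hm => ⟨(hg2 m hm).1.le, (hg2 m hm).2.1⟩)
  have hcl := hcls X (by omega) b
  have hpr := pr k y J hJ hJk hy1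
  set SF := ∑ x ∈ Ioc X (2 * X), BV.FB g (fun _ => 2 * X) x with hSF
  set Pp := ∏ p ∈ QQ k y, (1 - (((OJ J p).card : ℝ) - 1) / ((p : ℝ) - 1)) with hPp
  have hSF1 : (X : ℝ) / 4 * (c / δ) ≤ SF :=
    (mul_le_mul_of_nonneg_left hcl (by positivity)).trans hs
  have hSF0 : 0 ≤ SF := le_trans (by positivity) hSF1
  have hmainlow : c / 16 * (U * Lx) ≤ 1 / 2 * (SF / (LL k).totient) * Pp := by
    have e1 : 1 / 2 * (SF / ((LL k).totient : ℝ)) * Pp = 1 / 2 * SF * (1 / ((LL k).totient : ℝ) * Pp) := by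
      ring
    rw [e1]
    have e2 : δ / 2 * Lx / LL k * P ≤ 1 / ((LL k).totient : ℝ) * Pp := by
      refine le_trans ?_ hpr
      refine mul_le_mul_of_nonneg_right ?_ hP0.le
      exact div_le_div_of_nonneg_right hy4 hL0.le
    calc c / 16 * (U * Lx) = 1 / 2 * ((X : ℝ) / 4 * (c / δ)) * (δ / 2 * Lx / LL k * P) := by
          rw [hU]
          field_simp
          ring
      _ ≤ 1 / 2 * SF * (δ / 2 * Lx / LL k * P) := by
          refine mul_le_mul_of_nonneg_right ?_ (by positivity)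
          linarith
      _ ≤ 1 / 2 * SF * (1 / ((LL k).totient : ℝ) * Pp) :=
          mul_le_mul_of_nonneg_left e2 (by linarith)
  have hl2 : Real.log (2 * (X : ℝ)) ≤ 2 * Lx := by
    rw [Real.log_mul (by norm_num) hX0.ne']
    have : Real.log 2 ≤ Lx := Real.log_le_log (by norm_num) hX2
    linarith
  have hl0 : 0 ≤ Real.log (2 * (X : ℝ)) := Real.log_nonneg (by linarith)
  have hupper : ∑ n ∈ (RR k y X J).filter (fun n => X < n + j₀ ∧ n + j₀ ≤ 2 * X),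
      BV.FB g (fun _ => 2 * X) (n + j₀) ≤
      (((RR k y X J).filter fun n => Good ε δ q b X (n + j₀)).card : ℝ) * Real.log (2 * X) := by
    calc ∑ n ∈ (RR k y X J).filter (fun n => X < n + j₀ ∧ n + j₀ ≤ 2 * X),
          BV.FB g (fun _ => 2 * X) (n + j₀) ≤
          ∑ n ∈ (RR k y X J).filter (fun n => X < n + j₀ ∧ n + j₀ ≤ 2 * X),
            (if Good ε δ q b X (n + j₀) then Real.log (2 * (X : ℝ)) else 0) := by
          refine sum_le_sum fun n hn => ?_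
          obtain ⟨h1, h2⟩ := hbd b X (by omega) (n + j₀) (mem_Ioc.2 (mem_filter.1 hn).2)
          by_cases h3 : BV.FB g (fun _ => 2 * X) (n + j₀) = 0
          · rw [h3]
            split_ifs
            · exact hl0
            · exact le_refl _
          · rw [if_pos (h2 h3)]
            exact h1
      _ ≤ ∑ n ∈ RR k y X J, (if Good ε δ q b X (n + j₀) then Real.log (2 * (X : ℝ)) else 0) := by
          refine sum_le_sum_of_subset_of_nonneg (filter_subset _ _) fun n _ _ => ?_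
          split_ifs
          · exact hl0
          · exact le_refl _
      _ = _ := by
          rw [← sum_filter, sum_const, nsmul_eq_mul]
  have hfin : c / 20 * (U * Lx) ≤
      (((RR k y X J).filter fun n => Good ε δ q b X (n + j₀)).card : ℝ) * (2 * Lx) := by
    have e1 := mul_le_mul_of_nonneg_left hl2
      (Nat.cast_nonneg (α := ℝ) ((RR k y X J).filter fun n => Good ε δ q b X (n + j₀)).card)
    linarith
  have e2 : c / 40 * U ≤ (((RR k y X J).filter fun n => Good ε δ q b X (n + j₀)).card : ℝ) := by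
    have e3 : c / 40 * U * (2 * Lx) ≤
        (((RR k y X J).filter fun n => Good ε δ q b X (n + j₀)).card : ℝ) * (2 * Lx) := by
      calc c / 40 * U * (2 * Lx) = c / 20 * (U * Lx) := by ring
        _ ≤ _ := hfin
    exact le_of_mul_le_mul_right e3 (by positivity)
  refine le_trans ?_ e2
  have e4 : 0 ≤ c * U := by positivity
  linarith

end Pool.Agent.Lib.DZ
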