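import Pool.Agent.Lib.MTR.FL
import Pool.Agent.Lib.MTR.Wlow
import Pool.Agent.Lib.MTR.Dsum
import Pool.Agent.Lib.BV.Main
import Pool.Agent.Lib.MT.Theta

/-!
# DZ-Defs: bounded dilates of constellations in near-primes. Definitions

`J`: a set of at most `k` shifts, all divisible by `LL k` (the product of the primes `≤ 4k + 4`). `RR k y X J`: the
`n ≤ 2X`, `n ≡ 1` mod `LL k`, such that no prime `≤ y` divides some `n + j`, `j ∈ J`. `yy δ X = ⌊X^δ⌋`.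
`gg ε δ q b X`: indicator of the `m > 1`, `m ≤ X^ε`, with all prime factors `> yy δ X` and `Ω(m) ≡ b` mod `q`.
`PJ k y J = ∏ (1 - ν(p)/p)` over the primes `p` with `4k + 4 < p ≤ y`, `ν(p)` the number of classes of `J` mod `p`.
-/

set_option autoImplicit false

open Finset

namespace Pool.Agent.Lib.DZ

open Pool.Agent.Lib.MT Pool.Agent.Lib.MTR

/-- the product of the primes `≤ 4k + 4` -/
def LL (k : ℕ) : ℕ := primorial (4 * k + 4)

/-- the primes `p` with `4k + 4 < p ≤ y` -/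
def QQ (k y : ℕ) : Finset ℕ := PP (4 * k + 4) y

/-- the classes `c` mod `p` with `p ∣ c + j` for some `j ∈ J` -/
def OJ (J : Finset ℕ) (p : ℕ) : Finset ℕ := (range p).filter (fun c => ∃ j ∈ J, p ∣ c + j)

open Classical in
/-- the `n ≤ 2X`, `n ≡ 1` mod `LL k`, such that no `n + j`, `j ∈ J`, has a prime factor in `QQ k y` -/
noncomputable def RR (k y X : ℕ) (J : Finset ℕ) : Finset ℕ :=
  (Icc 1 (2 * X)).filter (fun n => n ≡ 1 [MOD LL k] ∧ ∀ p ∈ QQ k y, n % p ∉ OJ J p)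

/-- `∏ (1 - ν(p)/p)` -/
noncomputable def PJ (k y : ℕ) (J : Finset ℕ) : ℝ := ∏ p ∈ QQ k y, (1 - d1 (OJ J) p)

/-- `⌊X^δ⌋` -/
noncomputable def yy (δ : ℝ) (X : ℕ) : ℕ := ⌊(X : ℝ) ^ δ⌋₊

open Classical in
/-- indicator of the admissible cofactors `m` -/
noncomputable def gg (ε δ : ℝ) (q b X m : ℕ) : ℝ :=
  if 1 < m ∧ (m : ℝ) ≤ (X : ℝ) ^ ε ∧ (∀ l : ℕ, l.Prime → l ∣ m → yy δ X < l) ∧
    m.primeFactorsList.length ≡ b [MOD q] then 1 else 0

/-- `x = m p` with `p` prime, `m` admissible -/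
def Good (ε δ : ℝ) (q b X x : ℕ) : Prop :=
  ∃ m p : ℕ, p.Prime ∧ x = m * p ∧ 1 < m ∧ (m : ℝ) ≤ (X : ℝ) ^ ε ∧
    (∀ l : ℕ, l.Prime → l ∣ x → yy δ X < l) ∧ m.primeFactorsList.length ≡ b [MOD q]

end Pool.Agent.Lib.DZ
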