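import Pool.Agent.Lib.DHJ.Main
import Pool.Agent.Lib.MP_092512_nt.DZ.Core
import Pool.Agent.Lib.MP_092512_nt.DZ.Blk

/-!
# DZ-Pat: patterns in good numbers, from the density Hales-Jewett theorem

PROOF. `α := {h // h ∈ H}`, `c0` from `core`, `r0 := max 1 N`, `N` the number of `DHJ.hj α` for `c0/20`. `k := |H|^r0` (`≥ 1`), `L := LL k`,
`δ, C1` from `core` for `k`; `r := r0 * L`, `C` large. Let `x : Fin r → ℕ`, `1 ≤ x i`, `C x i ≤ X`. `B` from `blocks`,
`z t := ∑_{i ∈ B t} x i` (positive, divisible by `L`). For `w : Fin r0 → α` put `f w := ∑_t z t * (w t : ℕ)`; `J := univ.image f`,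
`1 ≤ |J| ≤ k`, `L ∣ f w`, `f w ≤ r · (max x) · (max H) ≤ X` if `C ≥ r (max H + 1)`. Let `R, U` be from `core`. For `n ∈ R` let
`A_n := {w | Good (n + f w)}`. `∑_{n∈R} |A_n| = ∑_w #{n ∈ R : Good (n + f w)} ≥ |α|^r0 c0 U`. Let `R'` := the `n ∈ R` with
`|A_n| ≥ (c0/20) |α|^r0`: `c0 U |α|^r0 ≤ |R'| |α|^r0 + 5 U (c0/20) |α|^r0`, so `|R'| ≥ (c0/2) U`. For `n ∈ R'` `hj` gives a line with
all points in `A_n`; it is determined by its word in `Fin r0 → Option α` (`idxFun`), so by pigeonhole one line `l` works for at least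
`(c0/2) U/(|α|+1)^r0` of the `n ∈ R'`. `V := {t | l.idxFun t = none} ≠ ∅`, `S := ⋃_{t∈V} B t`, `c := ∑_{t∉V} z t * (letter)`:
`f (l h) = c + (∑_{i∈S} x i) h`. The map `n ↦ n + c ≤ 2X + X` is injective, and `(n + c) + (∑_{i∈S} x i) h = n + f (l h)` is good for all `h`.
`(c0/2) U/(|α|+1)^r0 ≥ X/(log X)^(C1+1)` for large `X`.
-/

set_option autoImplicit false

open Finset

namespace Pool.Agent.Lib.DZ

/-- the letter of a fixed position -/
def patLet {α : Type} (g : α → ℕ) (o : Option α) : ℕ := o.elim 0 g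

theorem pat_line {α : Type} {r : ℕ} (l : Combinatorics.Line α (Fin r)) (g : α → ℕ) (z : Fin r → ℕ)
    (h : α) : ∑ t, z t * g (l h t) = ∑ t, z t * patLet g (l.idxFun t) +
      (∑ t ∈ univ.filter (fun t => (l.idxFun t).isNone), z t) * g h := by
  rw [sum_filter, sum_mul, ← sum_add_distrib]
  refine sum_congr rfl fun t _ => ?_
  rw [Combinatorics.Line.apply_def]
  rcases ho : l.idxFun t with _ | a
  · simp [patLet, ho]
  · simp [patLet, ho]

theorem pat_pigeon {β : Type} [Fintype β] [Nonempty β] [DecidableEq β] (R : Finset ℕ) (g : ℕ → β) :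
    ∃ v : β, (R.card : ℝ) / (Fintype.card β : ℝ) ≤ ((R.filter fun n => g n = v).card : ℝ) := by
  have hc : (0 : ℝ) < Fintype.card β := by exact_mod_cast Fintype.card_pos
  have h1 : ∑ v : β, (R.card : ℝ) / (Fintype.card β : ℝ) ≤
      ∑ v : β, ((R.filter fun n => g n = v).card : ℝ) := by
    rw [sum_const, card_univ, nsmul_eq_mul, mul_div_cancel₀ _ hc.ne']
    have h2 : R.card = ∑ v : β, (R.filter fun n => g n = v).card :=
      card_eq_sum_card_fiberwise fun n _ => mem_univ _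
    exact le_of_eq (by exact_mod_cast h2)
  obtain ⟨v, -, hv⟩ := exists_le_of_sum_le univ_nonempty h1
  exact ⟨v, hv⟩

open Classical in
/-- double counting -/
theorem pat_count {β : Type} [Fintype β] (R : Finset ℕ) (G : ℕ → β → Prop) {c U : ℝ}
    (hc : 0 < c) (hU : 0 < U) (hR : (R.card : ℝ) ≤ 5 * U)
    (h : ∀ w : β, c * U ≤ ((R.filter fun n => G n w).card : ℝ)) (hβ : 0 < Fintype.card β) :
    c / 2 * U ≤ ((R.filter fun n => c / 20 * (Fintype.card β : ℝ) ≤
      ((univ.filter fun w => G n w).card : ℝ)).card : ℝ) := by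
  set K : ℝ := (Fintype.card β : ℝ) with hK
  have hK0 : 0 < K := by rw [hK]; exact_mod_cast hβ
  set R' := R.filter fun n => c / 20 * K ≤ ((univ.filter fun w => G n w).card : ℝ) with hR'
  have h1 : ∑ n ∈ R, ((univ.filter fun w => G n w).card : ℝ) =
      ∑ w : β, ((R.filter fun n => G n w).card : ℝ) := by
    have h2 : ∀ n ∈ R, ((univ.filter fun w => G n w).card : ℝ) =
        ∑ w : β, if G n w then (1 : ℝ) else 0 := by
      intro n _
      rw [card_filter]
      push_cast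
      rfl
    have h3 : ∀ w ∈ (univ : Finset β), ((R.filter fun n => G n w).card : ℝ) =
        ∑ n ∈ R, if G n w then (1 : ℝ) else 0 := by
      intro w _
      rw [card_filter]
      push_cast
      rfl
    rw [sum_congr rfl h2, sum_congr rfl h3, sum_comm]
  have h2 : K * (c * U) ≤ ∑ w : β, ((R.filter fun n => G n w).card : ℝ) := by
    have h3 := sum_le_sum (s := (univ : Finset β)) fun w _ => h w
    rwa [sum_const, card_univ, nsmul_eq_mul] at h3
  have h3 : ∑ n ∈ R, ((univ.filter fun w => G n w).card : ℝ) ≤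
      ∑ n ∈ R, ((if n ∈ R' then K else 0) + c / 20 * K) := by
    refine sum_le_sum fun n hn => ?_
    have hle : ((univ.filter fun w => G n w).card : ℝ) ≤ K := by
      rw [hK]
      exact_mod_cast (card_le_card (filter_subset _ _)).trans (le_of_eq card_univ)
    by_cases h4 : n ∈ R'
    · rw [if_pos h4]
      have h5 : 0 ≤ c / 20 * K := by positivity
      linarith
    · rw [if_neg h4, zero_add]
      by_contra h5
      exact h4 (by rw [hR', mem_filter]; exact ⟨hn, (not_le.1 h5).le⟩)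
  rw [sum_add_distrib, ← sum_filter, sum_const, sum_const, nsmul_eq_mul, nsmul_eq_mul] at h3
  have h4 : R.filter (fun n => n ∈ R') = R' := by
    ext n
    rw [mem_filter]
    exact ⟨fun h => h.2, fun h => ⟨(mem_filter.1 h).1, h⟩⟩
  rw [h4] at h3
  have h5 : (R.card : ℝ) * (c / 20 * K) ≤ 5 * U * (c / 20 * K) :=
    mul_le_mul_of_nonneg_right hR (by positivity)
  have h6 : K * (c * U) ≤ (R'.card : ℝ) * K + 5 * U * (c / 20 * K) := by
    rw [← h1] at h2
    linarith
  have h7 : (c / 2 * U) * K ≤ (R'.card : ℝ) * K := by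
    have h8 : 0 ≤ c * U * K := by positivity
    nlinarith
  exact le_of_mul_le_mul_right h7 hK0

open Classical in
theorem pat (H : Finset ℕ) (hH : H.Nonempty) (ε : ℝ) (hε : 0 < ε) (hε4 : ε ≤ 1 / 4) (q b : ℕ) (hq : 1 ≤ q) :
    ∃ (δ : ℝ) (r C X₀ : ℕ), 0 < δ ∧ 1 ≤ r ∧ ∀ X : ℕ, X₀ ≤ X → ∀ x : Fin r → ℕ, (∀ i, 1 ≤ x i ∧ C * x i ≤ X) →
      ∃ S : Finset (Fin r), S.Nonempty ∧ (X : ℝ) / (Real.log X) ^ C ≤
        (((Icc 1 (3 * X)).filter fun n => ∀ h ∈ H, Good ε δ q b X (n + (∑ i ∈ S, x i) * h)).card : ℝ) := by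
  obtain ⟨c0, hc0, hcore⟩ := core ε hε hε4 q hq
  have hne : Nonempty {h // h ∈ H} := by
    obtain ⟨h, hh⟩ := hH
    exact ⟨⟨h, hh⟩⟩
  obtain ⟨N, hN⟩ := DHJ.hj {h // h ∈ H} (c0 / 20) (by positivity)
  set a : ℕ := Fintype.card {h // h ∈ H} with ha
  have ha1 : 1 ≤ a := Fintype.card_pos
  set r0 : ℕ := max 1 N with hr0
  have hr01 : 1 ≤ r0 := le_max_left _ _
  set k : ℕ := a ^ r0 with hk
  have hk1 : 1 ≤ k := Nat.one_le_pow _ _ ha1
  set L : ℕ := LL k with hL
  have hL1 : 1 ≤ L := primorial_pos _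
  obtain ⟨δ, hδ, C1, X1, hmain⟩ := hcore k hk1
  set r : ℕ := r0 * L with hr
  have hr1 : 1 ≤ r := Nat.mul_pos hr01 hL1
  set M : ℕ := H.sup id with hM
  have hMle : ∀ h : {h // h ∈ H}, (h : ℕ) ≤ M := fun h => le_sup (f := id) h.2
  set C : ℕ := C1 + 1 + r0 * r * (M + 1) with hC
  set Λ : ℝ := max 1 (2 * ((a : ℝ) + 1) ^ r0 / c0) with hΛ
  refine ⟨δ, r, C, max X1 ⌈Real.exp Λ⌉₊, hδ, hr1, fun X hX x hx => ?_⟩
  have hX1 : X1 ≤ X := (le_max_left _ _).trans hX
  have hexp : Real.exp Λ ≤ X := (Nat.le_ceil _).trans (by exact_mod_cast (le_max_right _ _).trans hX)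
  have hXpos : (0 : ℝ) < X := (Real.exp_pos _).trans_le hexp
  have hlog : Λ ≤ Real.log X := by
    rw [← Real.log_exp Λ]
    exact Real.log_le_log (Real.exp_pos _) hexp
  have hlog1 : 1 ≤ Real.log X := (le_max_left _ _).trans hlog
  have hlog2 : 2 * ((a : ℝ) + 1) ^ r0 / c0 ≤ Real.log X := (le_max_right _ _).trans hlog
  have hlog0 : 0 < Real.log X := by linarith
  obtain ⟨B, hB1, hB2, hB3⟩ := blocks L r0 hL1 x
  set z : Fin r0 → ℕ := fun t => ∑ i ∈ B t, x i with hz
  set f : (Fin r0 → {h // h ∈ H}) → ℕ := fun w => ∑ t, z t * (w t : ℕ) with hf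
  have hfL : ∀ w, L ∣ f w := fun w => dvd_sum fun t _ => Dvd.dvd.mul_right (hB3 t) _
  have hfX : ∀ w, f w ≤ X := by
    intro w
    have h1 : f w ≤ r0 * ((∑ i, x i) * M) := by
      have h2 : f w ≤ ∑ t : Fin r0, (∑ i, x i) * M :=
        sum_le_sum fun t _ => Nat.mul_le_mul (sum_le_sum_of_subset (subset_univ _)) (hMle _)
      rwa [sum_const, card_univ, Fintype.card_fin, smul_eq_mul] at h2
    have h2 : C * ∑ i, x i ≤ r * X := by
      rw [mul_sum]
      refine (sum_le_sum fun i _ => (hx i).2).trans (le_of_eq ?_)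
      rw [sum_const, card_univ, Fintype.card_fin, smul_eq_mul]
    have hC0 : 0 < C := by omega
    refine le_of_mul_le_mul_left (α := ℕ) ?_ hC0
    calc C * f w ≤ C * (r0 * ((∑ i, x i) * M)) := Nat.mul_le_mul_left _ h1
      _ = r0 * M * (C * ∑ i, x i) := by ring
      _ ≤ r0 * M * (r * X) := Nat.mul_le_mul_left _ h2
      _ = (r0 * r * M) * X := by ring
      _ ≤ C * X := by
        refine Nat.mul_le_mul_right _ ?_
        have h3 : r0 * r * M ≤ r0 * r * (M + 1) := Nat.mul_le_mul_left _ (Nat.le_succ _)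
        omega
  set J : Finset ℕ := univ.image f with hJ
  have hcardβ : Fintype.card (Fin r0 → {h // h ∈ H}) = k := by
    rw [Fintype.card_fun, Fintype.card_fin]
  have hJne : J.Nonempty := by
    obtain ⟨h⟩ := hne
    exact ⟨f fun _ => h, mem_image_of_mem _ (mem_univ _)⟩
  have hJk : J.card ≤ k := by
    refine card_image_le.trans (le_of_eq ?_)
    rw [card_univ, hcardβ]
  obtain ⟨U, R, hU1, hR1, hR2, hR3⟩ := hmain X hX1 J hJne hJk (by
    intro j hj
    rw [hJ, mem_image] at hj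
    obtain ⟨w, -, rfl⟩ := hj
    exact ⟨hfX w, hfL w⟩) b
  have hU0 : 0 < U := lt_of_lt_of_le (by positivity) hU1
  have hcount := pat_count R (fun n w => Good ε δ q b X (n + f w)) hc0 hU0 hR2
    (fun w => hR3 (f w) (mem_image_of_mem _ (mem_univ _))) (by rw [hcardβ]; omega)
  set R' := R.filter fun n => c0 / 20 * (Fintype.card (Fin r0 → {h // h ∈ H}) : ℝ) ≤
    ((univ.filter fun w : Fin r0 → {h // h ∈ H} => Good ε δ q b X (n + f w)).card : ℝ) with hR'
  have hline : ∀ n ∈ R', ∃ l : Combinatorics.Line {h // h ∈ H} (Fin r0), ∀ h,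
      Good ε δ q b X (n + f (l h)) := by
    intro n hn
    have h1 := (mem_filter.1 hn).2
    obtain ⟨l, hl⟩ := hN (Fin r0) (by rw [Fintype.card_fin]; exact le_max_right _ _)
      (univ.filter fun w : Fin r0 → {h // h ∈ H} => Good ε δ q b X (n + f w)) (by
        refine le_trans (le_of_eq ?_) h1
        rw [hcardβ, Fintype.card_fin, hk]
        push_cast
        rfl)
    exact ⟨l, fun h => (mem_filter.1 (hl h)).2⟩
  have hl0 : Nonempty (Combinatorics.Line {h // h ∈ H} (Fin r0)) :=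
    ⟨⟨fun _ => none, ⟨⟨0, hr01⟩, rfl⟩⟩⟩
  choose! ln hln using hline
  obtain ⟨v, hv⟩ := pat_pigeon R' fun n => (ln n).idxFun
  set T := R'.filter fun n => (ln n).idxFun = v with hT
  have hopt : (Fintype.card (Fin r0 → Option {h // h ∈ H}) : ℝ) = ((a : ℝ) + 1) ^ r0 := by
    rw [Fintype.card_fun, Fintype.card_fin, Fintype.card_option]
    push_cast
    rfl
  rw [hopt] at hv
  have ha0 : (0 : ℝ) < ((a : ℝ) + 1) ^ r0 := by positivity
  have hTcard : c0 / 2 * U / ((a : ℝ) + 1) ^ r0 ≤ (T.card : ℝ) :=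
    (div_le_div_of_nonneg_right hcount ha0.le).trans hv
  have hTpos : 0 < (T.card : ℝ) := lt_of_lt_of_le (by positivity) hTcard
  have hTne : T.Nonempty := by
    rw [← card_pos]
    exact_mod_cast hTpos
  obtain ⟨n0, hn0⟩ := hTne
  set l := ln n0 with hl
  have hlv : l.idxFun = v := (mem_filter.1 hn0).2
  have hgood : ∀ n ∈ T, ∀ h, Good ε δ q b X (n + f (l h)) := by
    intro n hn h
    have h1 : (ln n).idxFun = l.idxFun := by rw [hlv, (mem_filter.1 hn).2]
    have h2 : ln n h = l h := by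
      funext t
      rw [Combinatorics.Line.apply_def, Combinatorics.Line.apply_def, h1]
    rw [← h2]
    exact hln n (mem_filter.1 hn).1 h
  set V : Finset (Fin r0) := univ.filter fun t => (l.idxFun t).isNone with hV
  set cst : ℕ := ∑ t, z t * patLet (fun h : {h // h ∈ H} => (h : ℕ)) (l.idxFun t) with hcst
  have hfl : ∀ h : {h // h ∈ H}, f (l h) = cst + (∑ t ∈ V, z t) * (h : ℕ) := fun h =>
    pat_line l (fun h : {h // h ∈ H} => (h : ℕ)) z h
  have hVne : V.Nonempty := by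
    obtain ⟨t, ht⟩ := l.proper
    exact ⟨t, by rw [hV, mem_filter]; exact ⟨mem_univ _, by rw [ht]; rfl⟩⟩
  have hS : ∑ i ∈ V.biUnion B, x i = ∑ t ∈ V, z t :=
    sum_biUnion fun t _ t' _ htt => hB2 t t' htt
  have hcstX : cst ≤ X := by
    obtain ⟨h⟩ := hne
    have h1 := hfX (l h)
    rw [hfl h] at h1
    omega
  refine ⟨V.biUnion B, ?_, ?_⟩
  · obtain ⟨t, ht⟩ := hVne
    obtain ⟨i, hi⟩ := hB1 t
    exact ⟨i, mem_biUnion.2 ⟨t, ht, hi⟩⟩
  · have h1 : T.card ≤ ((Icc 1 (3 * X)).filter fun n => ∀ h ∈ H,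
        Good ε δ q b X (n + (∑ i ∈ V.biUnion B, x i) * h)).card := by
      refine card_le_card_of_injOn (fun n => n + cst) ?_ ?_
      · intro n hn
        rw [Finset.mem_coe] at hn
        have h2 := mem_Icc.1 (hR1 (mem_filter.1 (mem_filter.1 hn).1).1)
        rw [Finset.mem_coe, mem_filter, mem_Icc]
        have h5 : 1 ≤ n + cst := by omega
        have h6 : n + cst ≤ 3 * X := by omega
        refine ⟨⟨h5, h6⟩, fun h hh => ?_⟩
        have h3 := hgood n hn ⟨h, hh⟩
        rw [hfl] at h3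
        rw [hS]
        have h4 : n + cst + (∑ t ∈ V, z t) * h = n + (cst + (∑ t ∈ V, z t) * h) := by ring
        rw [h4]
        exact h3
      · intro n _ n' _ h
        exact Nat.add_right_cancel h
    have h2 : (T.card : ℝ) ≤ (((Icc 1 (3 * X)).filter fun n => ∀ h ∈ H,
        Good ε δ q b X (n + (∑ i ∈ V.biUnion B, x i) * h)).card : ℝ) := by exact_mod_cast h1
    refine le_trans ?_ (hTcard.trans h2)
    have h3 : (X : ℝ) / Real.log X ^ C ≤ X / Real.log X ^ (C1 + 1) :=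
      div_le_div_of_nonneg_left hXpos.le (by positivity)
        (pow_le_pow_right₀ hlog1 (by omega))
    have h4 : (X : ℝ) / Real.log X ^ (C1 + 1) = X / Real.log X ^ C1 / Real.log X := by
      rw [pow_succ, div_div]
    have h5 : (X : ℝ) / Real.log X ^ C1 / Real.log X ≤ U / Real.log X :=
      div_le_div_of_nonneg_right hU1 hlog0.le
    have h6 : U / Real.log X ≤ c0 / 2 * U / ((a : ℝ) + 1) ^ r0 := by
      rw [div_le_div_iff₀ hlog0 ha0]
      have h7 : ((a : ℝ) + 1) ^ r0 ≤ c0 / 2 * Real.log X := by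
        rw [div_le_iff₀ hc0] at hlog2
        linarith
      calc U * ((a : ℝ) + 1) ^ r0 ≤ U * (c0 / 2 * Real.log X) :=
            mul_le_mul_of_nonneg_left h7 hU0.le
        _ = c0 / 2 * U * Real.log X := by ring
    rw [h4] at h3
    exact h3.trans (h5.trans h6)

end Pool.Agent.Lib.DZ
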