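import Pool.Agent.Lib.MP_092512_nt.DZ.Pat

/-!
# DZ-Thm: the theorem

PROOF. Replace `ε` by `min ε (1/4)`; `b := a + (q - 1)` (`b + 1 ≡ a` mod `q`). `pat` gives `δ, r, C1, X₁`. Given `X` large put
`X' := X/3` (floor). `C := ` maximum of `4 C1`, `C1 + 2`, `⌈4/δ⌉`, .... If `C x i ≤ X` then `C1 x i ≤ X'` (`X' ≥ X/4`). A good number
`x = m p` for `X'`: `m ≤ X'^ε ≤ X^ε`, a prime `l ∣ x` has `l > ⌊X'^δ⌋`, so `l ≥ X'^δ ≥ X^(δ/2)`..., `l^C > X` for `C ≥ 4/δ`;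
`Ω(x) = Ω(m) + 1 ≡ b + 1 ≡ a` mod `q` (`Nat.primeFactorsList` of a product: `Nat.perm_primeFactorsList_mul`), and `Ω(x) ≤ C`
because `x ≤ 3X' + (∑ x) (max H) ≤ X^2`... (with `l^C0 > X` for all prime factors, `C0 := ⌈4/δ⌉`, `x ≤ X^2` gives `Ω(x) ≤ 2 C0`).
The number of `n ≤ 3X' ≤ X` is at least `X'/(log X')^C1 ≥ X/(log X)^C`.
-/

set_option autoImplicit false

open Finset

namespace Pool.Agent.Lib.DZ

/-- `n = m p`, `p` prime, `m ≤ X^ε`, all prime factors of `n` exceed `X^(1/C)`, `Ω(n) ≤ C`, `Ω(n) ≡ a` mod `q` -/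
def NearPrime (X : ℕ) (ε : ℝ) (C q a n : ℕ) : Prop :=
  (∃ m p : ℕ, p.Prime ∧ n = m * p ∧ (m : ℝ) ≤ (X : ℝ) ^ ε) ∧ (∀ l : ℕ, l.Prime → l ∣ n → X < l ^ C) ∧
    n.primeFactorsList.length ≤ C ∧ n.primeFactorsList.length ≡ a [MOD q]

private theorem list_aux (Y C0 : ℕ) : ∀ L : List ℕ, (∀ l ∈ L, Y < l ^ C0) → Y ^ L.length ≤ L.prod ^ C0 := by
  intro L
  induction L with
  | nil => intro _; simp
  | cons c L ih =>
    intro h
    have h1 := ih (fun l hl => h l (List.mem_cons_of_mem _ hl))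
    have h2 := h c List.mem_cons_self
    rw [List.length_cons, List.prod_cons, pow_succ, mul_pow, mul_comm]
    exact Nat.mul_le_mul h2.le h1

private theorem Omega_le (Y C0 x : ℕ) (hY : 1 < Y) (hx : x ≠ 0) (hxY : x ≤ Y)
    (h : ∀ l : ℕ, l.Prime → l ∣ x → Y < l ^ C0) : x.primeFactorsList.length ≤ C0 := by
  have h1 := list_aux Y C0 x.primeFactorsList (fun l hl => by
    rw [Nat.mem_primeFactorsList hx] at hl
    exact h l hl.1 hl.2)
  rw [Nat.prod_primeFactorsList hx] at h1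
  have h2 : Y ^ x.primeFactorsList.length ≤ Y ^ C0 := h1.trans (Nat.pow_le_pow_left hxY C0)
  exact (Nat.pow_le_pow_iff_right hY).mp h2

private theorem near_of_good (ε δ : ℝ) (q a X Y C0 C x : ℕ) (hq : 1 ≤ q) (hδC : 4 ≤ δ * C0) (hX' : 4 ≤ X / 3)
    (hx : x ≠ 0) (hxY : x ≤ X ^ 2) (hC : C0 ≤ C) (hY : Y = X / 3)
    (hg : Good (min ε (1 / 4)) δ q (a + (q - 1)) Y x) : NearPrime X ε C q a x := by
  obtain ⟨m, p, hp, hxmp, hm1, hmX, hl, hmod⟩ := hg
  have hYX : Y ≤ X := by rw [hY]; exact Nat.div_le_self _ _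
  have hY4 : 4 ≤ Y := by rw [hY]; exact hX'
  have hX1 : 1 ≤ X := by omega
  have hXY : X < Y ^ 2 := by
    have h1 : X ≤ 3 * Y + 2 := by rw [hY]; omega
    nlinarith
  have hlarge : ∀ l : ℕ, l.Prime → l ∣ x → X ^ 2 < l ^ C0 := by
    intro l hlp hlx
    have h1 := hl l hlp hlx
    have h2 : (Y : ℝ) ^ δ < (l : ℝ) := by
      unfold yy at h1
      exact (Nat.floor_lt (by positivity)).mp h1
    have h3 : ((Y : ℝ) ^ δ) ^ C0 ≤ (l : ℝ) ^ C0 := pow_le_pow_left₀ (by positivity) h2.le _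
    have h4 : ((Y : ℝ) ^ δ) ^ C0 = (Y : ℝ) ^ (δ * C0) := by
      rw [Real.rpow_mul (by positivity), Real.rpow_natCast]
    have hY1 : (1 : ℝ) ≤ (Y : ℝ) := by exact_mod_cast (by omega : 1 ≤ Y)
    have h5 : (Y : ℝ) ^ (4 : ℕ) ≤ (Y : ℝ) ^ (δ * C0) := by
      rw [← Real.rpow_natCast]
      exact Real.rpow_le_rpow_of_exponent_le hY1 (by exact_mod_cast hδC)
    have h6 : (Y : ℝ) ^ (4 : ℕ) ≤ (l : ℝ) ^ C0 := by rw [h4] at h3; exact h5.trans h3
    have h7 : Y ^ 4 ≤ l ^ C0 := by exact_mod_cast h6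
    have h8 : X ^ 2 < (Y ^ 2) ^ 2 := Nat.pow_lt_pow_left hXY (by norm_num)
    have h9 : (Y ^ 2) ^ 2 = Y ^ 4 := by ring
    omega
  refine ⟨⟨m, p, hp, hxmp, ?_⟩, ?_, ?_, ?_⟩
  · refine hmX.trans ?_
    have h1 : (Y : ℝ) ^ (min ε (1 / 4)) ≤ (X : ℝ) ^ (min ε (1 / 4)) ∨ min ε (1 / 4) < 0 := by
      by_cases h : min ε (1 / 4) < 0
      · exact Or.inr h
      · left
        exact Real.rpow_le_rpow (by positivity) (by exact_mod_cast hYX) (not_lt.mp h)
    rcases h1 with h1 | h1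
    · refine h1.trans (Real.rpow_le_rpow_of_exponent_le (by exact_mod_cast hX1) (min_le_left _ _))
    · exfalso
      have h2 : (Y : ℝ) ^ (min ε (1 / 4)) ≤ 1 :=
        Real.rpow_le_one_of_one_le_of_nonpos (by exact_mod_cast (by omega : 1 ≤ Y)) h1.le
      have h3 : (m : ℝ) ≤ 1 := hmX.trans h2
      have h4 : m ≤ 1 := by exact_mod_cast h3
      omega
  · intro l hlp hlx
    have h1 := hlarge l hlp hlx
    have h2 : X ≤ X ^ 2 := by nlinarith
    have h3 : l ^ C0 ≤ l ^ C := Nat.pow_le_pow_right hlp.pos hC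
    omega
  · refine (Omega_le (X ^ 2) C0 x ?_ hx hxY hlarge).trans hC
    nlinarith
  · have hm0 : m ≠ 0 := by omega
    have hp0 : p ≠ 0 := hp.ne_zero
    have h1 : x.primeFactorsList.length = m.primeFactorsList.length + 1 := by
      rw [hxmp, (Nat.perm_primeFactorsList_mul hm0 hp0).length_eq, List.length_append,
        Nat.primeFactorsList_prime hp]
      rfl
    rw [h1]
    have h2 : m.primeFactorsList.length + 1 ≡ (a + (q - 1)) + 1 [MOD q] := hmod.add_right 1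
    have h3 : (a + (q - 1)) + 1 = a + q := by omega
    rw [h3] at h2
    refine h2.trans ?_
    have : a + q ≡ a [MOD q] := by simp [Nat.ModEq]
    exact this

private theorem card_aux (X C1 C : ℕ) (hC : C1 + 1 ≤ C) (hX : 9 ≤ X) (hlog : 4 ≤ Real.log X) :
    (X : ℝ) / (Real.log X) ^ C ≤ ((X / 3 : ℕ) : ℝ) / (Real.log ((X / 3 : ℕ) : ℝ)) ^ C1 := by
  have hX3 : 3 ≤ X / 3 := by omega
  have h1 : (1 : ℝ) < ((X / 3 : ℕ) : ℝ) := by exact_mod_cast (by omega : 1 < X / 3)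
  have h2 : 0 < Real.log ((X / 3 : ℕ) : ℝ) := Real.log_pos h1
  have h3 : Real.log ((X / 3 : ℕ) : ℝ) ≤ Real.log X :=
    Real.log_le_log (by linarith) (by exact_mod_cast Nat.div_le_self _ _)
  have hL : (0 : ℝ) < Real.log X := by linarith
  have h4 : (X : ℝ) ≤ 4 * ((X / 3 : ℕ) : ℝ) := by exact_mod_cast (by omega : X ≤ 4 * (X / 3))
  calc (X : ℝ) / (Real.log X) ^ C ≤ (X : ℝ) / (Real.log X) ^ (C1 + 1) := by
        apply div_le_div_of_nonneg_left (by positivity) (by positivity)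
        exact pow_le_pow_right₀ (by linarith) hC
    _ ≤ (4 * ((X / 3 : ℕ) : ℝ)) / (Real.log X) ^ (C1 + 1) := by
        apply div_le_div_of_nonneg_right h4 (by positivity)
    _ = ((X / 3 : ℕ) : ℝ) / (Real.log X) ^ C1 * (4 / Real.log X) := by
        rw [pow_succ]; field_simp
    _ ≤ ((X / 3 : ℕ) : ℝ) / (Real.log X) ^ C1 * 1 := by
        apply mul_le_mul_of_nonneg_left _ (by positivity)
        rw [div_le_one hL]; exact hlog
    _ = ((X / 3 : ℕ) : ℝ) / (Real.log X) ^ C1 := by ring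
    _ ≤ ((X / 3 : ℕ) : ℝ) / (Real.log ((X / 3 : ℕ) : ℝ)) ^ C1 := by
        apply div_le_div_of_nonneg_left (by positivity) (by positivity)
        exact pow_le_pow_left₀ h2.le h3 _

open Classical in
theorem thm (H : Finset ℕ) (ε : ℝ) (hε : 0 < ε) (q a : ℕ) (hq : 1 ≤ q) :
    ∃ r C X₀ : ℕ, 1 ≤ r ∧ ∀ X : ℕ, X₀ ≤ X → ∀ x : Fin r → ℕ, (∀ i, 1 ≤ x i ∧ C * x i ≤ X) →
      ∃ S : Finset (Fin r), S.Nonempty ∧ (X : ℝ) / (Real.log X) ^ C ≤
        (((Icc 1 X).filter fun n => ∀ h ∈ H, NearPrime X ε C q a (n + (∑ i ∈ S, x i) * h)).card : ℝ) := by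
  obtain ⟨δ, r, C1, X₁, hδ, hr, hp⟩ := pat (insert 0 H) (Finset.insert_nonempty 0 H) (min ε (1 / 4))
    (lt_min hε (by norm_num)) (min_le_right _ _) q (a + (q - 1)) hq
  obtain ⟨C0, hC0⟩ : ∃ C0 : ℕ, 4 ≤ δ * C0 := by
    obtain ⟨n, hn⟩ := exists_nat_ge (4 / δ)
    refine ⟨n, ?_⟩
    rw [div_le_iff₀ hδ] at hn
    linarith
  obtain ⟨X₂, hX₂⟩ : ∃ X₂ : ℕ, Real.exp 4 ≤ X₂ := exists_nat_ge _
  set M := ∑ h ∈ H, h with hM
  set C := max (4 * C1) (max (C1 + 1) C0) with hC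
  refine ⟨r, C, 3 * X₁ + X₂ + 12 + (1 + r * M), hr, ?_⟩
  intro X hX x hx
  have hC1 : C1 + 1 ≤ C := (le_max_left _ _).trans (le_max_right _ _)
  have hC4 : 4 * C1 ≤ C := le_max_left _ _
  have hCC0 : C0 ≤ C := (le_max_right _ _).trans (le_max_right _ _)
  have hX12 : 12 ≤ X := by omega
  have hlog : 4 ≤ Real.log X := by
    have h1 : Real.exp 4 ≤ (X : ℝ) := hX₂.trans (by exact_mod_cast (by omega : X₂ ≤ X))
    exact (Real.le_log_iff_exp_le (by exact_mod_cast (by omega : 0 < X))).mpr h1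
  obtain ⟨S, hS, hcard⟩ := hp (X / 3) (by omega) x (fun i => ⟨(hx i).1, by
    rw [Nat.le_div_iff_mul_le (by norm_num)]
    have h1 := (hx i).2
    have h2 : 4 * C1 * x i ≤ C * x i := Nat.mul_le_mul_right _ hC4
    nlinarith⟩)
  refine ⟨S, hS, (card_aux X C1 C hC1 (by omega) hlog).trans (hcard.trans ?_)⟩
  have hsub : ((Icc 1 (3 * (X / 3))).filter fun n => ∀ h ∈ insert 0 H,
      Good (min ε (1 / 4)) δ q (a + (q - 1)) (X / 3) (n + (∑ i ∈ S, x i) * h)) ⊆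
      ((Icc 1 X).filter fun n => ∀ h ∈ H, NearPrime X ε C q a (n + (∑ i ∈ S, x i) * h)) := by
    intro n hn
    rw [Finset.mem_filter, Finset.mem_Icc] at hn ⊢
    obtain ⟨⟨hn1, hn2⟩, hn3⟩ := hn
    refine ⟨⟨hn1, by omega⟩, ?_⟩
    intro h hh
    have hhM : h ≤ M := Finset.single_le_sum (f := fun h => h) (fun _ _ => Nat.zero_le _) hh
    have hsum : ∑ i ∈ S, x i ≤ r * X := by
      calc ∑ i ∈ S, x i ≤ ∑ i ∈ S, X := by
            apply Finset.sum_le_sum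
            intro i _
            have h1 := (hx i).2
            have h2 : 1 * x i ≤ C * x i := Nat.mul_le_mul_right _ (by omega)
            omega
        _ = S.card * X := by rw [Finset.sum_const, smul_eq_mul]
        _ ≤ r * X := by
            apply Nat.mul_le_mul_right
            have := Finset.card_le_univ S
            rwa [Fintype.card_fin] at this
    refine near_of_good ε δ q a X (X / 3) C0 C _ hq hC0 (by omega) (by omega) ?_ hCC0 rfl
      (hn3 h (Finset.mem_insert_of_mem hh))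
    have h1 : (∑ i ∈ S, x i) * h ≤ (r * X) * M := Nat.mul_le_mul hsum hhM
    have h2 : n ≤ X := by omega
    have h3 : 1 + r * M ≤ X := by omega
    calc n + (∑ i ∈ S, x i) * h ≤ X + (r * X) * M := Nat.add_le_add h2 h1
      _ = (1 + r * M) * X := by ring
      _ ≤ X * X := Nat.mul_le_mul_right _ h3
      _ = X ^ 2 := by ring
  exact_mod_cast Finset.card_le_card hsub

end Pool.Agent.Lib.DZ
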