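import Pool.Agent.Lib.MP_092512_nt.DZ.Defs

/-!
# DZ-Up: upper bound for the number of the `n` in `RR`

PROOF. Let `s` be the number of `MTR.fl k`, `δ1 := 1/(8 s + 8)`, `L := LL k`. For `y ≤ X^δ1`, `y ≥ 2`, apply the
conclusion of `fl k` with `Q := QQ k y`: `D`, `cp`. `1_{n % p ∉ Ω p ∀ p ∈ Q} ≤ Lm D cp Ω n` with `Ω := OJ J`. So
`|RR| ≤ ∑_{n ≤ 2X, n ≡ 1 (L)} Lm D cp Ω n = ∑_{d ∈ D} cp d · N_d`, `N_d := #{n ≤ 2X : n ≡ 1 (L), n % p ∈ Ω p ∀ p ∈ d}`.
By the Chinese remainder theorem (`L` is coprime to the primes of `d`, which are `> 4k + 4`) the conditions say that `n` is in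
one of `∏_{p ∈ d} |Ω p|` classes mod `L ∏_{p∈d} p`, so `|N_d - (2X/L) ∏_{p ∈ d} |Ω p|/p| ≤ ∏_{p ∈ d} |Ω p|` (each class:
`|#{n ≤ 2X, n ≡ r (M)} - 2X/M| ≤ 1`), and `∏_{p∈d} |Ω p| ≤ ∏_{p ∈ d} p ≤ y^s` (`|Ω p| ≤ |J| ≤ k ≤ p`).
(An induction on `d` may be convenient: for the number `c(d)` of classes, or use `Nat.chineseRemainderOfFinset`;
compare `MT/Crt.lean`, `MTR/Exc.lean` (exc_ap, exc_cl), `P3/B4` (crt_shift).)
So `|RR| ≤ (2X/L) Gm D cp (d1 Ω) + ∑_{d} |cp d| y^s ≤ (2X/L) · 2 PJ + (2 + 2 log y) y^s · y^s` (`|D| ≤ y^s`: `MTR.dcard`;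
`d1 Ω p ≤ k/p ≤ 2k/p`, `0 ≤ d1`). The error is at most `X^(1/4) (2 + 2 log X) ≤ (X/L)/(log X)^C ≤ (X/L) PJ` for large `X`, `C` from
`MTR.wlow k` (`z := 4k + 4`, `Q := QQ k y`; its first conclusion).
-/

set_option autoImplicit false

open Finset

namespace Pool.Agent.Lib.DZ

open Pool.Agent.Lib.MT Pool.Agent.Lib.MTR

private theorem up_ap (r u v : ℕ) (hr : 0 < r) :
    |(((Finset.Icc 1 u).filter fun x => x ≡ v [MOD r]).card : ℝ) - (u : ℝ) / r| ≤ 1 := by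
  have h := Nat.Ioc_filter_modEq_card 0 u hr v
  have e : Finset.Icc 1 u = Finset.Ioc 0 u := by ext x; simp [Finset.mem_Icc, Finset.mem_Ioc]; omega
  rw [e]
  have hr' : (0 : ℚ) < r := by exact_mod_cast hr
  set x : ℚ := ((u : ℚ) - v) / r with hx
  set y : ℚ := (((0 : ℕ) : ℚ) - v) / r with hy
  have hxy : x - y = (u : ℚ) / r := by
    rw [hx, hy]; push_cast; ring
  have hxy0 : 0 ≤ x - y := by rw [hxy]; positivity
  have hfl : ⌊y⌋ ≤ ⌊x⌋ := Int.floor_le_floor (by linarith)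
  rw [max_eq_left (by linarith)] at h
  have h1 := Int.floor_le x
  have h2 := Int.lt_floor_add_one x
  have h3 := Int.floor_le y
  have h4 := Int.lt_floor_add_one y
  have h5 : |((⌊x⌋ - ⌊y⌋ : ℤ) : ℚ) - (u : ℚ) / r| ≤ 1 := by
    rw [← hxy, abs_le]
    push_cast
    constructor <;> linarith
  rw [← h] at h5
  have h6 : ((|(((((Finset.Ioc 0 u).filter fun x => x ≡ v [MOD r]).card : ℤ)) : ℚ) - (u : ℚ) / r| : ℚ) : ℝ) ≤
      ((1 : ℚ) : ℝ) := by exact_mod_cast h5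
  push_cast at h6
  exact h6

open Classical in
private theorem up_cnt (Y : ℕ) (Ω : ℕ → Finset ℕ) (hΩ : ∀ p, Ω p ⊆ range p) (d : Finset ℕ) :
    (∀ p ∈ d, p.Prime) → ∀ M r : ℕ, 0 < M → (∀ p ∈ d, ¬ p ∣ M) →
      |(((Icc 1 Y).filter fun n => n ≡ r [MOD M] ∧ ∀ p ∈ d, n % p ∈ Ω p).card : ℝ) -
        (Y : ℝ) / M * ∏ p ∈ d, d1 Ω p| ≤ ∏ p ∈ d, ((Ω p).card : ℝ) := by
  induction d using Finset.induction_on with
  | empty =>
    intro _ M r hM _
    have e : ((Icc 1 Y).filter fun n => n ≡ r [MOD M] ∧ ∀ p ∈ (∅ : Finset ℕ), n % p ∈ Ω p) =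
        (Icc 1 Y).filter fun n => n ≡ r [MOD M] := by
      ext n
      simp
    rw [e, prod_empty, prod_empty, mul_one]
    exact up_ap M Y r hM
  | insert p d hp ih =>
    intro hd M r hM hdM
    have hpp : p.Prime := hd p (mem_insert_self _ _)
    have hpM : ¬ p ∣ M := hdM p (mem_insert_self _ _)
    have hco : Nat.Coprime M p := ((Nat.Prime.coprime_iff_not_dvd hpp).mpr hpM).symm
    have hMp : 0 < M * p := Nat.mul_pos hM hpp.pos
    have hd' : ∀ q ∈ d, ¬ q ∣ M * p := by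
      intro q hq hdvd
      have hqp : q.Prime := hd q (mem_insert_of_mem hq)
      rcases (Nat.Prime.dvd_mul hqp).mp hdvd with h | h
      · exact hdM q (mem_insert_of_mem hq) h
      · have := (Nat.prime_dvd_prime_iff_eq hqp hpp).mp h
        rw [this] at hq
        exact hp hq
    set R : ℕ → ℕ := fun c => (Nat.chineseRemainder hco r c : ℕ) with hR
    have hR1 : ∀ c, R c ≡ r [MOD M] ∧ R c ≡ c [MOD p] := fun c =>
      (Nat.chineseRemainder hco r c).2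
    have hmap : ∀ n ∈ (Icc 1 Y).filter (fun n => n ≡ r [MOD M] ∧ ∀ q ∈ insert p d, n % q ∈ Ω q),
        n % p ∈ Ω p := by
      intro n hn
      rw [mem_filter] at hn
      exact hn.2.2 p (mem_insert_self _ _)
    have hfib := Finset.card_eq_sum_card_fiberwise (f := fun n => n % p) hmap
    have hset : ∀ c ∈ Ω p,
        (((Icc 1 Y).filter (fun n => n ≡ r [MOD M] ∧ ∀ q ∈ insert p d, n % q ∈ Ω q)).filter
          fun n => n % p = c) =
        (Icc 1 Y).filter (fun n => n ≡ R c [MOD M * p] ∧ ∀ q ∈ d, n % q ∈ Ω q) := by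
      intro c hc
      have hcp : c < p := mem_range.mp (hΩ p hc)
      ext n
      rw [mem_filter, mem_filter, mem_filter, ← Nat.modEq_and_modEq_iff_modEq_mul hco]
      constructor
      · rintro ⟨⟨h1, h2, h3⟩, h4⟩
        refine ⟨h1, ⟨h2.trans (hR1 c).1.symm, ?_⟩, fun q hq => h3 q (mem_insert_of_mem hq)⟩
        refine Nat.ModEq.trans ?_ (hR1 c).2.symm
        change n % p = c % p
        rw [h4, Nat.mod_eq_of_lt hcp]
      · rintro ⟨h1, ⟨h2, h3⟩, h4⟩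
        have h5 : n % p = c := by
          have h6 : n % p = c % p := h3.trans (hR1 c).2
          rw [h6, Nat.mod_eq_of_lt hcp]
        refine ⟨⟨h1, h2.trans (hR1 c).1, ?_⟩, h5⟩
        intro q hq
        rcases mem_insert.mp hq with rfl | hq
        · rw [h5]
          exact hc
        · exact h4 q hq
    rw [hfib]
    push_cast
    rw [sum_congr rfl fun c hc => by rw [hset c hc]]
    rw [prod_insert hp, prod_insert hp]
    have hsum : (Y : ℝ) / M * (d1 Ω p * ∏ q ∈ d, d1 Ω q) =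
        ∑ c ∈ Ω p, (Y : ℝ) / ((M * p : ℕ) : ℝ) * ∏ q ∈ d, d1 Ω q := by
      rw [sum_const, nsmul_eq_mul]
      generalize ∏ q ∈ d, d1 Ω q = Z
      have h1 : (M : ℝ) ≠ 0 := by exact_mod_cast hM.ne'
      have h2 : (p : ℝ) ≠ 0 := by exact_mod_cast hpp.pos.ne'
      rw [Nat.cast_mul]
      unfold d1
      field_simp
    rw [hsum, ← sum_sub_distrib]
    refine (abs_sum_le_sum_abs _ _).trans ?_
    refine (sum_le_sum fun c _ => ih (fun q hq => hd q (mem_insert_of_mem hq)) (M * p) (R c) hMp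
      hd').trans ?_
    rw [sum_const, nsmul_eq_mul]

private theorem up_OJ_sub (J : Finset ℕ) (p : ℕ) : OJ J p ⊆ range p := filter_subset _ _

private theorem up_OJ_card (J : Finset ℕ) (p : ℕ) : (OJ J p).card ≤ J.card := by
  have h : OJ J p ⊆ J.image fun j => (p - j % p) % p := by
    intro c hc
    unfold OJ at hc
    rw [mem_filter, mem_range] at hc
    obtain ⟨hcp, j, hj, hdvd⟩ := hc
    rw [mem_image]
    refine ⟨j, hj, ?_⟩
    have h1 : p ∣ c + j % p := by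
      have h2 : c + j = c + j % p + p * (j / p) := by
        have := Nat.mod_add_div j p
        omega
      rw [h2] at hdvd
      exact (Nat.dvd_add_iff_left (Dvd.intro _ rfl)).mpr hdvd
    have hjp : j % p < p := Nat.mod_lt _ (by omega)
    generalize j % p = m at h1 hjp ⊢
    have h3 : (p - m) % p = c := by
      obtain ⟨t, ht⟩ := h1
      have h4 : p * t < p * 2 := by
        rw [← ht, mul_two]
        exact Nat.add_lt_add hcp hjp
      have h5 : t < 2 := Nat.lt_of_mul_lt_mul_left h4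
      interval_cases t
      · rw [mul_zero] at ht
        have hc0 : c = 0 := by omega
        have hj0 : m = 0 := by omega
        rw [hj0, Nat.sub_zero, Nat.mod_self, hc0]
      · rw [mul_one] at ht
        have h6 : p - m = c := by omega
        rw [h6, Nat.mod_eq_of_lt hcp]
    exact h3
  exact (card_le_card h).trans card_image_le

theorem up (k : ℕ) : ∃ δ1 : ℝ, 0 < δ1 ∧ ∃ X₀ : ℕ, ∀ X y : ℕ, X₀ ≤ X → 2 ≤ y → (y : ℝ) ≤ (X : ℝ) ^ δ1 →
    ∀ J : Finset ℕ, J.card ≤ k →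
      ((RR k y X J).card : ℝ) ≤ 5 * ((X : ℝ) / LL k * PJ k y J) := by
  classical
  obtain ⟨s, hs, hfl⟩ := fl k
  obtain ⟨C, X₁, hlow⟩ := wlow k
  have hL0 : 0 < LL k := primorial_pos _
  have hLR : (0 : ℝ) < LL k := by exact_mod_cast hL0
  obtain ⟨X₂, hX₂⟩ : ∃ X₂ : ℕ, ∀ X : ℕ, X₂ ≤ X →
      4 * (LL k : ℝ) * Real.log X ^ (C + 1) ≤ (X : ℝ) ^ (3 / 4 : ℝ) := by
    have h1 := isLittleO_log_rpow_rpow_atTop ((C + 1 : ℕ) : ℝ) (show (0 : ℝ) < 3 / 4 by norm_num)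
    have h2 := h1.bound (show (0 : ℝ) < 1 / (4 * LL k) by positivity)
    have h3 := (tendsto_natCast_atTop_atTop (R := ℝ)).eventually h2
    obtain ⟨a, ha⟩ := Filter.eventually_atTop.mp h3
    refine ⟨max a 1, fun X hX => ?_⟩
    have h4 := ha X ((le_max_left _ _).trans hX)
    have hX1 : (1 : ℝ) ≤ X := by exact_mod_cast (le_max_right _ _).trans hX
    have hlog : 0 ≤ Real.log X := Real.log_nonneg hX1
    rw [Real.norm_of_nonneg (Real.rpow_nonneg hlog _),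
      Real.norm_of_nonneg (Real.rpow_nonneg (by linarith) _), Real.rpow_natCast] at h4
    have h5 : 4 * (LL k : ℝ) * (1 / (4 * LL k) * (X : ℝ) ^ (3 / 4 : ℝ)) = (X : ℝ) ^ (3 / 4 : ℝ) := by
      field_simp
    calc 4 * (LL k : ℝ) * Real.log X ^ (C + 1)
        ≤ 4 * (LL k : ℝ) * (1 / (4 * LL k) * (X : ℝ) ^ (3 / 4 : ℝ)) :=
          mul_le_mul_of_nonneg_left h4 (by positivity)
      _ = _ := h5
  refine ⟨1 / (8 * s + 8), by positivity, max (max X₁ X₂) 3, ?_⟩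
  intro X y hX hy hyX J hJ
  have hX1 : X₁ ≤ X := (le_max_left _ _).trans ((le_max_left _ _).trans hX)
  have hX2 : X₂ ≤ X := (le_max_right _ _).trans ((le_max_left _ _).trans hX)
  have hX3 : 3 ≤ X := (le_max_right _ _).trans hX
  have hXR : (3 : ℝ) ≤ X := by exact_mod_cast hX3
  have hX0 : (0 : ℝ) < X := by linarith
  have hlogX : 1 ≤ Real.log X := by
    rw [Real.le_log_iff_exp_le hX0]
    have := Real.exp_one_lt_d9
    linarith
  have hsR : (0 : ℝ) ≤ s := Nat.cast_nonneg s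
  have hyX1 : (y : ℝ) ≤ X := by
    refine hyX.trans ?_
    calc (X : ℝ) ^ (1 / (8 * (s : ℝ) + 8)) ≤ (X : ℝ) ^ (1 : ℝ) := by
          refine Real.rpow_le_rpow_of_exponent_le (by linarith) ?_
          rw [div_le_one (by positivity)]
          linarith
      _ = X := Real.rpow_one _
  have hyX' : y ≤ X := by exact_mod_cast hyX1
  have hy0 : (2 : ℝ) ≤ y := by exact_mod_cast hy
  -- the sieve
  have hQ : ∀ q ∈ QQ k y, q.Prime ∧ 4 * k ≤ q ∧ q ≤ y := by
    intro q hq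
    unfold QQ PP at hq
    rw [mem_filter, mem_range] at hq
    exact ⟨hq.2.1, by omega, by omega⟩
  have hQ4 : ∀ q ∈ QQ k y, 4 * k + 4 < q := by
    intro q hq
    unfold QQ PP at hq
    rw [mem_filter, mem_range] at hq
    exact hq.2.2
  obtain ⟨D, cp, cn, hD1, hD2, hD3, hD4⟩ := hfl y hy (QQ k y) hQ
  have hcardk : ∀ q, (OJ J q).card ≤ k := fun q => (up_OJ_card J q).trans hJ
  obtain ⟨hP1, -⟩ := hlow X (4 * k + 4) y hX1 le_rfl hyX' (QQ k y) (by unfold QQ; exact Subset.rfl)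
    (OJ J) (fun q _ => hcardk q)
  obtain ⟨hG0, hG1, -⟩ := hD4 (d1 (OJ J)) (by
    intro q hq
    have hq0 : (0 : ℝ) < q := by exact_mod_cast (hQ q hq).1.pos
    unfold d1
    refine ⟨by positivity, div_le_div_of_nonneg_right ?_ hq0.le⟩
    have h1 : ((OJ J q).card : ℝ) ≤ k := by exact_mod_cast hcardk q
    have h2 : (0 : ℝ) ≤ k := Nat.cast_nonneg k
    linarith)
  -- the sets
  set A : Finset ℕ := (Icc 1 (2 * X)).filter (fun n => n ≡ 1 [MOD LL k]) with hA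
  have hRR : ((RR k y X J).card : ℝ) =
      ∑ n ∈ A, (if ∀ q ∈ QQ k y, n % q ∉ OJ J q then (1 : ℝ) else 0) := by
    rw [← sum_filter, sum_const, nsmul_eq_mul, mul_one, hA, filter_filter]
    unfold RR
    congr 2
  have hup1 : ((RR k y X J).card : ℝ) ≤ ∑ n ∈ A, Lm D cp (OJ J) n := by
    rw [hRR]
    exact sum_le_sum fun n _ => (hD3 (OJ J) n).1
  have hup2 : ∑ n ∈ A, Lm D cp (OJ J) n = ∑ d ∈ D, cp d *
      ((((Icc 1 (2 * X)).filter fun n => n ≡ 1 [MOD LL k] ∧ ∀ p ∈ d, n % p ∈ OJ J p).card : ℕ) : ℝ) := by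
    unfold Lm
    rw [sum_comm]
    refine sum_congr rfl fun d _ => ?_
    rw [← mul_sum]
    congr 1
    rw [← sum_filter, sum_const, nsmul_eq_mul, mul_one, hA, filter_filter]
  have hnd : ∀ d ∈ D, |((((Icc 1 (2 * X)).filter fun n => n ≡ 1 [MOD LL k] ∧
      ∀ p ∈ d, n % p ∈ OJ J p).card : ℕ) : ℝ) - ((2 * X : ℕ) : ℝ) / LL k * ∏ p ∈ d, d1 (OJ J) p| ≤
      ((y : ℝ)) ^ s := by
    intro d hd
    have hdQ := (hD1 d hd).1
    refine (up_cnt (2 * X) (OJ J) (up_OJ_sub J) d (fun p hp => (hQ p (hdQ hp)).1) (LL k) 1 hL0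
      ?_).trans ?_
    · intro p hp hdvd
      have h1 := hQ4 p (hdQ hp)
      have hpp := (hQ p (hdQ hp)).1
      have h2 : p ≤ 4 * k + 4 := by
        unfold LL primorial at hdvd
        rw [hpp.prime.dvd_finsetProd_iff] at hdvd
        obtain ⟨q, hq, hpq⟩ := hdvd
        rw [mem_filter, mem_range] at hq
        have := Nat.le_of_dvd hq.2.pos hpq
        omega
      omega
    · have h1 : ∏ p ∈ d, ((OJ J p).card : ℝ) ≤ ∏ p ∈ d, (p : ℝ) := by
        refine prod_le_prod (fun p _ => Nat.cast_nonneg _) fun p _ => ?_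
        have := card_le_card (up_OJ_sub J p)
        rw [card_range] at this
        exact_mod_cast this
      refine h1.trans ?_
      have h2 : ((∏ q ∈ d, q : ℕ) : ℝ) ≤ ((y ^ s : ℕ) : ℝ) := Nat.cast_le.mpr (hD1 d hd).2
      rwa [Nat.cast_prod, Nat.cast_pow] at h2
  have hcd : (D.card : ℝ) ≤ (y : ℝ) ^ s := by
    have h1 := (dcard D (y ^ s) (fun d hd q hq => (hQ q ((hD1 d hd).1 hq)).1)
      (fun d hd => (hD1 d hd).2)).1
    exact_mod_cast h1
  have hlogy : 0 ≤ Real.log y := Real.log_nonneg (by linarith)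
  have hup3 : ∑ d ∈ D, cp d * ((((Icc 1 (2 * X)).filter fun n => n ≡ 1 [MOD LL k] ∧
      ∀ p ∈ d, n % p ∈ OJ J p).card : ℕ) : ℝ) ≤
      ((2 * X : ℕ) : ℝ) / LL k * Gm D cp (d1 (OJ J)) +
        (y : ℝ) ^ s * ((2 + 2 * Real.log y) * (y : ℝ) ^ s) := by
    have h1 : ∀ d ∈ D, cp d * ((((Icc 1 (2 * X)).filter fun n => n ≡ 1 [MOD LL k] ∧
        ∀ p ∈ d, n % p ∈ OJ J p).card : ℕ) : ℝ) ≤
        ((2 * X : ℕ) : ℝ) / LL k * (cp d * ∏ p ∈ d, d1 (OJ J) p) +
          (2 + 2 * Real.log y) * (y : ℝ) ^ s := by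
      intro d hd
      set Nd : ℝ := ((((Icc 1 (2 * X)).filter fun n => n ≡ 1 [MOD LL k] ∧
        ∀ p ∈ d, n % p ∈ OJ J p).card : ℕ) : ℝ) with hNd
      have h2 := hnd d hd
      have h3 := (hD2 d hd).1
      have h4 : cp d * (Nd - ((2 * X : ℕ) : ℝ) / LL k * ∏ p ∈ d, d1 (OJ J) p) ≤
          (2 + 2 * Real.log y) * (y : ℝ) ^ s := by
        refine (le_abs_self _).trans ?_
        rw [abs_mul]
        exact mul_le_mul h3 h2 (abs_nonneg _) (by positivity)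
      have h5 : cp d * Nd = ((2 * X : ℕ) : ℝ) / LL k * (cp d * ∏ p ∈ d, d1 (OJ J) p) +
          cp d * (Nd - ((2 * X : ℕ) : ℝ) / LL k * ∏ p ∈ d, d1 (OJ J) p) := by ring
      rw [h5]
      linarith
    refine (sum_le_sum h1).trans ?_
    rw [sum_add_distrib, ← mul_sum, sum_const, nsmul_eq_mul]
    have h2 : (D.card : ℝ) * ((2 + 2 * Real.log y) * (y : ℝ) ^ s) ≤
        (y : ℝ) ^ s * ((2 + 2 * Real.log y) * (y : ℝ) ^ s) :=
      mul_le_mul_of_nonneg_right hcd (by positivity)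
    unfold Gm
    linarith
  -- the error term
  have hPJ : PJ k y J = ∏ q ∈ QQ k y, (1 - d1 (OJ J) q) := rfl
  have herr : (y : ℝ) ^ s * ((2 + 2 * Real.log y) * (y : ℝ) ^ s) ≤ (X : ℝ) / LL k * PJ k y J := by
    have h1 : (y : ℝ) ^ s * (y : ℝ) ^ s ≤ (X : ℝ) ^ (1 / 4 : ℝ) := by
      have h2 : (y : ℝ) ^ s * (y : ℝ) ^ s = (y : ℝ) ^ (2 * s) := by
        rw [← pow_add, two_mul]
      rw [h2]
      calc (y : ℝ) ^ (2 * s) ≤ ((X : ℝ) ^ (1 / (8 * (s : ℝ) + 8))) ^ (2 * s) :=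
            pow_le_pow_left₀ (by linarith) hyX _
        _ = (X : ℝ) ^ (1 / (8 * (s : ℝ) + 8) * ((2 * s : ℕ) : ℝ)) := by
            rw [Real.rpow_mul hX0.le, Real.rpow_natCast]
        _ ≤ (X : ℝ) ^ (1 / 4 : ℝ) := by
            refine Real.rpow_le_rpow_of_exponent_le (by linarith) ?_
            push_cast
            rw [div_mul_eq_mul_div, one_mul, div_le_div_iff₀ (by positivity) (by norm_num)]
            linarith
    have h3 : Real.log y ≤ Real.log X := Real.log_le_log (by linarith) hyX1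
    have h4 : 2 + 2 * Real.log y ≤ 4 * Real.log X := by linarith
    have h5 : (y : ℝ) ^ s * ((2 + 2 * Real.log y) * (y : ℝ) ^ s) ≤
        4 * Real.log X * (X : ℝ) ^ (1 / 4 : ℝ) := by
      calc (y : ℝ) ^ s * ((2 + 2 * Real.log y) * (y : ℝ) ^ s)
          = (2 + 2 * Real.log y) * ((y : ℝ) ^ s * (y : ℝ) ^ s) := by ring
        _ ≤ 4 * Real.log X * (X : ℝ) ^ (1 / 4 : ℝ) :=
            mul_le_mul h4 h1 (by positivity) (by linarith)
    have h6 : (X : ℝ) / LL k * (1 / Real.log X ^ C) ≤ (X : ℝ) / LL k * PJ k y J := by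
      rw [hPJ]
      exact mul_le_mul_of_nonneg_left hP1 (by positivity)
    refine h5.trans (le_trans ?_ h6)
    have h7 := hX₂ X hX2
    have h8 : (X : ℝ) = (X : ℝ) ^ (1 / 4 : ℝ) * (X : ℝ) ^ (3 / 4 : ℝ) := by
      rw [← Real.rpow_add hX0]
      norm_num
    have hlC : 0 < Real.log X ^ C := by positivity
    rw [div_mul_div_comm, mul_one, le_div_iff₀ (by positivity)]
    have h9 : 0 ≤ (X : ℝ) ^ (1 / 4 : ℝ) := by positivity
    calc 4 * Real.log X * (X : ℝ) ^ (1 / 4 : ℝ) * (LL k * Real.log X ^ C)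
        = (X : ℝ) ^ (1 / 4 : ℝ) * (4 * LL k * Real.log X ^ (C + 1)) := by ring
      _ ≤ (X : ℝ) ^ (1 / 4 : ℝ) * (X : ℝ) ^ (3 / 4 : ℝ) := mul_le_mul_of_nonneg_left h7 h9
      _ = X := h8.symm
  -- conclusion
  have hmain : ((2 * X : ℕ) : ℝ) / LL k * Gm D cp (d1 (OJ J)) ≤
      4 * ((X : ℝ) / LL k * PJ k y J) := by
    rw [hPJ]
    push_cast
    calc 2 * (X : ℝ) / LL k * Gm D cp (d1 (OJ J))
        ≤ 2 * (X : ℝ) / LL k * (2 * ∏ q ∈ QQ k y, (1 - d1 (OJ J) q)) :=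
          mul_le_mul_of_nonneg_left hG1 (by positivity)
      _ = 4 * ((X : ℝ) / LL k * ∏ q ∈ QQ k y, (1 - d1 (OJ J) q)) := by ring
  calc ((RR k y X J).card : ℝ) ≤ ∑ n ∈ A, Lm D cp (OJ J) n := hup1
    _ ≤ ((2 * X : ℕ) : ℝ) / LL k * Gm D cp (d1 (OJ J)) +
        (y : ℝ) ^ s * ((2 + 2 * Real.log y) * (y : ℝ) ^ s) := by
        rw [hup2]
        exact hup3
    _ ≤ 5 * ((X : ℝ) / LL k * PJ k y J) := by linarith

end Pool.Agent.Lib.DZ
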